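import Pool.Agent.HHalfC.CG

/-!
# The inequalities on the cluster side (`k ≥ 4`): the right part and the summary
-/

set_option autoImplicit false

namespace Pool.Agent.HHalfC

open Pool.Agent.HHalf Pool.Agent.HHalfB

section
variable {k d : ℕ} {D : ℕ → ℝ}

theorem r0 {d j : ℕ} (hd : 1 ≤ d) (h : j = d) : (j.choose (d - 1) : ℝ) / d = 1 := by
  have hd' : (d : ℝ) ≠ 0 := by
    have : (0:ℝ) < d := by exact_mod_cast hd
    exact this.ne'
  rw [e1 hd h]; field_simp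

theorem r1 {d j : ℕ} (hd : 1 ≤ d) (h : j = d + 1) :
    (j.choose (d - 1) : ℝ) / d = ((d : ℝ) + 1) / 2 := by
  have hd' : (d : ℝ) ≠ 0 := by
    have : (0:ℝ) < d := by exact_mod_cast hd
    exact this.ne'
  rw [e2 hd h]; field_simp

theorem r2 {d j : ℕ} (hd : 1 ≤ d) (h : j = d + 2) :
    (j.choose (d - 1) : ℝ) / d = ((d : ℝ) + 1) * (d + 2) / 6 := by
  have hd' : (d : ℝ) ≠ 0 := by
    have : (0:ℝ) < d := by exact_mod_cast hd
    exact this.ne'
  rw [e3 hd h]; field_simp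

theorem r3 {d j : ℕ} (hd : 1 ≤ d) (h : j = d + 3) :
    (j.choose (d - 1) : ℝ) / d = ((d : ℝ) + 1) * (d + 2) * (d + 3) / 24 := by
  have hd' : (d : ℝ) ≠ 0 := by
    have : (0:ℝ) < d := by exact_mod_cast hd
    exact this.ne'
  rw [e4 hd h]; field_simp

/-- `J = d - 2`. -/
theorem HD.R2 (h : HD k d D) {J : ℕ} (hJ : J + 2 = d) :
    ∃ τ, Five (fun p => Vn (d + k - 2) (d - 1) (J + p))
      (fun s => Gf (d + k) d (1 / 3) D (J + s)) τ := by
  have h6 := h.d6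
  have hkd := h.kd
  have hk := h.k4
  have v0 : Vn (d + k - 2) (d - 1) (J + 0) = 1 / 2 := vm (by omega) (by omega) (by omega)
  have v1 : Vn (d + k - 2) (d - 1) (J + 1) = 1 / 2 := vm (by omega) (by omega) (by omega)
  have v2 : Vn (d + k - 2) (d - 1) (J + 2) = 1 := by
    rw [vr (by omega) (by omega)]; exact r0 (by omega) (by omega)
  refine five_V (τ := 1) (W := 1 / 2) v0 v1 v2 (h.gmid (by omega))
    (h.gmid (by omega)) (h.gmid (by omega)) (h.gmid (by omega)) (h.gd2 (by omega)) (by norm_num)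
    (by norm_num) ?_ ?_ ?_ ?_ ?_
  · norm_num
  · norm_num
  · norm_num
  · norm_num
  · obtain ⟨y, hy, hxy⟩ : ∃ y : ℝ, 0 ≤ y ∧ (d : ℝ) = y + 6 := ⟨d - 6, by linarith, by ring⟩
    rw [hxy, ← sub_nonneg]
    ring_nf
    positivity

/-- `J = d - 1`. -/
theorem HD.R1 (h : HD k d D) {J : ℕ} (hJ : J + 1 = d) :
    ∃ τ, Five (fun p => Vn (d + k - 2) (d - 1) (J + p))
      (fun s => Gf (d + k) d (1 / 3) D (J + s)) τ := by
  have h6 := h.d6
  have hkd := h.kd
  have hk := h.k4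
  have v0 : Vn (d + k - 2) (d - 1) (J + 0) = 1 / 2 := vm (by omega) (by omega) (by omega)
  have v1 : Vn (d + k - 2) (d - 1) (J + 1) = 1 := by
    rw [vr (by omega) (by omega)]; exact r0 (by omega) (by omega)
  have v2 : Vn (d + k - 2) (d - 1) (J + 2) = ((d : ℝ) + 1) / 2 := by
    rw [vr (by omega) (by omega)]; exact r1 (by omega) (by omega)
  refine five_V (τ := 1 / 2) (W := 2) v0 v1 v2 (h.gmid (by omega))
    (h.gmid (by omega)) (h.gd1 (by omega)) (h.gd2 (by omega)) (h.gd3 (by omega)) (by norm_num)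
    (by norm_num) ?_ ?_ ?_ ?_ ?_
  · norm_num
  · norm_num
  all_goals
    obtain ⟨y, hy, hxy⟩ : ∃ y : ℝ, 0 ≤ y ∧ (d : ℝ) = y + 6 := ⟨d - 6, by linarith, by ring⟩
    rw [hxy, ← sub_nonneg]
    ring_nf
    positivity

/-- `J = d`. -/
theorem HD.R0 (h : HD k d D) {J : ℕ} (hJ : J = d) :
    ∃ τ, Five (fun p => Vn (d + k - 2) (d - 1) (J + p))
      (fun s => Gf (d + k) d (1 / 3) D (J + s)) τ := by
  have h6 := h.d6
  have hkd := h.kd
  have hk := h.k4
  have v0 : Vn (d + k - 2) (d - 1) (J + 0) = 1 := by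
    rw [vr (by omega) (by omega)]; exact r0 (by omega) (by omega)
  have v1 : Vn (d + k - 2) (d - 1) (J + 1) = ((d : ℝ) + 1) / 2 := by
    rw [vr (by omega) (by omega)]; exact r1 (by omega) (by omega)
  have v2 : Vn (d + k - 2) (d - 1) (J + 2) = ((d : ℝ) + 1) * (d + 2) / 6 := by
    rw [vr (by omega) (by omega)]; exact r2 (by omega) (by omega)
  refine five_V (τ := 1 / 16) (W := 8 * ((d : ℝ) + 1)) v0 v1 v2 (h.gd (by omega))
    (h.gd1 (by omega)) (h.gd2 (by omega)) (h.gd3 (by omega)) (h.gd4 (by omega)) (by norm_num)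
    (le_of_eq (by ring)) ?_ ?_ ?_ ?_ ?_
  · have := h.h5'
    linarith
  all_goals
    obtain ⟨y, hy, hxy⟩ : ∃ y : ℝ, 0 ≤ y ∧ (d : ℝ) = y + 6 := ⟨d - 6, by linarith, by ring⟩
    rw [hxy, ← sub_nonneg]
    ring_nf
    positivity

/-- `J = d + 1`. -/
theorem HD.R3 (h : HD k d D) {J : ℕ} (hJ : J = d + 1) :
    ∃ τ, Five (fun p => Vn (d + k - 2) (d - 1) (J + p))
      (fun s => Gf (d + k) d (1 / 3) D (J + s)) τ := by
  have h6 := h.d6
  have hkd := h.kd
  have hk := h.k4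
  have v0 : Vn (d + k - 2) (d - 1) (J + 0) = ((d : ℝ) + 1) / 2 := by
    rw [vr (by omega) (by omega)]; exact r1 (by omega) (by omega)
  have v1 : Vn (d + k - 2) (d - 1) (J + 1) = ((d : ℝ) + 1) * (d + 2) / 6 := by
    rw [vr (by omega) (by omega)]; exact r2 (by omega) (by omega)
  have v2 : Vn (d + k - 2) (d - 1) (J + 2) = ((d : ℝ) + 1) * (d + 2) * (d + 3) / 24 := by
    rw [vr (by omega) (by omega)]; exact r3 (by omega) (by omega)
  refine five_V (τ := 1 / 2) (W := ((d : ℝ) + 1) * (d + 2) / 3) v0 v1 v2 (h.gd1 (by omega))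
    (h.gd2 (by omega)) (h.gd3 (by omega)) (h.gd4 (by omega)) (h.gd5 (by omega)) (by norm_num)
    (le_of_eq (by ring)) ?_ ?_ ?_ ?_ ?_
  all_goals
    obtain ⟨y, hy, hxy⟩ : ∃ y : ℝ, 0 ≤ y ∧ (d : ℝ) = y + 6 := ⟨d - 6, by linarith, by ring⟩
    rw [hxy, ← sub_nonneg]
    ring_nf
    positivity

/-- `G(s) ≥ C(s, d-1)` times `9/10` for `s ≥ d + 2`. -/
theorem HD.gbig (h : HD k d D) (h7 : 7 ≤ d) {s : ℕ} (hs : d + 2 ≤ s) :
    9 / 10 * (s.choose (d - 1) : ℝ) ≤ Gf (d + k) d (1 / 3) D s := by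
  have hx : (7:ℝ) ≤ (d : ℝ) := by exact_mod_cast h7
  have h1 := GV_lo (n := d + k) (le_refl ((s.choose d : ℕ) : ℝ)) (nn (d + k - s) d)
    (h.h6 s (by omega))
  refine le_trans ?_ h1
  have hu := up_right (d := d) (m := s) (by omega) (by omega)
  have hB : 12 * (d : ℝ) ≤ (s.choose (d - 1) : ℝ) := by
    refine le_trans ?_ (ch_mono (d - 1) hs)
    rw [e3 (by omega) rfl]
    nlinarith [mul_nonneg (show (0:ℝ) ≤ d by linarith) (show (0:ℝ) ≤ d - 7 by linarith),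
      mul_nonneg (mul_nonneg (show (0:ℝ) ≤ d by linarith) (show (0:ℝ) ≤ d - 7 by linarith))
        (show (0:ℝ) ≤ d by linarith)]
  have hj : (2:ℝ) ≤ (s : ℝ) - d := by
    have : ((d + 2 : ℕ) : ℝ) ≤ s := by exact_mod_cast hs
    push_cast at this; linarith
  have e : (d : ℝ) * ((s.choose d : ℝ) / 3 + 2 * 0 / 3 + (-1 / 6 - ((s : ℝ) - d) / 2)) =
      (((s : ℝ) - d + 1) * (s.choose (d - 1) : ℝ)) / 3 - d * (1 / 6 + ((s : ℝ) - d) / 2) := by
    linear_combination (1 / 3) * hu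
  rw [e]
  have h2 : (d : ℝ) * (1 / 6 + ((s : ℝ) - d) / 2) ≤
      (s.choose (d - 1) : ℝ) / 12 * (1 / 6 + ((s : ℝ) - d) / 2) :=
    mul_le_mul_of_nonneg_right (by linarith) (by linarith)
  have h3 : (0:ℝ) ≤ (s.choose (d - 1) : ℝ) * (((s : ℝ) - d) - 2) :=
    mul_nonneg (Nat.cast_nonneg _) (by linarith)
  linarith

/-- `J ≥ d + 2`. -/
theorem HD.R4 (h : HD k d D) {J : ℕ} (hJ : d + 2 ≤ J) (hJk : J + 4 ≤ d + k) :
    ∃ τ, Five (fun p => Vn (d + k - 2) (d - 1) (J + p))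
      (fun s => Gf (d + k) d (1 / 3) D (J + s)) τ := by
  have hkd := h.kd
  have h7 : 7 ≤ d := by omega
  have hx : (7:ℝ) ≤ (d : ℝ) := by exact_mod_cast h7
  have hd0 : (0:ℝ) < d := by linarith
  have c01 : (J.choose (d - 1) : ℝ) ≤ ((J + 1).choose (d - 1) : ℝ) := ch_mono _ (by omega)
  have c12 : ((J + 1).choose (d - 1) : ℝ) ≤ ((J + 2).choose (d - 1) : ℝ) := ch_mono _ (by omega)
  have c23 : ((J + 2).choose (d - 1) : ℝ) ≤ ((J + 3).choose (d - 1) : ℝ) := ch_mono _ (by omega)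
  have c34 : ((J + 3).choose (d - 1) : ℝ) ≤ ((J + 4).choose (d - 1) : ℝ) := ch_mono _ (by omega)
  have p0 : (0 : ℝ) < (J.choose (d - 1) : ℝ) := by exact_mod_cast Nat.choose_pos (by omega)
  have u0 := succ_up (d := d) (m := J) (by omega) (by omega)
  have hj2 : (2:ℝ) ≤ (J : ℝ) - d := by
    have : ((d + 2 : ℕ) : ℝ) ≤ J := by exact_mod_cast hJ
    push_cast at this; linarith
  have hdJ : (J : ℝ) - d + 6 ≤ d := by
    have : ((J + 6 : ℕ) : ℝ) ≤ ((d + d : ℕ) : ℝ) := by exact_mod_cast (show J + 6 ≤ d + d by omega)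
    push_cast at this; linarith
  have g0 := h.gbig h7 (s := J + 0) (by omega)
  have g1 := h.gbig h7 (s := J + 1) (by omega)
  have g2 := h.gbig h7 (s := J + 2) (by omega)
  have g3 := h.gbig h7 (s := J + 3) (by omega)
  have g4 := h.gbig h7 (s := J + 4) (by omega)
  rw [Nat.add_zero] at g0
  set B0 := (J.choose (d - 1) : ℝ) with hB0
  set B1 := ((J + 1).choose (d - 1) : ℝ) with hB1
  set B2 := ((J + 2).choose (d - 1) : ℝ) with hB2
  -- `(B0 + B1)/d ≤ B0/2`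
  have hq : B0 / d + 1 * (B1 / d) ≤ 9 / 10 * B0 := by
    rw [one_mul, ← add_div, div_le_iff₀ hd0]
    have h1 : ((J : ℝ) - d + 2) * (B0 + B1) ≤ ((J : ℝ) - d + 2) * (9 / 10 * B0 * d) := by
      have e : ((J : ℝ) - d + 2) * (B0 + B1) = (((J : ℝ) - d + 2) + (J + 1)) * B0 := by
        linear_combination u0
      have e' : ((J : ℝ) - d + 2) * (9 / 10 * B0 * d) =
        (((J : ℝ) - d + 2) * (9 / 10 * d)) * B0 := by ring
      rw [e, e']
      refine mul_le_mul_of_nonneg_right ?_ p0.le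
      nlinarith
    exact le_of_mul_le_mul_left h1 (by linarith)
  have hd' : ∀ {B : ℝ}, 0 ≤ B → B / d ≤ B / 7 := fun hB => div_le_div_of_nonneg_left hB (by norm_num) hx
  have q1 := hd' (p0.le.trans c01)
  have q2 := hd' (p0.le.trans (c01.trans c12))
  have q0 := hd' p0.le
  refine five_V (τ := 1) (W := B1 / d) (V0 := B0 / d) (V1 := B1 / d) (V2 := B2 / d)
    (vr (by omega) (by omega)) (vr (by omega) (by omega)) (vr (by omega) (by omega))
    g0 g1 g2 g3 g4 one_pos (by rw [div_one]) hq ?_ ?_ ?_ ?_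
  all_goals linarith

/-- Different pairs. -/
theorem HD.good2 (h : HD k d D) : ∀ J, J + 4 ≤ d + k →
    ∃ τ, Five (fun p => Vn (d + k - 2) (d - 1) (J + p))
      (fun s => Gf (d + k) d (1 / 3) D (J + s)) τ := by
  intro J hJ
  have hcases : J + 6 ≤ k ∨ J + 5 = k ∨ J + 4 = k ∨ J + 3 = k ∨ J + 2 = k ∨ J + 1 = k ∨
    (k ≤ J ∧ J + 3 ≤ d) ∨ J + 2 = d ∨ J + 1 = d ∨ J = d ∨ J = d + 1 ∨ d + 2 ≤ J := by omega
  rcases hcases with h1 | h1 | h1 | h1 | h1 | h1 | ⟨h1, h2⟩ | h1 | h1 | h1 | h1 | h1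
  · exact h.L6 h1
  · exact h.L5 h1
  · exact h.L4 h1
  · exact h.L3 h1
  · exact h.L2 h1
  · exact h.L1 h1
  · exact h.Mm h1 h2
  · exact h.R2 h1
  · exact h.R1 h1
  · exact h.R0 h1
  · exact h.R3 h1
  · exact h.R4 h1 hJ

/-- Same pair. -/
theorem HD.good1 (h : HD k d D) : ∀ J ≤ d + k - 2, ∀ p ≤ 2,
    Vn (d + k - 2) (d - 1) J ≤ Gf (d + k) d (1 / 3) D (J + p) := by
  intro J hJ p hp
  have h6 := h.d6
  have hkd := h.kd
  have hk := h.k4
  have hcases : J + 3 ≤ k ∨ J + 2 = k ∨ J + 1 = k ∨ (k ≤ J ∧ J + 1 ≤ d) ∨ J = d ∨ J = d + 1 ∨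
    d + 2 ≤ J := by omega
  rcases hcases with h1 | h1 | h1 | ⟨h1, h2⟩ | h1 | h1 | h1
  · rw [vl hkd (by omega)]
    obtain ⟨m, hm⟩ : ∃ m, m = d + k - 2 - J := ⟨_, rfl⟩
    rw [← hm]
    have hD : 0 ≤ D (J + p) := le_trans (by norm_num) (h.h1 (J + p) (by omega))
    have h2 := GV_lo (n := d + k) (d := d) (s := J + p) (nn (J + p) d)
      (ch_mono d (show m ≤ d + k - (J + p) by omega)) hD
    refine le_trans ?_ h2
    have hu := up_all (d := d) (m := m) (by omega) (by omega)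
    have hmr : ((d : ℕ) : ℝ) + 1 ≤ m := by exact_mod_cast (show d + 1 ≤ m by omega)
    have h3 : 2 * (m.choose (d - 1) : ℝ) ≤ ((m : ℝ) - d + 1) * (m.choose (d - 1) : ℝ) :=
      mul_le_mul_of_nonneg_right (by linarith) (Nat.cast_nonneg _)
    have h4 := nn m (d - 1)
    linarith
  · rw [vl hkd (by omega), e1 (d := d) (by omega) (by omega)]
    have hp' : p = 0 ∨ p = 1 ∨ p = 2 := by omega
    rcases hp' with rfl | rfl | rfl
    · refine le_trans ?_ (h.gm2 (by omega))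
      obtain ⟨y, hy, hxy⟩ : ∃ y : ℝ, 0 ≤ y ∧ (d : ℝ) = y + 6 := ⟨d - 6, by linarith, by ring⟩
      rw [hxy, ← sub_nonneg]
      ring_nf
      positivity
    · refine le_trans ?_ (h.gm1 (by omega)); nlinarith
    · refine le_trans ?_ (h.g0 (by omega)); nlinarith
  · rw [vl hkd (by omega), e0 (d := d) (by omega) (by omega)]
    exact le_trans (by norm_num) (h.gmid (by omega))
  · rw [vm (by omega) h1 h2]
    exact le_trans (by norm_num) (h.gmid (by omega))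
  · rw [vr (by omega) (by omega), r0 (by omega) h1]
    have hp' : p = 0 ∨ p = 1 ∨ p = 2 := by omega
    rcases hp' with rfl | rfl | rfl
    · exact le_trans (by norm_num) (h.gmid (by omega))
    · exact le_trans (by norm_num) (h.gmid (by omega))
    · refine le_trans ?_ (h.gd2 (by omega))
      obtain ⟨y, hy, hxy⟩ : ∃ y : ℝ, 0 ≤ y ∧ (d : ℝ) = y + 6 := ⟨d - 6, by linarith, by ring⟩
      rw [hxy, ← sub_nonneg]
      ring_nf
      positivity
  · rw [vr (by omega) (by omega), r1 (by omega) h1]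
    have hp' : p = 0 ∨ p = 1 ∨ p = 2 := by omega
    rcases hp' with rfl | rfl | rfl
    · refine le_trans ?_ (h.gd1 (by omega)); nlinarith
    · refine le_trans ?_ (h.gd2 (by omega))
      obtain ⟨y, hy, hxy⟩ : ∃ y : ℝ, 0 ≤ y ∧ (d : ℝ) = y + 6 := ⟨d - 6, by linarith, by ring⟩
      rw [hxy, ← sub_nonneg]
      ring_nf
      positivity
    · refine le_trans ?_ (h.gd3 (by omega))
      obtain ⟨y, hy, hxy⟩ : ∃ y : ℝ, 0 ≤ y ∧ (d : ℝ) = y + 6 := ⟨d - 6, by linarith, by ring⟩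
      rw [hxy, ← sub_nonneg]
      ring_nf
      positivity
  · rw [vr (by omega) (by omega)]
    have h7 : 7 ≤ d ∨ d = 6 := by omega
    rcases h7 with h7 | h7
    · refine le_trans ?_ (h.gbig h7 (s := J + p) (by omega))
      have h2 := ch_mono (d - 1) (show J ≤ J + p by omega)
      have hx : (7:ℝ) ≤ (d : ℝ) := by exact_mod_cast h7
      have h3 : (J.choose (d - 1) : ℝ) / d ≤ (J.choose (d - 1) : ℝ) / 7 :=
        div_le_div_of_nonneg_left (Nat.cast_nonneg _) (by norm_num) hx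
      have h4 := nn J (d - 1)
      linarith
    · have hk4 : k = 4 := by omega
      have hJ8 : J = d + 2 := by omega
      rw [r2 (by omega) hJ8]
      have hp' : p = 0 ∨ p = 1 ∨ p = 2 := by omega
      rcases hp' with rfl | rfl | rfl
      · refine le_trans ?_ (h.gd2 (by omega))
        rw [h7]; norm_num
      · refine le_trans ?_ (h.gd3 (by omega))
        rw [h7]; norm_num
      · refine le_trans ?_ (h.gd4 (by omega))
        rw [h7]; norm_num

end

/-- `n ≥ 2k + 4`. -/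
theorem hd_B {k d : ℕ} (hk : 4 ≤ k) (hkd : k + 4 ≤ d) : HD k d (Dl (1 / 3) ((d : ℝ) - 1 / 2)) := by
  have hx : (8:ℝ) ≤ (d : ℝ) := by exact_mod_cast (show 8 ≤ d by omega)
  have hkd' : (k : ℝ) + 4 ≤ d := by exact_mod_cast hkd
  refine ⟨hk, by omega, ?_, ?_, ?_, ?_, ?_, ?_, ?_⟩
  · intro s hs
    have : (s : ℝ) + 1 ≤ k := by exact_mod_cast hs
    unfold Dl
    linarith
  · unfold Dl; linarith
  · unfold Dl; push_cast; linarith
  · intro s hs
    have : (s : ℝ) + 1 ≤ d := by exact_mod_cast hs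
    unfold Dl
    nlinarith
  · unfold Dl; nlinarith
  · unfold Dl; nlinarith
  · intro s hs
    have : (d : ℝ) ≤ s := by exact_mod_cast hs
    unfold Dl
    linarith

/-- `n = 2k + 2`. -/
theorem hd_A {k d : ℕ} (hk : 4 ≤ k) (hkd : k + 2 = d) : HD k d (Dl (1 / 2) ((d : ℝ) - 1 / 4)) := by
  have hx : (6:ℝ) ≤ (d : ℝ) := by exact_mod_cast (show 6 ≤ d by omega)
  have hkd' : (k : ℝ) + 2 = d := by exact_mod_cast hkd
  refine ⟨hk, by omega, ?_, ?_, ?_, ?_, ?_, ?_, ?_⟩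
  · intro s hs
    have : (s : ℝ) + 1 ≤ k := by exact_mod_cast hs
    unfold Dl
    linarith
  · unfold Dl; linarith
  · unfold Dl; push_cast; linarith
  · intro s hs
    have : (s : ℝ) + 1 ≤ d := by exact_mod_cast hs
    unfold Dl
    nlinarith
  · unfold Dl; nlinarith
  · unfold Dl; nlinarith
  · intro s hs
    have : (d : ℝ) ≤ s := by exact_mod_cast hs
    unfold Dl
    linarith

theorem HD.good {k d : ℕ} {D : ℕ → ℝ} (h : HD k d D) :
    GoodV (d + k) d (1 / 3) D (Vn (d + k - 2) (d - 1)) := ⟨h.good1, h.good2⟩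

end Pool.Agent.HHalfC
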