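import Pool.Agent.HHalfC.CSmall
import Pool.Agent.HHalfC.CR

/-!
# The inequalities on the cluster side for `k = 2` (`n ≥ 8`) and `k = 3` (`n ≥ 10`)
-/

set_option autoImplicit false

namespace Pool.Agent.HHalfC

open Pool.Agent.HHalf Pool.Agent.HHalfB

theorem mid_k2 {d s : ℕ} (hd : 6 ≤ d) (hs : s ≤ d + 1) :
    (23 / 20 : ℝ) ≤ Gf (d + 2) d 1 (Dl (24 / 25) ((d : ℝ) - 4 / 5)) s := by
  have hx : (6:ℝ) ≤ (d : ℝ) := by exact_mod_cast hd
  have hc : s + 1 ≤ d ∨ s = d ∨ s = d + 1 := by omega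
  rcases hc with h | h | h
  · refine le_trans ?_ (GD_lt (by norm_num) 1 h)
    push_cast; nlinarith
  · refine le_trans ?_ (GD_0 h)
    nlinarith
  · refine le_trans ?_ (GD_1 h)
    nlinarith

theorem good_k2 {d : ℕ} (hd : 6 ≤ d) :
    GoodV (d + 2) d 1 (Dl (24 / 25) ((d : ℝ) - 4 / 5)) (Vn (d + 2 - 2) (d - 1)) := by
  have hx : (6:ℝ) ≤ (d : ℝ) := by exact_mod_cast hd
  have hl : (0:ℝ) ≤ 24 / 25 := by norm_num
  constructor
  · intro J hJ p hp
    have hc : J = 0 ∨ J = 1 ∨ (2 ≤ J ∧ J + 1 ≤ d) ∨ J = d := by omega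
    rcases hc with h | h | ⟨h, h'⟩ | h
    · rw [vl (by omega) (by omega), e1 (d := d) (by omega) (by omega)]
      refine le_trans ?_ (GD_lt hl 4 (by omega))
      push_cast; nlinarith
    · rw [vl (by omega) (by omega), e0 (d := d) (by omega) (by omega)]
      exact le_trans (by norm_num) (mid_k2 hd (by omega))
    · rw [vm (by omega) h h']
      exact le_trans (by norm_num) (mid_k2 hd (by omega))
    · rw [vr (by omega) (by omega), r0 (by omega) h]
      have hp' : p ≤ 1 ∨ p = 2 := by omega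
      rcases hp' with h1 | h1
      · exact le_trans (by norm_num) (mid_k2 hd (by omega))
      · refine le_trans ?_ (GD_2 (by omega))
        obtain ⟨y, hy, hxy⟩ : ∃ y : ℝ, 0 ≤ y ∧ (d : ℝ) = y + 6 := ⟨d - 6, by linarith, by ring⟩
        rw [hxy, ← sub_nonneg]
        ring_nf
        positivity
  · intro J hJ
    have hc : J = 0 ∨ J = 1 ∨ (2 ≤ J ∧ J + 3 ≤ d) ∨ J + 2 = d := by omega
    rcases hc with h | h | ⟨h, h'⟩ | h
    · have v0 : Vn (d + 2 - 2) (d - 1) (J + 0) = d := by
        rw [vl (by omega) (by omega)]; exact e1 (by omega) (by omega)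
      have v1 : Vn (d + 2 - 2) (d - 1) (J + 1) = 1 := by
        rw [vl (by omega) (by omega)]; exact e0 (by omega) (by omega)
      have v2 : Vn (d + 2 - 2) (d - 1) (J + 2) = 1 / 2 := vm (by omega) (by omega) (by omega)
      refine five_V (τ := 1) (W := 1) v0 v1 v2 (GD_lt hl 6 (by omega)) (GD_lt hl 5 (by omega))
        (GD_lt hl 4 (by omega)) (GD_lt hl 3 (by omega)) (GD_lt hl 2 (by omega)) one_pos
        (by norm_num) ?_ ?_ ?_ ?_ ?_
      all_goals push_cast; nlinarith
    · have v0 : Vn (d + 2 - 2) (d - 1) (J + 0) = 1 := by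
        rw [vl (by omega) (by omega)]; exact e0 (by omega) (by omega)
      have v1 : Vn (d + 2 - 2) (d - 1) (J + 1) = 1 / 2 := vm (by omega) (by omega) (by omega)
      have v2 : Vn (d + 2 - 2) (d - 1) (J + 2) = 1 / 2 := vm (by omega) (by omega) (by omega)
      refine five_V (τ := 1) (W := 1 / 2) v0 v1 v2 (GD_lt hl 5 (by omega)) (GD_lt hl 4 (by omega))
        (GD_lt hl 3 (by omega)) (GD_lt hl 2 (by omega)) (mid_k2 hd (by omega)) one_pos
        (by norm_num) ?_ ?_ ?_ ?_ ?_
      all_goals push_cast; nlinarith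
    · have v0 : Vn (d + 2 - 2) (d - 1) (J + 0) = 1 / 2 := vm (by omega) (by omega) (by omega)
      have v1 : Vn (d + 2 - 2) (d - 1) (J + 1) = 1 / 2 := vm (by omega) (by omega) (by omega)
      have v2 : Vn (d + 2 - 2) (d - 1) (J + 2) = 1 / 2 := vm (by omega) (by omega) (by omega)
      refine five_V (τ := 1) (W := 1 / 2) v0 v1 v2 (mid_k2 hd (by omega)) (mid_k2 hd (by omega))
        (mid_k2 hd (by omega)) (mid_k2 hd (by omega)) (mid_k2 hd (by omega)) one_pos
        (by norm_num) ?_ ?_ ?_ ?_ ?_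
      all_goals norm_num
    · have v0 : Vn (d + 2 - 2) (d - 1) (J + 0) = 1 / 2 := vm (by omega) (by omega) (by omega)
      have v1 : Vn (d + 2 - 2) (d - 1) (J + 1) = 1 / 2 := vm (by omega) (by omega) (by omega)
      have v2 : Vn (d + 2 - 2) (d - 1) (J + 2) = 1 := by
        rw [vr (by omega) (by omega)]; exact r0 (by omega) (by omega)
      refine five_V (τ := 1) (W := 1 / 2) v0 v1 v2 (mid_k2 hd (by omega)) (mid_k2 hd (by omega))
        (GD_0 (by omega)) (GD_1 (by omega)) (GD_2 (by omega)) one_pos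
        (by norm_num) ?_ ?_ ?_ ?_ ?_
      · norm_num
      · norm_num
      · nlinarith
      · nlinarith
      · obtain ⟨y, hy, hxy⟩ : ∃ y : ℝ, 0 ≤ y ∧ (d : ℝ) = y + 6 := ⟨d - 6, by linarith, by ring⟩
        rw [hxy, ← sub_nonneg]
        ring_nf
        positivity

theorem mid_k3 {d s : ℕ} (hd : 7 ≤ d) (hs : s ≤ d + 1) :
    (7 / 4 : ℝ) ≤ Gf (d + 3) d 1 (Dl 1 ((d : ℝ) - 3 / 4)) s := by
  have hx : (7:ℝ) ≤ (d : ℝ) := by exact_mod_cast hd
  have hc : s + 1 ≤ d ∨ s = d ∨ s = d + 1 := by omega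
  rcases hc with h | h | h
  · refine le_trans ?_ (GD_lt (by norm_num) 1 h)
    push_cast; nlinarith
  · refine le_trans ?_ (GD_0 h)
    nlinarith
  · refine le_trans ?_ (GD_1 h)
    nlinarith

theorem good_k3 {d : ℕ} (hd : 7 ≤ d) :
    GoodV (d + 3) d 1 (Dl 1 ((d : ℝ) - 3 / 4)) (Vn (d + 3 - 2) (d - 1)) := by
  have hx : (7:ℝ) ≤ (d : ℝ) := by exact_mod_cast hd
  have hl : (0:ℝ) ≤ 1 := by norm_num
  have hlo : ∀ {s : ℕ} (t : ℝ), (s : ℝ) + t ≤ d →
      (d : ℝ) * (t - 3 / 4) ≤ Gf (d + 3) d 1 (Dl 1 ((d : ℝ) - 3 / 4)) s := by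
    intro s t ht
    have := GD_lo (n := d + 3) (d := d) (lam := 1) (γ := 3 / 4) (s := s) (t := t - 3 / 4) (nn s d)
      (by linarith)
    refine le_trans (le_of_eq ?_) this
    ring
  constructor
  · intro J hJ p hp
    have hpr : (p : ℝ) ≤ 2 := by exact_mod_cast hp
    have hc : J = 0 ∨ J = 1 ∨ J = 2 ∨ (3 ≤ J ∧ J + 1 ≤ d) ∨ J = d ∨ J = d + 1 := by omega
    rcases hc with h | h | h | ⟨h, h'⟩ | h | h
    · rw [vl (by omega) (by omega), e2 (d := d) (by omega) (by omega)]
      refine le_trans ?_ (hlo ((d : ℝ) - 2) (by rw [h]; push_cast; linarith))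
      nlinarith
    · rw [vl (by omega) (by omega), e1 (d := d) (by omega) (by omega)]
      refine le_trans ?_ (hlo ((d : ℝ) - 3) (by rw [h]; push_cast; linarith))
      nlinarith
    · rw [vl (by omega) (by omega), e0 (d := d) (by omega) (by omega)]
      exact le_trans (by norm_num) (mid_k3 hd (by omega))
    · rw [vm (by omega) h h']
      exact le_trans (by norm_num) (mid_k3 hd (by omega))
    · rw [vr (by omega) (by omega), r0 (by omega) h]
      have hp' : p ≤ 1 ∨ p = 2 := by omega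
      rcases hp' with h1 | h1
      · exact le_trans (by norm_num) (mid_k3 hd (by omega))
      · refine le_trans ?_ (GD_2 (by omega))
        obtain ⟨y, hy, hxy⟩ : ∃ y : ℝ, 0 ≤ y ∧ (d : ℝ) = y + 7 := ⟨d - 7, by linarith, by ring⟩
        rw [hxy, ← sub_nonneg]
        ring_nf
        positivity
    · rw [vr (by omega) (by omega), r1 (by omega) h]
      have hp' : p = 0 ∨ p = 1 ∨ p = 2 := by omega
      rcases hp' with h1 | h1 | h1
      · refine le_trans ?_ (GD_1 (by omega))
        nlinarith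
      · refine le_trans ?_ (GD_2 (by omega))
        obtain ⟨y, hy, hxy⟩ : ∃ y : ℝ, 0 ≤ y ∧ (d : ℝ) = y + 7 := ⟨d - 7, by linarith, by ring⟩
        rw [hxy, ← sub_nonneg]
        ring_nf
        positivity
      · refine le_trans ?_ (GD_3 (by omega))
        obtain ⟨y, hy, hxy⟩ : ∃ y : ℝ, 0 ≤ y ∧ (d : ℝ) = y + 7 := ⟨d - 7, by linarith, by ring⟩
        rw [hxy, ← sub_nonneg]
        ring_nf
        positivity
  · intro J hJ
    have hc : J = 0 ∨ J = 1 ∨ J = 2 ∨ (3 ≤ J ∧ J + 3 ≤ d) ∨ J + 2 = d ∨ J + 1 = d := by omega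
    rcases hc with h | h | h | ⟨h, h'⟩ | h | h
    · have v0 : Vn (d + 3 - 2) (d - 1) (J + 0) = (d : ℝ) * (d + 1) / 2 := by
        rw [vl (by omega) (by omega)]; exact e2 (by omega) (by omega)
      have v1 : Vn (d + 3 - 2) (d - 1) (J + 1) = d := by
        rw [vl (by omega) (by omega)]; exact e1 (by omega) (by omega)
      have v2 : Vn (d + 3 - 2) (d - 1) (J + 2) = 1 := by
        rw [vl (by omega) (by omega)]; exact e0 (by omega) (by omega)
      refine five_V (τ := 1) (W := d) v0 v1 v2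
        (hlo (d : ℝ) (by rw [h]; push_cast; linarith))
        (hlo ((d : ℝ) - 1) (by rw [h]; push_cast; linarith))
        (hlo ((d : ℝ) - 2) (by rw [h]; push_cast; linarith))
        (hlo ((d : ℝ) - 3) (by rw [h]; push_cast; linarith))
        (hlo ((d : ℝ) - 4) (by rw [h]; push_cast; linarith)) one_pos
        (by norm_num) ?_ ?_ ?_ ?_ ?_
      all_goals nlinarith
    · have v0 : Vn (d + 3 - 2) (d - 1) (J + 0) = d := by
        rw [vl (by omega) (by omega)]; exact e1 (by omega) (by omega)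
      have v1 : Vn (d + 3 - 2) (d - 1) (J + 1) = 1 := by
        rw [vl (by omega) (by omega)]; exact e0 (by omega) (by omega)
      have v2 : Vn (d + 3 - 2) (d - 1) (J + 2) = 1 / 2 := vm (by omega) (by omega) (by omega)
      refine five_V (τ := 1) (W := 1) v0 v1 v2
        (hlo ((d : ℝ) - 1) (by rw [h]; push_cast; linarith))
        (hlo ((d : ℝ) - 2) (by rw [h]; push_cast; linarith))
        (hlo ((d : ℝ) - 3) (by rw [h]; push_cast; linarith))
        (hlo ((d : ℝ) - 4) (by rw [h]; push_cast; linarith))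
        (hlo ((d : ℝ) - 5) (by rw [h]; push_cast; linarith)) one_pos
        (by norm_num) ?_ ?_ ?_ ?_ ?_
      all_goals nlinarith
    · have v0 : Vn (d + 3 - 2) (d - 1) (J + 0) = 1 := by
        rw [vl (by omega) (by omega)]; exact e0 (by omega) (by omega)
      have v1 : Vn (d + 3 - 2) (d - 1) (J + 1) = 1 / 2 := vm (by omega) (by omega) (by omega)
      have v2 : Vn (d + 3 - 2) (d - 1) (J + 2) = 1 / 2 := vm (by omega) (by omega) (by omega)
      refine five_V (τ := 1) (W := 1 / 2) v0 v1 v2 (mid_k3 hd (by omega)) (mid_k3 hd (by omega))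
        (mid_k3 hd (by omega)) (mid_k3 hd (by omega)) (mid_k3 hd (by omega)) one_pos
        (by norm_num) ?_ ?_ ?_ ?_ ?_
      all_goals norm_num
    · have v0 : Vn (d + 3 - 2) (d - 1) (J + 0) = 1 / 2 := vm (by omega) (by omega) (by omega)
      have v1 : Vn (d + 3 - 2) (d - 1) (J + 1) = 1 / 2 := vm (by omega) (by omega) (by omega)
      have v2 : Vn (d + 3 - 2) (d - 1) (J + 2) = 1 / 2 := vm (by omega) (by omega) (by omega)
      refine five_V (τ := 1) (W := 1 / 2) v0 v1 v2 (mid_k3 hd (by omega)) (mid_k3 hd (by omega))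
        (mid_k3 hd (by omega)) (mid_k3 hd (by omega)) (mid_k3 hd (by omega)) one_pos
        (by norm_num) ?_ ?_ ?_ ?_ ?_
      all_goals norm_num
    · have v0 : Vn (d + 3 - 2) (d - 1) (J + 0) = 1 / 2 := vm (by omega) (by omega) (by omega)
      have v1 : Vn (d + 3 - 2) (d - 1) (J + 1) = 1 / 2 := vm (by omega) (by omega) (by omega)
      have v2 : Vn (d + 3 - 2) (d - 1) (J + 2) = 1 := by
        rw [vr (by omega) (by omega)]; exact r0 (by omega) (by omega)
      refine five_V (τ := 1) (W := 1 / 2) v0 v1 v2 (mid_k3 hd (by omega)) (mid_k3 hd (by omega))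
        (mid_k3 hd (by omega)) (mid_k3 hd (by omega)) (GD_2 (by omega)) one_pos
        (by norm_num) ?_ ?_ ?_ ?_ ?_
      · norm_num
      · norm_num
      · norm_num
      · norm_num
      · obtain ⟨y, hy, hxy⟩ : ∃ y : ℝ, 0 ≤ y ∧ (d : ℝ) = y + 7 := ⟨d - 7, by linarith, by ring⟩
        rw [hxy, ← sub_nonneg]
        ring_nf
        positivity
    · have v0 : Vn (d + 3 - 2) (d - 1) (J + 0) = 1 / 2 := vm (by omega) (by omega) (by omega)
      have v1 : Vn (d + 3 - 2) (d - 1) (J + 1) = 1 := by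
        rw [vr (by omega) (by omega)]; exact r0 (by omega) (by omega)
      have v2 : Vn (d + 3 - 2) (d - 1) (J + 2) = ((d : ℝ) + 1) / 2 := by
        rw [vr (by omega) (by omega)]; exact r1 (by omega) (by omega)
      refine five_V (τ := 1) (W := 1) v0 v1 v2 (mid_k3 hd (by omega)) (mid_k3 hd (by omega))
        (GD_1 (by omega)) (GD_2 (by omega)) (GD_3 (by omega)) one_pos
        (by norm_num) ?_ ?_ ?_ ?_ ?_
      · norm_num
      · norm_num
      all_goals
        obtain ⟨y, hy, hxy⟩ : ∃ y : ℝ, 0 ≤ y ∧ (d : ℝ) = y + 7 := ⟨d - 7, by linarith, by ring⟩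
        rw [hxy, ← sub_nonneg]
        ring_nf
        positivity

end Pool.Agent.HHalfC
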