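import Pool.Agent.HHalfC.CFinal
import Pool.Agent.HHalfC.CTwo

/-!
# Node lists with many nodes near an end point, `x` on the side of that end point, `k ≥ 2`
-/

set_option autoImplicit false

namespace Pool.Agent.HHalfC

open Complex Set Metric ComplexConjugate Polynomial MeasureTheory Pool.Agent.ConjInterp
  Pool.Agent.HHalf Pool.Agent.HHalfB

/-- The threshold (sum over the pairs) for `n = 2N` and the order `k`. -/
noncomputable def cth (N k : ℕ) : ℝ :=
  if k = 2 then (if N = 3 then 43 / 16 else 14 / 5)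
  else if k = 3 then (if N = 4 then 71 / 20 else 15 / 4)
  else if k = 4 then (if N = 5 then 89 / 20 else 9 / 2)
  else if N = k + 1 then k + 1 / 4 else k + 1 / 2

theorem good_cth {N k : ℕ} (hk : 2 ≤ k) (hkN : 2 * k + 2 ≤ 2 * N) :
    ∃ θ lam : ℝ, 0 ≤ θ ∧ θ ≤ 1 ∧ 0 ≤ lam ∧
      GoodV (2 * N) (2 * N - k) θ (Dl lam (2 * N - cth N k)) (Vn (2 * N - 2) (2 * N - k - 1)) := by
  have hcases : k = 2 ∨ k = 3 ∨ k = 4 ∨ 5 ≤ k := by omega
  rcases hcases with rfl | rfl | rfl | hk5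
  · rcases eq_or_ne N 3 with rfl | hN
    · refine ⟨1, 1, by norm_num, by norm_num, by norm_num, ?_⟩
      have e : (2 * ((3 : ℕ) : ℝ) - cth 3 2) = 4 - 11 / 16 := by
        rw [cth, if_pos rfl, if_pos rfl]; norm_num
      rw [e]
      exact good_6_2
    · obtain ⟨d, hd⟩ : ∃ d, 2 * N = d + 2 := ⟨2 * N - 2, by omega⟩
      have hdr : (2:ℝ) * N = (d : ℝ) + 2 := by exact_mod_cast hd
      refine ⟨1, 24 / 25, by norm_num, by norm_num, by norm_num, ?_⟩
      have e : (2 * (N : ℝ) - cth N 2) = (d : ℝ) - 4 / 5 := by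
        rw [cth, if_pos rfl, if_neg hN, hdr]; ring
      rw [e, hd, show d + 2 - 2 - 1 = d - 1 by omega, show d + 2 - 2 = d by omega]
      have := good_k2 (d := d) (by omega)
      rw [show d + 2 - 2 = d by omega] at this
      exact this
  · rcases eq_or_ne N 4 with rfl | hN
    · refine ⟨1, 13 / 10, by norm_num, by norm_num, by norm_num, ?_⟩
      have e : (2 * ((4 : ℕ) : ℝ) - cth 4 3) = 5 - 11 / 20 := by
        rw [cth, if_neg (by norm_num), if_pos rfl, if_pos rfl]; norm_num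
      rw [e]
      exact good_8_3
    · obtain ⟨d, hd⟩ : ∃ d, 2 * N = d + 3 := ⟨2 * N - 3, by omega⟩
      have hdr : (2:ℝ) * N = (d : ℝ) + 3 := by exact_mod_cast hd
      refine ⟨1, 1, by norm_num, by norm_num, by norm_num, ?_⟩
      have e : (2 * (N : ℝ) - cth N 3) = (d : ℝ) - 3 / 4 := by
        rw [cth, if_neg (by norm_num), if_pos rfl, if_neg hN, hdr]; ring
      rw [e, hd, show d + 3 - 3 - 1 = d - 1 by omega, show d + 3 - 3 = d by omega]
      exact good_k3 (d := d) (by omega)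
  · rcases eq_or_ne N 5 with rfl | hN
    · refine ⟨2 / 3, 1, by norm_num, by norm_num, by norm_num, ?_⟩
      have e : (2 * ((5 : ℕ) : ℝ) - cth 5 4) = 6 - 9 / 20 := by
        rw [cth, if_neg (by norm_num), if_neg (by norm_num), if_pos rfl, if_pos rfl]; norm_num
      rw [e]
      exact good_10_4
    · obtain ⟨d, hd⟩ : ∃ d, 2 * N = d + 4 := ⟨2 * N - 4, by omega⟩
      have hdr : (2:ℝ) * N = (d : ℝ) + 4 := by exact_mod_cast hd
      refine ⟨1 / 3, 1 / 3, by norm_num, by norm_num, by norm_num, ?_⟩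
      have e : (2 * (N : ℝ) - cth N 4) = (d : ℝ) - 1 / 2 := by
        rw [cth, if_neg (by norm_num), if_neg (by norm_num), if_pos rfl, if_neg hN, hdr]; ring
      rw [e, hd, show d + 4 - 4 - 1 = d - 1 by omega, show d + 4 - 4 = d by omega]
      exact (hd_B le_rfl (by omega)).good
  · obtain ⟨d, hd⟩ : ∃ d, 2 * N = d + k := ⟨2 * N - k, by omega⟩
    have hdr : (2:ℝ) * N = (d : ℝ) + k := by exact_mod_cast hd
    rcases eq_or_ne N (k + 1) with hN | hN
    · refine ⟨1 / 3, 1 / 2, by norm_num, by norm_num, by norm_num, ?_⟩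
      have e : (2 * (N : ℝ) - cth N k) = (d : ℝ) - 1 / 4 := by
        rw [cth, if_neg (by omega), if_neg (by omega), if_neg (by omega), if_pos hN, hdr]; ring
      rw [e, hd, show d + k - k - 1 = d - 1 by omega, show d + k - k = d by omega]
      exact (hd_A (by omega) (by omega)).good
    · refine ⟨1 / 3, 1 / 3, by norm_num, by norm_num, by norm_num, ?_⟩
      have e : (2 * (N : ℝ) - cth N k) = (d : ℝ) - 1 / 2 := by
        rw [cth, if_neg (by omega), if_neg (by omega), if_neg (by omega), if_neg hN, hdr]; ring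
      rw [e, hd, show d + k - k - 1 = d - 1 by omega, show d + k - k = d by omega]
      exact (hd_B (by omega) (by omega)).good

/-- Cluster side, all `k ≥ 2`. -/
theorem pointwise_cluster {N : ℕ} {L : Fin N → ℂ} (hL : ∀ a, ‖L a‖ ≤ 1) {k : ℕ}
    (hk : 2 ≤ k) (hkN : 2 * k + 2 ≤ 2 * N) {x : ℝ} (hx : x ∈ Icc (-1:ℝ) 1)
    (hS : (x ≤ 0 ∧ ∑ a, (1 + (L a).re) ≤ cth N k) ∨ (0 ≤ x ∧ ∑ a, (1 - (L a).re) ≤ cth N k))
    {h : ℂ → ℂ} (hh : Differentiable ℂ h)
    (hb : ∀ w, ‖w‖ ≤ 1 → ‖iteratedDeriv (2 * N) (fun w => (om (zL L)).eval w * h w) w‖ ≤ 1) :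
    ∃ y ∈ Icc (-1:ℝ) 1, ‖iteratedDeriv k (fun w => (om (zL L)).eval w * h w) (x:ℂ)‖ ≤
      (1 / ((2 * N).factorial : ℝ)) * ‖iteratedDeriv k (fun w => (om (zL L)).eval w) (y:ℂ)‖ := by
  obtain ⟨θ, lam, h0, h1, hlam, hG⟩ := good_cth hk hkN
  exact pointwise_side hL (by omega) hkN h0 h1 hlam hG hx hS hh hb

end Pool.Agent.HHalfC
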