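import Pool.Agent.HHalfC.CAll

/-!
# Explicit values of `H_m((X+1)^J (X-1)^(l-J))` and the case `(n,k) = (8,3)`
-/

set_option autoImplicit false

namespace Pool.Agent.HHalfC

open Complex Set Metric ComplexConjugate Polynomial MeasureTheory Pool.Agent.ConjInterp
  Pool.Agent.HHalf Pool.Agent.HHalfB

theorem hasse_bb_sum (l J m : ℕ) (t : ℝ) :
    (hasseDeriv m (bb ℝ l J)).eval t =
      ∑ i ∈ Finset.range (m + 1), ((t + 1) ^ (J - i) * (J.choose i : ℝ)) *
        ((t - 1) ^ (l - J - (m - i)) * ((l - J).choose (m - i) : ℝ)) := by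
  rw [← taylor_coeff]
  have e : taylor t (bb ℝ l J) = (X + C (t + 1)) ^ J * (X + C (t - 1)) ^ (l - J) := by
    have a1 : (X + C t + 1 : ℝ[X]) = X + C (t + 1) := by rw [C_add, C_1]; ring
    have a2 : (X + C t - 1 : ℝ[X]) = X + C (t - 1) := by rw [C_sub, C_1]; ring
    simp only [taylor_apply, bb, mul_comp, pow_comp, add_comp, sub_comp, X_comp, one_comp]
    rw [a1, a2]
  rw [e, coeff_mul, Finset.Nat.sum_antidiagonal_eq_sum_range_succ_mk]
  refine Finset.sum_congr rfl fun i _ => ?_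
  rw [coeff_X_add_C_pow, coeff_X_add_C_pow]

/-- Cluster side with an arbitrary `V` on an interval of `[-1,0]`. -/
theorem pointwise_sideV {N : ℕ} {L : Fin N → ℂ} (hL : ∀ a, ‖L a‖ ≤ 1) {k : ℕ}
    (hk1 : 1 ≤ k) (hkN : 2 * k + 2 ≤ 2 * N) {θ lam c : ℝ} (hθ0 : 0 ≤ θ) (hθ1 : θ ≤ 1)
    (hlam : 0 ≤ lam) {V : ℕ → ℝ} (hV0 : ∀ J, 0 ≤ V J)
    (hG : GoodV (2 * N) (2 * N - k) θ (Dl lam (2 * N - c)) V) {a b : ℝ}
    (hV : ∀ t ∈ Icc a b, ∀ j ≤ 2 * N - 2,
      |(hasseDeriv (k - 1) (bb ℝ (2 * N - 2) j)).eval t| ≤ 2 ^ (2 * N - 2 - (k - 1)) * V j)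
    {x : ℝ} (hx : x ∈ Icc (-1:ℝ) 1)
    (hS : (x ∈ Icc a b ∧ ∑ a, (1 + (L a).re) ≤ c) ∨ (-x ∈ Icc a b ∧ ∑ a, (1 - (L a).re) ≤ c))
    {h : ℂ → ℂ} (hh : Differentiable ℂ h)
    (hb : ∀ w, ‖w‖ ≤ 1 → ‖iteratedDeriv (2 * N) (fun w => (om (zL L)).eval w * h w) w‖ ≤ 1) :
    ∃ y ∈ Icc (-1:ℝ) 1, ‖iteratedDeriv k (fun w => (om (zL L)).eval w * h w) (x:ℂ)‖ ≤
      (1 / ((2 * N).factorial : ℝ)) * ‖iteratedDeriv k (fun w => (om (zL L)).eval w) (y:ℂ)‖ := by
  rcases hS with ⟨hx0, hS⟩ | ⟨hx0, hS⟩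
  · rw [Finset.sum_add_distrib] at hS
    simp only [Finset.sum_const, Finset.card_univ, Fintype.card_fin, nsmul_eq_mul, mul_one] at hS
    refine pointwiseV hL (by omega) hk1 (by omega) hθ0 hθ1 hV0 hG
      ⟨lam * (2 * N - c), -lam, fun s _ => by unfold Dl; ring, ?_⟩ hh hb hx ?_
    · have : lam * (2 * N - c) + -lam * (N - ∑ a, (L a).re) =
          lam * ((N + ∑ a, (L a).re) - c) := by ring
      rw [this]
      exact mul_nonpos_of_nonneg_of_nonpos hlam (by linarith)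
    · intro j hj
      rw [hasse_bb_ofReal, Complex.norm_real, Real.norm_eq_abs]
      exact hV x hx0 j hj
  · rw [Finset.sum_sub_distrib] at hS
    simp only [Finset.sum_const, Finset.card_univ, Fintype.card_fin, nsmul_eq_mul, mul_one] at hS
    have hG' := hG.refl (by omega)
    refine pointwiseV hL (by omega) hk1 (by omega) (by linarith) (by linarith)
      (fun j => hV0 _) hG'
      ⟨lam * (2 * N - c) - lam * (2 * N), lam, fun s hs => ?_, ?_⟩ hh hb hx ?_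
    · show Dl lam (2 * N - c) (2 * N - s) = _
      unfold Dl
      rw [Nat.cast_sub hs]
      push_cast
      ring
    · have : lam * (2 * N - c) - lam * (2 * N) + lam * (N - ∑ a, (L a).re) =
        lam * ((N - ∑ a, (L a).re) - c) := by ring
      rw [this]
      exact mul_nonpos_of_nonneg_of_nonpos hlam (by linarith)
    · intro j hj
      have h1 := hV (-x) hx0 (2 * N - 2 - j) (by omega)
      have h2 := hasse_refl (k - 1) (2 * N - 2) (2 * N - 2 - j) (by omega) x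
      have e : 2 * N - 2 - (2 * N - 2 - j) = j := by omega
      rw [e] at h2
      rw [h2] at h1
      rw [hasse_bb_ofReal, Complex.norm_real, Real.norm_eq_abs]
      exact h1

/-- Bounds for `(8,3)`, `-4/5 ≤ t ≤ 0`. -/
noncomputable def VA : ℕ → ℝ
  | 0 => 985 / 100
  | 1 => 256 / 100
  | 2 => 35 / 100
  | 3 => 1 / 5
  | 4 => 3 / 20
  | 5 => 8 / 25
  | _ => 47 / 50

/-- Bounds for `(8,3)`, `-1 ≤ t ≤ -4/5`. -/
noncomputable def VB : ℕ → ℝ
  | 0 => 15
  | 1 => 5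
  | 2 => 1
  | 3 => 3 / 20
  | 4 => 3 / 50
  | _ => 1 / 100

theorem VA_nonneg (J : ℕ) : 0 ≤ VA J := by
  unfold VA; split <;> norm_num

theorem VB_nonneg (J : ℕ) : 0 ≤ VB J := by
  unfold VB; split <;> norm_num

theorem goodA : GoodV 8 5 1 (Dl (11 / 10) (5 - 83 / 100)) VA := by
  constructor
  · intro J hJ p hp
    have hJ' : J ≤ 6 := hJ
    interval_cases J <;> interval_cases p <;>
      norm_num [VA, Gf, Dl, Nat.choose]
  · intro J hJ
    have hJ' : J ≤ 4 := by omega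
    interval_cases J
    · refine ⟨5, ?_⟩
      unfold Five
      norm_num [VA, Gf, Dl, Nat.choose]
    · refine ⟨2, ?_⟩
      unfold Five
      norm_num [VA, Gf, Dl, Nat.choose]
    all_goals
      refine ⟨1, ?_⟩
      unfold Five
      norm_num [VA, Gf, Dl, Nat.choose]

theorem goodB : GoodV 8 5 1 (Dl (10 / 7) (5 - 16 / 25)) VB := by
  constructor
  · intro J hJ p hp
    have hJ' : J ≤ 6 := hJ
    interval_cases J <;> interval_cases p <;>
      norm_num [VB, Gf, Dl, Nat.choose]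
  · intro J hJ
    have hJ' : J ≤ 4 := by omega
    interval_cases J
    · refine ⟨16 / 5, ?_⟩
      unfold Five
      norm_num [VB, Gf, Dl, Nat.choose]
    · refine ⟨4, ?_⟩
      unfold Five
      norm_num [VB, Gf, Dl, Nat.choose]
    all_goals
      refine ⟨1, ?_⟩
      unfold Five
      norm_num [VB, Gf, Dl, Nat.choose]

theorem val0 (u : ℝ) : (hasseDeriv 2 (bb ℝ 6 0)).eval (2 * u - 1) = 16 * (15 * (1 - u) ^ 4) := by
  rw [hasse_bb_sum]; simp only [Finset.sum_range_succ, Finset.sum_range_zero]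
  norm_num [Nat.choose]; ring

theorem val1 (u : ℝ) : (hasseDeriv 2 (bb ℝ 6 1)).eval (2 * u - 1) =
    16 * ((1 - u) ^ 3 * (5 - 15 * u)) := by
  rw [hasse_bb_sum]; simp only [Finset.sum_range_succ, Finset.sum_range_zero]
  norm_num [Nat.choose]; ring

theorem val2 (u : ℝ) : (hasseDeriv 2 (bb ℝ 6 2)).eval (2 * u - 1) =
    16 * ((1 - u) ^ 2 * (15 * u ^ 2 - 10 * u + 1)) := by
  rw [hasse_bb_sum]; simp only [Finset.sum_range_succ, Finset.sum_range_zero]
  norm_num [Nat.choose]; ring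

theorem val3 (u : ℝ) : (hasseDeriv 2 (bb ℝ 6 3)).eval (2 * u - 1) =
    16 * (-(3 * (u * (1 - u)) * (1 - 5 * (u * (1 - u))))) := by
  rw [hasse_bb_sum]; simp only [Finset.sum_range_succ, Finset.sum_range_zero]
  norm_num [Nat.choose]; ring

theorem val4 (u : ℝ) : (hasseDeriv 2 (bb ℝ 6 4)).eval (2 * u - 1) =
    16 * (u ^ 2 * (15 * u ^ 2 - 20 * u + 6)) := by
  rw [hasse_bb_sum]; simp only [Finset.sum_range_succ, Finset.sum_range_zero]
  norm_num [Nat.choose]; ring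

theorem val5 (u : ℝ) : (hasseDeriv 2 (bb ℝ 6 5)).eval (2 * u - 1) =
    16 * (u ^ 3 * (15 * u - 10)) := by
  rw [hasse_bb_sum]; simp only [Finset.sum_range_succ, Finset.sum_range_zero]
  norm_num [Nat.choose]; ring

theorem val6 (u : ℝ) : (hasseDeriv 2 (bb ℝ 6 6)).eval (2 * u - 1) = 16 * (15 * u ^ 4) := by
  rw [hasse_bb_sum]; simp only [Finset.sum_range_succ, Finset.sum_range_zero]
  norm_num [Nat.choose]; ring

end Pool.Agent.HHalfC
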