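import Pool.Agent.HHalfC.COppL
import Pool.Agent.HHalfC.CEx

/-!
# Node lists with many nodes near an end point, `x` on the OTHER side, `k ≥ 4`
-/

set_option autoImplicit false

namespace Pool.Agent.HHalfC

open Complex Set Metric ComplexConjugate Polynomial MeasureTheory Pool.Agent.ConjInterp
  Pool.Agent.HHalf Pool.Agent.HHalfB

/-- `k ≥ 4`, `n = 2N ≥ 2k + 2`: the threshold is `2k - 1/2` (sum over the nodes) for the
side opposite to `x`. -/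
theorem pointwise_opp {N : ℕ} {L : Fin N → ℂ} (hL : ∀ a, ‖L a‖ ≤ 1) {k : ℕ}
    (hk : 4 ≤ k) (hkN : 2 * k + 2 ≤ 2 * N) {x : ℝ} (hx : x ∈ Icc (-1:ℝ) 1)
    (hS : (0 ≤ x ∧ ∑ a, (1 + (L a).re) ≤ k - 1 / 4) ∨ (x ≤ 0 ∧ ∑ a, (1 - (L a).re) ≤ k - 1 / 4))
    {h : ℂ → ℂ} (hh : Differentiable ℂ h)
    (hb : ∀ w, ‖w‖ ≤ 1 → ‖iteratedDeriv (2 * N) (fun w => (om (zL L)).eval w * h w) w‖ ≤ 1) :
    ∃ y ∈ Icc (-1:ℝ) 1, ‖iteratedDeriv k (fun w => (om (zL L)).eval w * h w) (x:ℂ)‖ ≤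
      (1 / ((2 * N).factorial : ℝ)) * ‖iteratedDeriv k (fun w => (om (zL L)).eval w) (y:ℂ)‖ := by
  obtain ⟨d, hd⟩ : ∃ d, 2 * N = d + k := ⟨2 * N - k, by omega⟩
  have hdr : (2:ℝ) * N = (d : ℝ) + k := by exact_mod_cast hd
  have hS' : (x ∈ Icc (0:ℝ) 1 ∧ ∑ a, (1 + (L a).re) ≤ k - 1 / 4) ∨
      (-x ∈ Icc (0:ℝ) 1 ∧ ∑ a, (1 - (L a).re) ≤ k - 1 / 4) := by
    rcases hS with ⟨h1, h2⟩ | ⟨h1, h2⟩
    · exact Or.inl ⟨⟨h1, hx.2⟩, h2⟩
    · exact Or.inr ⟨⟨by linarith, by linarith [hx.1]⟩, h2⟩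
  refine pointwise_sideV hL (by omega) (by omega) (θ := 9 / 10) (lam := (d : ℝ) / 3)
    (c := k - 1 / 4) (V := Vo (2 * N - 2) (2 * N - k - 1))
    (by norm_num) (by norm_num) (by positivity) (fun j => vn_nonneg _ _ _) ?_ (a := 0) (b := 1) ?_
    hx hS' hh hb
  · have e : Dl ((d : ℝ) / 3) (2 * N - (k - 1 / 4)) = Dl ((d : ℝ) / 3) ((d : ℝ) + 1 / 4) := by
      rw [hdr]; congr 1; ring
    rw [e, hd, show d + k - k = d by omega]
    exact good_opp hk (by omega)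
  · intro t ht j hj
    have hle : 2 * N - 2 - (k - 1) = 2 * N - k - 1 := by omega
    have h1 := bb_neg (l := 2 * N - 2) (J := 2 * N - 2 - j) (m := k - 1) (by omega) (by omega)
      (x := -t) ⟨by linarith [ht.2], by linarith [ht.1]⟩
    have h2 := hasse_refl (k - 1) (2 * N - 2) (2 * N - 2 - j) (by omega) t
    have e : 2 * N - 2 - (2 * N - 2 - j) = j := by omega
    rw [e] at h2
    rw [hasse_bb_ofReal, Complex.norm_real, Real.norm_eq_abs, h2, hle] at h1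
    rw [hle]
    exact h1

end Pool.Agent.HHalfC
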