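import Pool.Agent.HHalfC.CR

/-!
# Node lists with many nodes near an end point, `x` on the side of that end point, `k ≥ 4`
-/

set_option autoImplicit false

namespace Pool.Agent.HHalfC

open Complex Set Metric ComplexConjugate Polynomial MeasureTheory Pool.Agent.ConjInterp
  Pool.Agent.HHalf Pool.Agent.HHalfB

/-- `k ≥ 4`, `n = 2N ≥ 2k + 4`: the threshold is `2k + 1` (sum over the nodes). -/
theorem cluster_B {N : ℕ} {L : Fin N → ℂ} (hL : ∀ a, ‖L a‖ ≤ 1) {k : ℕ}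
    (hk : 4 ≤ k) (hkN : 2 * k + 4 ≤ 2 * N) {x : ℝ} (hx : x ∈ Icc (-1:ℝ) 1)
    (hS : (x ≤ 0 ∧ ∑ a, (1 + (L a).re) ≤ k + 1 / 2) ∨ (0 ≤ x ∧ ∑ a, (1 - (L a).re) ≤ k + 1 / 2))
    {h : ℂ → ℂ} (hh : Differentiable ℂ h)
    (hb : ∀ w, ‖w‖ ≤ 1 → ‖iteratedDeriv (2 * N) (fun w => (om (zL L)).eval w * h w) w‖ ≤ 1) :
    ∃ y ∈ Icc (-1:ℝ) 1, ‖iteratedDeriv k (fun w => (om (zL L)).eval w * h w) (x:ℂ)‖ ≤
      (1 / ((2 * N).factorial : ℝ)) * ‖iteratedDeriv k (fun w => (om (zL L)).eval w) (y:ℂ)‖ := by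
  obtain ⟨d, hd⟩ : ∃ d, 2 * N = d + k := ⟨2 * N - k, by omega⟩
  have hdr : (2:ℝ) * N = (d : ℝ) + k := by exact_mod_cast hd
  refine pointwise_side hL (by omega) (by omega) (θ := 1 / 3) (lam := 1 / 3) (c := k + 1 / 2)
    (by norm_num) (by norm_num) (by norm_num) ?_ hx hS hh hb
  have e : Dl (1 / 3) (2 * N - (k + 1 / 2)) = Dl (1 / 3) ((d : ℝ) - 1 / 2) := by
    rw [hdr]; congr 1; ring
  rw [e, hd, show d + k - k = d by omega]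
  exact (hd_B hk (by omega)).good

/-- `k ≥ 4`, `n = 2N = 2k + 2`: the threshold is `2k + 1/2` (sum over the nodes). -/
theorem cluster_A {N : ℕ} {L : Fin N → ℂ} (hL : ∀ a, ‖L a‖ ≤ 1) {k : ℕ}
    (hk : 4 ≤ k) (hkN : 2 * k + 2 = 2 * N) {x : ℝ} (hx : x ∈ Icc (-1:ℝ) 1)
    (hS : (x ≤ 0 ∧ ∑ a, (1 + (L a).re) ≤ k + 1 / 4) ∨ (0 ≤ x ∧ ∑ a, (1 - (L a).re) ≤ k + 1 / 4))
    {h : ℂ → ℂ} (hh : Differentiable ℂ h)
    (hb : ∀ w, ‖w‖ ≤ 1 → ‖iteratedDeriv (2 * N) (fun w => (om (zL L)).eval w * h w) w‖ ≤ 1) :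
    ∃ y ∈ Icc (-1:ℝ) 1, ‖iteratedDeriv k (fun w => (om (zL L)).eval w * h w) (x:ℂ)‖ ≤
      (1 / ((2 * N).factorial : ℝ)) * ‖iteratedDeriv k (fun w => (om (zL L)).eval w) (y:ℂ)‖ := by
  obtain ⟨d, hd⟩ : ∃ d, 2 * N = d + k := ⟨2 * N - k, by omega⟩
  have hdr : (2:ℝ) * N = (d : ℝ) + k := by exact_mod_cast hd
  refine pointwise_side hL (by omega) (by omega) (θ := 1 / 3) (lam := 1 / 2) (c := k + 1 / 4)
    (by norm_num) (by norm_num) (by norm_num) ?_ hx hS hh hb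
  have e : Dl (1 / 2) (2 * N - (k + 1 / 4)) = Dl (1 / 2) ((d : ℝ) - 1 / 4) := by
    rw [hdr]; congr 1; ring
  rw [e, hd, show d + k - k = d by omega]
  exact (hd_A hk (by omega)).good

end Pool.Agent.HHalfC
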