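import Pool.Agent.HHalfB.BVals

/-!
# Bound of `H_m((X+1)^J (X-1)^(l-J))` on `[-1,0]`
-/

set_option autoImplicit false

namespace Pool.Agent.HHalfC

open Polynomial Set Pool.Agent.HHalf Pool.Agent.HHalfB

/-- The rotation formula. -/
theorem rot_formula {l J m : ℕ} {x c s : ℝ} (hc2 : c ^ 2 = (1 + x) / 2)
    (hs2 : s ^ 2 = (1 - x) / 2) :
    (2 * c * s) ^ m * (hasseDeriv m (bb ℝ l J)).eval x =
      (2 * c) ^ J * (2 * s) ^ (l - J) * (rot c s l J).coeff m := by
  rw [← taylor_coeff]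
  have e : (taylor x (bb ℝ l J)).comp (C (2 * c * s) * X) =
      C ((2 * c) ^ J * (2 * s) ^ (l - J)) * rot c s l J := by
    have a1 : (C x + 1 : ℝ[X]) = C (2 * c ^ 2) := by
      rw [← C_1, ← C_add, hc2]; congr 1; ring
    have a2 : (C x - 1 : ℝ[X]) = -C (2 * s ^ 2) := by
      rw [← C_1, ← C_sub, hs2, ← C_neg]; congr 1; ring
    have b1 : (C (2 * c * s) * X + C x + 1 : ℝ[X]) = C (2 * c) * (C c + C s * X) := by
      rw [add_assoc, a1]
      simp only [C_mul, C_pow]
      ring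
    have b2 : (C (2 * c * s) * X + C x - 1 : ℝ[X]) = C (2 * s) * (C c * X - C s) := by
      rw [add_sub_assoc, a2]
      simp only [C_mul, C_pow]
      ring
    simp only [taylor_apply, bb, rot, mul_comp, pow_comp, add_comp, sub_comp, X_comp, one_comp,
      C_comp]
    rw [b1, b2, mul_pow (C (2 * c)), mul_pow (C (2 * s)), C_mul (a := (2 * c) ^ J), C_pow, C_pow]
    ring
  have e2 := congrArg (fun q : ℝ[X] => q.coeff m) e
  simp only [comp_C_mul_X_coeff, coeff_C_mul] at e2
  linarith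

/-- At `-1` the value is `0` for `J > m`. -/
theorem zero_neg_one {l J m : ℕ} (hJ : J ≤ l) (hm : m ≤ l) (hmJ : m < J) :
    (hasseDeriv m (bb ℝ l J)).eval (-1) = 0 := by
  rw [bb_neg_one ℝ hJ hm, Nat.choose_eq_zero_of_lt (by omega)]
  simp

/-- The middle case on `[-1,0]`. -/
theorem mid_neg {l J m : ℕ} (hJ : J ≤ l) (hm : m < J) (hJm : J + m ≤ l) (hl : 2 * m + 2 ≤ l)
    {x : ℝ} (hx : x ∈ Icc (-1:ℝ) 0) :
    |(hasseDeriv m (bb ℝ l J)).eval x| ≤ 2 ^ (l - m) * (1 / 2) := by
  have hml : m ≤ l := by omega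
  rcases eq_or_lt_of_le hx.1 with h2 | h2
  · rw [← h2, zero_neg_one hJ hml hm, abs_zero]
    positivity
  have hx0 := hx.2
  set c := Real.sqrt ((1 + x) / 2) with hc
  set s := Real.sqrt ((1 - x) / 2) with hs
  have hc2 : c ^ 2 = (1 + x) / 2 := Real.sq_sqrt (by linarith)
  have hs2 : s ^ 2 = (1 - x) / 2 := Real.sq_sqrt (by linarith)
  have hcp : 0 < c := Real.sqrt_pos.2 (by linarith)
  have hsp : 0 < s := Real.sqrt_pos.2 (by linarith)
  have hcs : c ^ 2 + s ^ 2 = 1 := by rw [hc2, hs2]; ring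
  have hc1 : c ≤ 1 := by nlinarith [sq_nonneg s]
  have hs1 : s ≤ 1 := by nlinarith [sq_nonneg c]
  have hch : (l.choose m : ℝ) ≤ (l.choose J : ℝ) := by
    have : l.choose m ≤ l.choose J := by
      rcases le_or_gt J (l / 2) with h3 | h3
      · exact choose_half hm.le h3
      · rw [← Nat.choose_symm hJ]
        exact choose_half (by omega) (by omega)
    exact_mod_cast this
  have hb := rot_bound hcs hJ hml
  have hD : |(rot c s l J).coeff m| ≤ 1 := by
    have p1 : (0:ℝ) < (l.choose J : ℝ) := by exact_mod_cast Nat.choose_pos hJ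
    have h3 : (l.choose J : ℝ) * (rot c s l J).coeff m ^ 2 ≤ (l.choose J : ℝ) * 1 := by
      rw [mul_one]; exact hb.trans hch
    have h4 := le_of_mul_le_mul_left h3 p1
    exact (sq_le_one_iff_abs_le_one _).1 h4
  have hpow : c ^ (J - m) * s ^ (l - J - m) ≤ 1 / 2 := by
    have hcs2 : c * s ≤ 1 / 2 := by nlinarith [sq_nonneg (c - s)]
    have hcc : c ^ 2 ≤ 1 / 2 := by rw [hc2]; linarith
    rcases Nat.eq_zero_or_pos (l - J - m) with h3 | h3
    · rw [h3, pow_zero, mul_one]
      refine le_trans ?_ hcc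
      exact pow_le_pow_of_le_one hcp.le hc1 (by omega)
    · have p1 : c ^ (J - m) ≤ c ^ 1 := pow_le_pow_of_le_one hcp.le hc1 (by omega)
      have p2 : s ^ (l - J - m) ≤ s ^ 1 := pow_le_pow_of_le_one hsp.le hs1 (by omega)
      calc c ^ (J - m) * s ^ (l - J - m) ≤ c ^ 1 * s ^ 1 :=
            mul_le_mul p1 p2 (by positivity) (by positivity)
        _ = c * s := by ring
        _ ≤ _ := hcs2
  have hcoef := rot_formula (l := l) (J := J) (m := m) hc2 hs2
  have hpos : 0 < (2 * c * s) ^ m := by positivity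
  have h5 : (2 * c * s) ^ m * |(hasseDeriv m (bb ℝ l J)).eval x| ≤
      (2 * c * s) ^ m * (2 ^ (l - m) * (1 / 2)) := by
    have e3 : (2 * c * s) ^ m * |(hasseDeriv m (bb ℝ l J)).eval x| =
        (2 * c) ^ J * (2 * s) ^ (l - J) * |(rot c s l J).coeff m| := by
      have := congrArg abs hcoef
      have hq : 0 < (2 * c) ^ J * (2 * s) ^ (l - J) := by positivity
      rw [abs_mul, abs_mul _ ((rot c s l J).coeff m), abs_of_pos hpos, abs_of_pos hq] at this
      exact this
    rw [e3]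
    have e4 : (2 * c) ^ J * (2 * s) ^ (l - J) =
        (2 * c * s) ^ m * 2 ^ (l - m) * (c ^ (J - m) * s ^ (l - J - m)) := by
      obtain ⟨a, ha⟩ : ∃ a, J = m + a := ⟨J - m, by omega⟩
      obtain ⟨b, hb'⟩ : ∃ b, l = m + a + (m + b) := ⟨l - J - m, by omega⟩
      have f1 : l - J = m + b := by omega
      have f2 : J - m = a := by omega
      have f3 : l - J - m = b := by omega
      have f4 : l - m = a + (m + b) := by omega
      rw [f3, f1, f2, f4, ha]
      simp only [mul_pow, pow_add]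
      ring
    rw [e4]
    have p4 : 0 ≤ (2 * c * s) ^ m * 2 ^ (l - m) := by positivity
    have p5 : 0 ≤ c ^ (J - m) * s ^ (l - J - m) := by positivity
    have p3 : c ^ (J - m) * s ^ (l - J - m) * |(rot c s l J).coeff m| ≤ 1 / 2 := by
      calc _ ≤ c ^ (J - m) * s ^ (l - J - m) * 1 := mul_le_mul_of_nonneg_left hD p5
        _ ≤ _ := by rw [mul_one]; exact hpow
    calc (2 * c * s) ^ m * 2 ^ (l - m) * (c ^ (J - m) * s ^ (l - J - m)) *
          |(rot c s l J).coeff m|
        = (2 * c * s) ^ m * 2 ^ (l - m) *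
          (c ^ (J - m) * s ^ (l - J - m) * |(rot c s l J).coeff m|) := by ring
      _ ≤ (2 * c * s) ^ m * 2 ^ (l - m) * (1 / 2) := mul_le_mul_of_nonneg_left p3 p4
      _ = _ := by ring
  exact le_of_mul_le_mul_left h5 hpos

/-- A binomial inequality. -/
theorem comb_ineq {m w i : ℕ} (hw : 2 ≤ w) (hi : 1 ≤ i) (him : i ≤ m) :
    (m + w + 1) ^ 2 ≤ 2 ^ w * (m.choose i * (m + w + i).choose (m + w)) := by
  have hpw : w + 2 ≤ 2 ^ w := by
    clear hi him
    induction w, hw using Nat.le_induction with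
    | base => norm_num
    | succ w h ih => rw [pow_succ]; omega
  have hJ1 : m + w + 1 ≤ (m + w + i).choose (m + w) := by
    have h1 : (m + w + 1).choose (m + w) = m + w + 1 := Nat.choose_succ_self_right _
    rw [← h1]
    exact (Nat.choose_le_choose _ (by omega : m + w + 1 ≤ m + w + i))
  rcases eq_or_lt_of_le him with h | h
  · subst h
    rw [Nat.choose_self, one_mul]
    rcases eq_or_lt_of_le hi with h1 | h1
    · subst h1
      calc (1 + w + 1) ^ 2 = (w + 2) * (1 + w + 1) := by ring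
        _ ≤ 2 ^ w * (1 + w + 1).choose (1 + w) := Nat.mul_le_mul hpw hJ1
    · have h2 : (i + w + 2).choose (i + w) ≤ (i + w + i).choose (i + w) :=
        Nat.choose_le_choose _ (by omega)
      have h3 : 2 * (i + w + 2).choose (i + w) = (i + w + 1) * (i + w + 2) := by
        have h4 : (i + w + 2).choose (i + w) = (i + w + 2).choose 2 := by
          rw [← Nat.choose_symm (show 2 ≤ i + w + 2 by omega)]
          rfl
        rw [h4, Nat.choose_two_right]
        have h5 : i + w + 2 - 1 = i + w + 1 := by omega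
        rw [h5]
        have h6 : 2 ∣ (i + w + 2) * (i + w + 1) := by
          have := Nat.even_mul_succ_self (i + w + 1)
          rw [mul_comm]
          exact this.two_dvd
        rw [Nat.mul_div_cancel' h6, mul_comm]
      have h4 : 4 ≤ 2 ^ w := by omega
      calc (i + w + 1) ^ 2 ≤ 2 * ((i + w + 1) * (i + w + 2)) := by nlinarith
        _ = 4 * (i + w + 2).choose (i + w) := by rw [← h3]; ring
        _ ≤ 2 ^ w * (i + w + i).choose (i + w) := Nat.mul_le_mul h4 h2
  · have h1 : m ≤ m.choose i := by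
      have h2 : m.choose 1 ≤ m.choose i := by
        rcases le_or_gt i (m / 2) with h3 | h3
        · exact choose_half hi h3
        · rw [← Nat.choose_symm him]
          exact choose_half (by omega) (by omega)
      rwa [Nat.choose_one_right] at h2
    have h2 : m + w + 1 ≤ 2 ^ w * m.choose i := by
      calc m + w + 1 ≤ (w + 2) * m := by nlinarith
        _ ≤ 2 ^ w * m.choose i := Nat.mul_le_mul hpw h1
    calc (m + w + 1) ^ 2 = (m + w + 1) * (m + w + 1) := by ring
      _ ≤ (2 ^ w * m.choose i) * (m + w + i).choose (m + w) := Nat.mul_le_mul h2 hJ1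
      _ = _ := by ring

/-- The right case on `[-1,0]`. -/
theorem right_neg {l J m : ℕ} (hJ : J ≤ l) (hJm : l < J + m) (hl : 2 * m + 2 ≤ l)
    {x : ℝ} (hx : x ∈ Icc (-1:ℝ) 0) :
    |(hasseDeriv m (bb ℝ l J)).eval x| ≤
      2 ^ (l - m) * ((J.choose (l - m) : ℝ) / (((l - m : ℕ) : ℝ) + 1)) := by
  have hml : m ≤ l := by omega
  rcases eq_or_lt_of_le hx.1 with h2 | h2
  · rw [← h2, zero_neg_one hJ hml (by omega), abs_zero]
    positivity
  have hx0 := hx.2
  set c := Real.sqrt ((1 + x) / 2) with hc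
  set s := Real.sqrt ((1 - x) / 2) with hs
  have hc2 : c ^ 2 = (1 + x) / 2 := Real.sq_sqrt (by linarith)
  have hs2 : s ^ 2 = (1 - x) / 2 := Real.sq_sqrt (by linarith)
  have hcp : 0 < c := Real.sqrt_pos.2 (by linarith)
  have hsp : 0 < s := Real.sqrt_pos.2 (by linarith)
  have hcs : c ^ 2 + s ^ 2 = 1 := by rw [hc2, hs2]; ring
  have hcles : c ≤ s := Real.sqrt_le_sqrt (by linarith)
  have hb := rot_bound hcs hJ hml
  have hcoef := rot_formula (l := l) (J := J) (m := m) hc2 hs2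
  set H := (hasseDeriv m (bb ℝ l J)).eval x with hH
  set Y := (rot c s l J).coeff m with hY
  obtain ⟨w, hw⟩ : ∃ w, l = 2 * m + w := ⟨l - 2 * m, by omega⟩
  obtain ⟨i, hi⟩ : ∃ i, J = m + w + i := ⟨J - (m + w), by omega⟩
  have hi1 : 1 ≤ i := by omega
  have him : i ≤ m := by omega
  have hw2 : 2 ≤ w := by omega
  have f1 : l - J = m - i := by omega
  have f2 : l - m = m + w := by omega
  -- `s^i H = 2^(m+w) c^(w+i) Y`
  have h3 : s ^ i * H = 2 ^ (m + w) * c ^ (w + i) * Y := by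
    have hpos : (2 * c * s) ^ m ≠ 0 := by positivity
    have h4 : (2 * c * s) ^ m * (s ^ i * H) = (2 * c * s) ^ m * (2 ^ (m + w) * c ^ (w + i) * Y) := by
      have h5 : (2 * c * s) ^ m * (s ^ i * H) = s ^ i * ((2 * c * s) ^ m * H) := by ring
      rw [h5, hcoef, f1, hi]
      obtain ⟨q, hq⟩ : ∃ q, m = i + q := ⟨m - i, by omega⟩
      have f3 : m - i = q := by omega
      rw [f3, hq]
      simp only [mul_pow, pow_add]
      ring
    exact mul_left_cancel₀ hpos h4
  -- square
  have h4 : s ^ i * |H| = 2 ^ (m + w) * c ^ (w + i) * |Y| := by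
    have := congrArg abs h3
    rw [abs_mul, abs_mul _ Y, abs_of_pos (by positivity : 0 < s ^ i),
      abs_of_pos (by positivity : 0 < 2 ^ (m + w) * c ^ (w + i))] at this
    exact this
  have h5 : |H| ≤ 2 ^ (m + w) * c ^ w * |Y| := by
    have h6 : c ^ i ≤ s ^ i := pow_le_pow_left₀ hcp.le hcles i
    have h7 : s ^ i * |H| ≤ s ^ i * (2 ^ (m + w) * c ^ w * |Y|) := by
      rw [h4, pow_add c w i]
      have h8 : 0 ≤ 2 ^ (m + w) * c ^ w * |Y| := by positivity
      calc 2 ^ (m + w) * (c ^ w * c ^ i) * |Y| = c ^ i * (2 ^ (m + w) * c ^ w * |Y|) := by ring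
        _ ≤ _ := mul_le_mul_of_nonneg_right h6 h8
    exact le_of_mul_le_mul_left h7 (by positivity)
  refine h5.trans ?_
  rw [f2, mul_assoc]
  refine mul_le_mul_of_nonneg_left ?_ (by positivity)
  -- `c^w |Y| ≤ C(J, m+w)/(m+w+1)`
  have hd : (0:ℝ) < ((m + w : ℕ) : ℝ) + 1 := by positivity
  have hsq : (c ^ w * |Y|) ^ 2 ≤ ((J.choose (m + w) : ℝ) / (((m + w : ℕ) : ℝ) + 1)) ^ 2 := by
    rw [div_pow, le_div_iff₀ (by positivity)]
    have hcw : (c ^ w) ^ 2 * 2 ^ w ≤ 1 := by
      rw [← pow_mul, mul_comm w 2, pow_mul, ← mul_pow]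
      refine pow_le_one₀ (by positivity) ?_
      rw [hc2]; linarith
    have hlJ : (0:ℝ) < (l.choose J : ℝ) := by exact_mod_cast Nat.choose_pos hJ
    have h2w : (0:ℝ) < 2 ^ w := by positivity
    have hlm : (0:ℝ) < (l.choose m : ℝ) := by exact_mod_cast Nat.choose_pos hml
    -- the binomial inequality
    have hcomb : (((m + w : ℕ) : ℝ) + 1) ^ 2 * (l.choose m : ℝ) ≤
        2 ^ w * ((l.choose J : ℝ) * (J.choose (m + w) : ℝ) ^ 2) := by
      have h6 := comb_ineq hw2 hi1 him
      have h7 := Nat.choose_mul (n := l) (k := J) (s := m + w) (by omega)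
      have e1 : l - (m + w) = m := by omega
      have e2 : J - (m + w) = i := by omega
      rw [e1, e2] at h7
      have e3 : l.choose (m + w) = l.choose m := by
        rw [← Nat.choose_symm hml]
        congr 1
        omega
      rw [e3] at h7
      have h8 : (m + w + 1) ^ 2 * l.choose m ≤ 2 ^ w * (l.choose J * J.choose (m + w) ^ 2) := by
        calc (m + w + 1) ^ 2 * l.choose m
            ≤ (2 ^ w * (m.choose i * (m + w + i).choose (m + w))) * l.choose m :=
              Nat.mul_le_mul_right _ h6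
          _ = 2 ^ w * ((l.choose m * m.choose i) * J.choose (m + w)) := by
              rw [hi]; ring
          _ = 2 ^ w * (l.choose J * J.choose (m + w) ^ 2) := by
              rw [← h7]; ring
      exact_mod_cast h8
    have hY2 : |Y| ^ 2 = Y ^ 2 := sq_abs Y
    rw [mul_pow, hY2]
    -- multiply by `C(l,J) 2^w`
    have h9 : (l.choose J : ℝ) * 2 ^ w * ((c ^ w) ^ 2 * Y ^ 2 * (((m + w : ℕ) : ℝ) + 1) ^ 2) ≤
        (l.choose J : ℝ) * 2 ^ w * ((J.choose (m + w) : ℝ) ^ 2) := by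
      calc (l.choose J : ℝ) * 2 ^ w * ((c ^ w) ^ 2 * Y ^ 2 * (((m + w : ℕ) : ℝ) + 1) ^ 2)
          = ((c ^ w) ^ 2 * 2 ^ w) * ((l.choose J : ℝ) * Y ^ 2 * (((m + w : ℕ) : ℝ) + 1) ^ 2) := by
            ring
        _ ≤ 1 * ((l.choose J : ℝ) * Y ^ 2 * (((m + w : ℕ) : ℝ) + 1) ^ 2) :=
            mul_le_mul_of_nonneg_right hcw (by positivity)
        _ ≤ (l.choose m : ℝ) * (((m + w : ℕ) : ℝ) + 1) ^ 2 := by
            rw [one_mul]
            exact mul_le_mul_of_nonneg_right hb (by positivity)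
        _ ≤ _ := by
            have e : (l.choose J : ℝ) * 2 ^ w * ((J.choose (m + w) : ℝ) ^ 2) =
              2 ^ w * ((l.choose J : ℝ) * (J.choose (m + w) : ℝ) ^ 2) := by ring
            rw [e, mul_comm (l.choose m : ℝ)]
            exact hcomb
    exact le_of_mul_le_mul_left h9 (by positivity)
  exact (pow_le_pow_iff_left₀ (by positivity) (by positivity) (by norm_num)).1 hsq

/-- The bounds on `[-1,0]`. -/
noncomputable def Vn (l e J : ℕ) : ℝ :=
  if J ≤ e then (if J + e ≤ l then ((l - J).choose e : ℝ) else 1 / 2)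
  else (J.choose e : ℝ) / ((e : ℝ) + 1)

theorem vn_left {l e J : ℕ} (h1 : J ≤ e) (h2 : J + e ≤ l) : Vn l e J = ((l - J).choose e : ℝ) := by
  rw [Vn, if_pos h1, if_pos h2]

theorem vn_mid {l e J : ℕ} (h1 : J ≤ e) (h2 : l < J + e) : Vn l e J = 1 / 2 := by
  rw [Vn, if_pos h1, if_neg (by omega)]

theorem vn_right {l e J : ℕ} (h1 : e < J) : Vn l e J = (J.choose e : ℝ) / ((e : ℝ) + 1) := by
  rw [Vn, if_neg (by omega)]

theorem vn_nonneg (l e J : ℕ) : 0 ≤ Vn l e J := by
  unfold Vn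
  split_ifs <;> positivity

theorem bb_neg {l J m : ℕ} (hJ : J ≤ l) (hl : 2 * m + 2 ≤ l) {x : ℝ} (hx : x ∈ Icc (-1:ℝ) 0) :
    ‖(hasseDeriv m (bb ℂ l J)).eval (x : ℂ)‖ ≤ 2 ^ (l - m) * Vn l (l - m) J := by
  have hx' : x ∈ Icc (-1:ℝ) 1 := ⟨hx.1, hx.2.trans zero_le_one⟩
  rcases le_or_gt J m with h | h
  · rw [vn_left (by omega) (by omega)]
    refine (bb_all hJ (by omega) hx').trans ?_
    rw [vm_left (by omega) (by omega)]
  · rw [hasse_bb_ofReal, Complex.norm_real, Real.norm_eq_abs]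
    rcases le_or_gt (J + m) l with h1 | h1
    · rw [vn_mid (by omega) (by omega)]
      exact mid_neg hJ h h1 hl hx
    · rw [vn_right (by omega)]
      exact right_neg hJ h1 hl hx

end Pool.Agent.HHalfC
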