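import Pool.Agent.HHalf.AFinal
import Pool.Agent.HHalfB.BFinal
import Pool.Agent.HHalfC.CMid

/-!
# The inequalities with an arbitrary bound `V`
-/

set_option autoImplicit false

namespace Pool.Agent.HHalfC

open Polynomial Set Complex ComplexConjugate Pool.Agent.HHalf Pool.Agent.HHalfB

/-- Bound of a mixture. -/
theorem mid_gen {β : Type*} (S : Finset β) (a : β → ℂ) (J : β → ℕ)
    {n m : ℕ} (hJ : ∀ b ∈ S, J b ≤ n) {V : ℕ → ℝ} {x : ℂ}
    (hV : ∀ j ≤ n, ‖(hasseDeriv m (bb ℂ n j)).eval x‖ ≤ 2 ^ (n - m) * V j) :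
    ‖(hasseDeriv m (∑ b ∈ S, C (a b) * bb ℂ n (J b))).eval x‖ ≤
      2 ^ (n - m) * ∑ b ∈ S, ‖a b‖ * V (J b) := by
  rw [rend_sum S a J n m x, Finset.mul_sum]
  refine (norm_sum_le _ _).trans (Finset.sum_le_sum (fun b hb => ?_))
  rw [norm_mul]
  calc ‖a b‖ * ‖(hasseDeriv m (bb ℂ n (J b))).eval x‖
      ≤ ‖a b‖ * (2 ^ (n - m) * V (J b)) :=
        mul_le_mul_of_nonneg_left (hV _ (hJ b hb)) (norm_nonneg _)
    _ = _ := by ring

theorem T1V {l k d : ℕ} {P : ℕ → ℝ} (hP : ∀ J, 0 ≤ P J) {z : ℂ} (hz : ‖z‖ ≤ 1)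
    (hkd : k + 1 + d = l + 2) (hd1 : 1 ≤ d) {θ : ℝ} {D V : ℕ → ℝ}
    (hG : ∀ J ≤ l, ∀ p ≤ 2, V J ≤ Gf (l + 2) d θ D (J + p))
    {x : ℂ} (hV : ∀ j ≤ l, ‖(hasseDeriv k (bb ℂ l j)).eval x‖ ≤ 2 ^ (l - k) * V j) :
    ‖(hasseDeriv k (mix l P)).eval x‖ ≤ d / 2 *
      (θ * ‖(hasseDeriv (k + 1) (mix l P * ((X - C z) * (X - C (conj z))))).eval 1‖ +
       (1 - θ) * ‖(hasseDeriv (k + 1) (mix l P * ((X - C z) * (X - C (conj z))))).eval (-1)‖) +
      2 ^ (d - 1) * d * ∑ b ∈ Finset.range (l + 1) ×ˢ Finset.range 3,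
        P b.1 * pz z b.2 * D (b.1 + b.2) := by
  have hpz := pz_nonneg hz
  have ha : ∀ b ∈ Finset.range (l + 1) ×ˢ Finset.range 3,
      0 ≤ (fun b : ℕ × ℕ => P b.1 * pz z b.2) b := fun b _ => mul_nonneg (hP _) (hpz _)
  have hJ : ∀ b ∈ Finset.range (l + 1) ×ˢ Finset.range 3,
      (fun b : ℕ × ℕ => b.1 + b.2) b ≤ l + 2 := by
    intro b hb
    have h1 := Finset.mem_range.mp (Finset.mem_product.mp hb).1
    have h2 := Finset.mem_range.mp (Finset.mem_product.mp hb).2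
    show b.1 + b.2 ≤ l + 2
    omega
  have hcol := collect (Finset.range (l + 1) ×ˢ Finset.range 3)
    (fun b : ℕ × ℕ => P b.1 * pz z b.2) ha (fun b : ℕ × ℕ => b.1 + b.2) (n := l + 2) (m := k + 1)
    (d := d) hJ (by omega) (by omega) hd1 θ D
  have hM := mid_gen (Finset.range (l + 1)) (fun J => ((P J : ℝ) : ℂ)) (fun J => J)
    (n := l) (m := k)
    (fun b hb => Nat.lt_succ_iff.mp (Finset.mem_range.mp hb)) hV
  have hlk : l - k = d - 1 := by omega
  rw [hlk] at hM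
  rw [T1_mix_pair]
  have hcol' : 2 ^ (d - 1) * ∑ b ∈ Finset.range (l + 1) ×ˢ Finset.range 3,
      P b.1 * pz z b.2 * Gf (l + 2) d θ D (b.1 + b.2) = _ := hcol
  have hgoal : ‖(hasseDeriv k (mix l P)).eval x‖ ≤
      2 ^ (d - 1) * ∑ b ∈ Finset.range (l + 1) ×ˢ Finset.range 3,
        P b.1 * pz z b.2 * Gf (l + 2) d θ D (b.1 + b.2) := by
    refine (show ‖(hasseDeriv k (mix l P)).eval x‖ ≤ _ from hM).trans ?_
    refine mul_le_mul_of_nonneg_left ?_ (by positivity)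
    rw [Finset.sum_product]
    refine Finset.sum_le_sum fun J hJm => ?_
    have hJl : J ≤ l := Nat.lt_succ_iff.mp (Finset.mem_range.mp hJm)
    rw [Complex.norm_real, Real.norm_eq_abs, abs_of_nonneg (hP J)]
    have h3 : ∑ p ∈ Finset.range 3, pz z p = 1 := by
      rw [Finset.sum_range_succ, Finset.sum_range_succ, Finset.sum_range_succ,
        Finset.sum_range_zero, zero_add]
      exact pz_sum z
    calc P J * V J = ∑ p ∈ Finset.range 3, P J * pz z p * V J := by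
          rw [← Finset.sum_mul, ← Finset.mul_sum, h3, mul_one]
      _ ≤ _ := by
          refine Finset.sum_le_sum fun p hp => ?_
          have hp2 : p ≤ 2 := by
            have := Finset.mem_range.mp hp
            omega
          exact mul_le_mul_of_nonneg_left (hG J hJl p hp2) (mul_nonneg (hP J) (hpz p))
  refine hgoal.trans (le_of_eq ?_)
  rw [hcol']

theorem T2V {l k d : ℕ} {P : ℕ → ℝ} (hP : ∀ J, 0 ≤ P J) {z z' : ℂ}
    (hz : ‖z‖ ≤ 1) (hz' : ‖z'‖ ≤ 1) (hkd : k + 1 + d = l + 4) (hd1 : 1 ≤ d) {θ : ℝ}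
    {D V : ℕ → ℝ} (hV0 : ∀ J, 0 ≤ V J)
    (hG : ∀ J ≤ l, ∃ τ, Five (fun p => V (J + p)) (fun s => Gf (l + 4) d θ D (J + s)) τ)
    {x : ℂ} (hV : ∀ j ≤ l + 2, ‖(hasseDeriv k (bb ℂ (l + 2) j)).eval x‖ ≤
      2 ^ (l + 2 - k) * V j) :
    ‖(hasseDeriv k (mix l P * ((X - C z) * (X - C z')))).eval x‖ ≤ d / 2 *
      (θ * ‖(hasseDeriv (k + 1) (mix l P * ((X - C z) * (X - C (conj z))) *
          ((X - C z') * (X - C (conj z'))))).eval 1‖ +
       (1 - θ) * ‖(hasseDeriv (k + 1) (mix l P * ((X - C z) * (X - C (conj z))) *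
          ((X - C z') * (X - C (conj z'))))).eval (-1)‖) +
      2 ^ (d - 1) * d * ∑ b ∈ Finset.range (l + 1) ×ˢ (Finset.range 3 ×ˢ Finset.range 3),
        P b.1 * (pz z b.2.1 * pz z' b.2.2) * D (b.1 + (b.2.1 + b.2.2)) := by
  have e1 : mix l P * ((X - C z) * (X - C z')) =
      ∑ b ∈ Finset.range (l + 1) ×ˢ Finset.range 3,
        C ((P b.1 : ℂ) * az z z' b.2) * bb ℂ (l + 2) (b.1 + b.2) := by
    rw [mix, Finset.sum_mul, Finset.sum_product]
    apply Finset.sum_congr rfl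
    intro J hJ
    have hJ' : J ≤ l := by have := Finset.mem_range.1 hJ; omega
    rw [mul_assoc, bb_mul_az hJ', Finset.mul_sum]
    apply Finset.sum_congr rfl
    intro p _
    rw [C_mul]
    ring
  have hmem1 : ∀ b ∈ Finset.range (l + 1) ×ˢ Finset.range 3, b.1 + b.2 ≤ l + 2 := by
    intro b hb
    obtain ⟨h1, h2⟩ := Finset.mem_product.1 hb
    have := Finset.mem_range.1 h1
    have := Finset.mem_range.1 h2
    omega
  have hmem2 : ∀ b ∈ Finset.range (l + 1) ×ˢ (Finset.range 3 ×ˢ Finset.range 3),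
      b.1 + (b.2.1 + b.2.2) ≤ l + 4 := by
    intro b hb
    obtain ⟨h1, h2⟩ := Finset.mem_product.1 hb
    obtain ⟨h3, h4⟩ := Finset.mem_product.1 h2
    have := Finset.mem_range.1 h1
    have := Finset.mem_range.1 h3
    have := Finset.mem_range.1 h4
    omega
  have hnn : ∀ b ∈ Finset.range (l + 1) ×ˢ (Finset.range 3 ×ˢ Finset.range 3),
      0 ≤ P b.1 * (pz z b.2.1 * pz z' b.2.2) := fun b _ =>
    mul_nonneg (hP _) (mul_nonneg (pz_nonneg hz _) (pz_nonneg hz' _))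
  have hL := mid_gen (Finset.range (l + 1) ×ˢ Finset.range 3)
    (fun b => (P b.1 : ℂ) * az z z' b.2) (fun b => b.1 + b.2) (n := l + 2) (m := k) hmem1 hV
  rw [← e1] at hL
  have hk1 : l + 2 - k = d - 1 := by omega
  rw [hk1] at hL
  have hcol := collect (Finset.range (l + 1) ×ˢ (Finset.range 3 ×ˢ Finset.range 3))
    (fun b : ℕ × (ℕ × ℕ) => P b.1 * (pz z b.2.1 * pz z' b.2.2)) hnn
    (fun b : ℕ × (ℕ × ℕ) => b.1 + (b.2.1 + b.2.2)) (n := l + 4) (m := k + 1)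
    (d := d) hmem2 (by omega) (by omega) hd1 θ D
  have hcol' : 2 ^ (d - 1) * ∑ b ∈ Finset.range (l + 1) ×ˢ (Finset.range 3 ×ˢ Finset.range 3),
      P b.1 * (pz z b.2.1 * pz z' b.2.2) * Gf (l + 4) d θ D (b.1 + (b.2.1 + b.2.2)) = _ := hcol
  rw [← mix_pair_pair] at hcol'
  rw [← hcol']
  refine hL.trans ?_
  refine mul_le_mul_of_nonneg_left ?_ (by positivity)
  rw [Finset.sum_product, Finset.sum_product]
  refine Finset.sum_le_sum fun J hJ => ?_
  have hJ' : J ≤ l := by have := Finset.mem_range.1 hJ; omega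
  obtain ⟨τ, hτ⟩ := hG J hJ'
  have hM : ∀ s, 0 ≤ (fun p => V (J + p)) s := fun s => hV0 _
  have h1 := pair_gen hM hτ hz hz'
  have h2 := mul_le_mul_of_nonneg_left h1 (hP J)
  have h3 : ∑ p ∈ Finset.range 3, ‖(P J : ℂ) * az z z' p‖ * V (J + p) =
      P J * ∑ p ∈ Finset.range 3, ‖az z z' p‖ * V (J + p) := by
    rw [Finset.mul_sum]
    apply Finset.sum_congr rfl
    intro p _
    rw [norm_mul, Complex.norm_real, Real.norm_eq_abs, abs_of_nonneg (hP J)]
    ring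
  have h4 : ∑ b ∈ Finset.range 3 ×ˢ Finset.range 3,
      P J * (pz z b.1 * pz z' b.2) * Gf (l + 4) d θ D (J + (b.1 + b.2)) =
      P J * ∑ p ∈ Finset.range 3, ∑ q ∈ Finset.range 3,
        pz z p * pz z' q * Gf (l + 4) d θ D (J + (p + q)) := by
    rw [Finset.sum_product, Finset.mul_sum]
    apply Finset.sum_congr rfl
    intro p _
    rw [Finset.mul_sum]
    apply Finset.sum_congr rfl
    intro q _
    ring
  rw [h3, h4]
  exact h2

/-- The two families of inequalities. -/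
def GoodV (n d : ℕ) (θ : ℝ) (D V : ℕ → ℝ) : Prop :=
  (∀ J ≤ n - 2, ∀ p ≤ 2, V J ≤ Gf n d θ D (J + p)) ∧
  (∀ J, J + 4 ≤ n → ∃ τ, Five (fun p => V (J + p)) (fun s => Gf n d θ D (J + s)) τ)

/-- Reflection. -/
theorem GoodV.refl {n d : ℕ} {θ : ℝ} {D V : ℕ → ℝ} (hn : 4 ≤ n) (h : GoodV n d θ D V) :
    GoodV n d (1 - θ) (fun s => D (n - s)) (fun j => V (n - 2 - j)) := by
  constructor
  · intro J hJ p hp
    have h1 := h.1 (n - 2 - J) (by omega) (2 - p) (by omega)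
    rw [show n - 2 - J + (2 - p) = n - (J + p) by omega, Gf_refl (by omega)] at h1
    exact h1
  · intro J hJ
    obtain ⟨τ, hτ⟩ := h.2 (n - 4 - J) (by omega)
    refine ⟨τ⁻¹, hτ.refl ?_ ?_⟩
    · intro s hs
      show V (n - 4 - J + s) = V (n - 2 - (J + (2 - s)))
      rw [show n - 4 - J + s = n - 2 - (J + (2 - s)) by omega]
    · intro s hs
      show Gf n d θ D (n - 4 - J + s) = Gf n d (1 - θ) (fun s => D (n - s)) (J + (4 - s))
      rw [show n - 4 - J + s = n - (J + (4 - s)) by omega, Gf_refl (by omega)]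

/-- The inequality (T) with `θ`, `D`, `V`, for a compensation with nonpositive mean. -/
theorem TineqV {N : ℕ} {L : Fin N → ℂ} (hL : ∀ a, ‖L a‖ ≤ 1) {k d : ℕ} (hkd : k + 1 + d = 2 * N)
    (hd1 : 1 ≤ d) {θ : ℝ} {D V : ℕ → ℝ} (hV0 : ∀ J, 0 ≤ V J) (hG : GoodV (2 * N) d θ D V)
    (hD : ∃ α β : ℝ, (∀ s ≤ 2 * N, D s = α + β * s) ∧ α + β * (N - ∑ a, (L a).re) ≤ 0)
    {x : ℂ} (hV : ∀ j ≤ 2 * N - 2, ‖(hasseDeriv k (bb ℂ (2 * N - 2) j)).eval x‖ ≤
      2 ^ (2 * N - 2 - k) * V j) {i j : Fin N × Bool} (hij : i ≠ j) :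
    ‖(hasseDeriv k (omij (zL L) i j)).eval x‖ ≤ d / 2 *
      (θ * ‖(hasseDeriv (k + 1) (om (zL L))).eval 1‖ +
        (1 - θ) * ‖(hasseDeriv (k + 1) (om (zL L))).eval (-1)‖) := by
  obtain ⟨α, β, hαβ, hneg⟩ := hD
  have hmean : ∀ {γ : Type} (S : Finset γ) (a : γ → ℝ) (J : γ → ℕ),
      (∀ b ∈ S, J b ≤ 2 * N) → 1 ≤ N →
      om (zL L) = ∑ b ∈ S, C (a b : ℂ) * bb ℂ (2 * N) (J b) →
      ∑ b ∈ S, a b * D (J b) ≤ 0 := by
    intro γ S a J hJ hN h
    obtain ⟨h0, h1⟩ := comp_le S a J hN hJ h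
    have e : ∑ b ∈ S, a b * D (J b) = α * ∑ b ∈ S, a b + β * ∑ b ∈ S, a b * (J b : ℝ) := by
      rw [Finset.mul_sum, Finset.mul_sum, ← Finset.sum_add_distrib]
      refine Finset.sum_congr rfl fun b hb => ?_
      rw [hαβ _ (hJ b hb)]
      ring
    rw [e, h0, h1, mul_one]
    exact hneg
  have hfin : ∀ {A B t : ℝ}, A ≤ B + 2 ^ (d - 1) * d * t → t ≤ 0 → A ≤ B := by
    intro A B t h1 h2
    have : 2 ^ (d - 1) * (d : ℝ) * t ≤ 0 :=
      mul_nonpos_of_nonneg_of_nonpos (by positivity) h2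
    linarith
  obtain ⟨a, b⟩ := i
  obtain ⟨a', b'⟩ := j
  by_cases haa : a = a'
  · subst haa
    have hb : b' = !b := by
      cases b <;> cases b' <;> simp_all
    subst hb
    obtain ⟨P, hP, hprod⟩ := rep_prod (Finset.univ.erase a) L hL
    have hcard : (Finset.univ.erase a).card = N - 1 := by
      rw [Finset.card_erase_of_mem (Finset.mem_univ a), Finset.card_univ, Fintype.card_fin]
    rw [hcard] at hprod
    have h1 : ∏ a' ∈ Finset.univ.erase a, pr L a' = mix (2 * (N - 1)) P := hprod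
    have hom : om (zL L) = mix (2 * (N - 1)) P * ((X - C (L a)) * (X - C (conj (L a)))) := by
      rw [om_zL, ← h1, ← Finset.prod_erase_mul Finset.univ (pr L) (Finset.mem_univ a)]
      rfl
    have hN : 1 ≤ N := by have := a.2; omega
    have e2 : 2 * (N - 1) + 2 = 2 * N := by omega
    have e3 : 2 * N - 2 = 2 * (N - 1) := by omega
    rw [e3] at hV
    have hT := T1V (l := 2 * (N - 1)) (k := k) (d := d) hP (hL a) (by omega) hd1 (θ := θ) (D := D)
      (V := V)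
      (by
        intro J hJ p hp
        rw [e2]
        exact hG.1 J (by omega) p hp) hV
    rw [omij_same, h1, hom]
    refine hfin hT ?_
    refine hmean (Finset.range (2 * (N - 1) + 1) ×ˢ Finset.range 3)
      (fun b => P b.1 * pz (L a) b.2) (fun b => b.1 + b.2) ?_ hN ?_
    · intro b hb
      have h1 := Finset.mem_range.mp (Finset.mem_product.mp hb).1
      have h2 := Finset.mem_range.mp (Finset.mem_product.mp hb).2
      show b.1 + b.2 ≤ 2 * N
      omega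
    · rw [hom, T1_mix_pair, e2]
  · obtain ⟨P, hP, hprod⟩ := rep_prod ((Finset.univ.erase a).erase a') L hL
    have ha' : a' ∈ Finset.univ.erase a := Finset.mem_erase.2 ⟨fun h => haa h.symm, Finset.mem_univ _⟩
    have hcard : ((Finset.univ.erase a).erase a').card = N - 2 := by
      rw [Finset.card_erase_of_mem ha', Finset.card_erase_of_mem (Finset.mem_univ a),
        Finset.card_univ, Fintype.card_fin]
      omega
    have hN : 2 ≤ N := by
      have h1 := a.2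
      have h2 := a'.2
      have h3 : (a : ℕ) ≠ a' := fun h => haa (Fin.ext h)
      omega
    rw [hcard] at hprod
    have h1 : ∏ c ∈ (Finset.univ.erase a).erase a', pr L c = mix (2 * (N - 2)) P := hprod
    have hom : om (zL L) = mix (2 * (N - 2)) P *
        ((X - C (conj (zL L (a, b)))) * (X - C (conj (conj (zL L (a, b)))))) *
        ((X - C (conj (zL L (a', b')))) * (X - C (conj (conj (zL L (a', b')))))) := by
      rw [om_zL, ← h1, ← Finset.prod_erase_mul Finset.univ (pr L) (Finset.mem_univ a),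
        ← Finset.prod_erase_mul (Finset.univ.erase a) (pr L) ha', pr_eq L a b, pr_eq L a' b']
      simp only [Complex.conj_conj]
      ring
    have e4 : 2 * (N - 2) + 4 = 2 * N := by omega
    have e2 : 2 * N - 2 = 2 * (N - 2) + 2 := by omega
    have hz1 : ‖conj (zL L (a, b))‖ ≤ 1 := by rw [Complex.norm_conj]; exact norm_zL hL _
    have hz2 : ‖conj (zL L (a', b'))‖ ≤ 1 := by rw [Complex.norm_conj]; exact norm_zL hL _
    rw [e2] at hV
    have hT := T2V (l := 2 * (N - 2)) (k := k) (d := d) hP hz1 hz2 (by omega) hd1 (θ := θ) (D := D)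
      hV0
      (by
        intro J hJ
        rw [e4]
        exact hG.2 J (by omega)) hV
    rw [omij_diff L haa, h1, hom]
    refine hfin hT ?_
    refine hmean (Finset.range (2 * (N - 2) + 1) ×ˢ (Finset.range 3 ×ˢ Finset.range 3))
      (fun c => P c.1 * (pz (conj (zL L (a, b))) c.2.1 * pz (conj (zL L (a', b'))) c.2.2))
      (fun c => c.1 + (c.2.1 + c.2.2)) ?_ (by omega) ?_
    · intro c hc
      obtain ⟨h1, h2⟩ := Finset.mem_product.1 hc
      obtain ⟨h3, h4⟩ := Finset.mem_product.1 h2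
      have := Finset.mem_range.1 h1
      have := Finset.mem_range.1 h3
      have := Finset.mem_range.1 h4
      show c.1 + (c.2.1 + c.2.2) ≤ 2 * N
      omega
    · rw [hom, mix_pair_pair, e4]

/-- Theorem A with the inequality `TineqV`. -/
theorem pointwiseV {N : ℕ} {L : Fin N → ℂ} (hL : ∀ a, ‖L a‖ ≤ 1) {k : ℕ} (hN : 1 ≤ N)
    (hk1 : 1 ≤ k) (hk : k < 2 * N) {θ : ℝ} (hθ0 : 0 ≤ θ) (hθ1 : θ ≤ 1) {D V : ℕ → ℝ}
    (hV0 : ∀ J, 0 ≤ V J) (hG : GoodV (2 * N) (2 * N - k) θ D V)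
    (hD : ∃ α β : ℝ, (∀ s ≤ 2 * N, D s = α + β * s) ∧ α + β * (N - ∑ a, (L a).re) ≤ 0)
    {h : ℂ → ℂ} (hh : Differentiable ℂ h)
    (hb : ∀ w, ‖w‖ ≤ 1 → ‖iteratedDeriv (2 * N) (fun w => (om (zL L)).eval w * h w) w‖ ≤ 1)
    {x : ℝ} (hx : x ∈ Icc (-1:ℝ) 1)
    (hV : ∀ j ≤ 2 * N - 2, ‖(hasseDeriv (k - 1) (bb ℂ (2 * N - 2) j)).eval (x : ℂ)‖ ≤
      2 ^ (2 * N - 2 - (k - 1)) * V j) :
    ∃ y ∈ Icc (-1:ℝ) 1, ‖iteratedDeriv k (fun w => (om (zL L)).eval w * h w) (x:ℂ)‖ ≤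
      (1 / ((2 * N).factorial : ℝ)) * ‖iteratedDeriv k (fun w => (om (zL L)).eval w) (y:ℂ)‖ := by
  obtain ⟨k', rfl⟩ : ∃ k', k = k' + 1 := ⟨k - 1, by omega⟩
  rw [Nat.add_sub_cancel] at hV
  obtain ⟨d, hd⟩ : ∃ d, k' + 1 + d = 2 * N := ⟨2 * N - (k' + 1), by omega⟩
  obtain ⟨n, hn⟩ : ∃ n, 2 * N = n + 1 := ⟨2 * N - 1, by omega⟩
  have hd1 : 1 ≤ d := by omega
  have hdd : 2 * N - (k' + 1) = d := by omega
  rw [hdd] at hG
  -- the three values
  set W : ℝ → ℝ := fun y => ‖(hasseDeriv (k' + 1) (om (zL L))).eval (y:ℂ)‖ with hW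
  obtain ⟨y, hy, hyx, hy1, hym⟩ : ∃ y ∈ Icc (-1:ℝ) 1, W x ≤ W y ∧ W 1 ≤ W y ∧ W (-1) ≤ W y := by
    have h1 : (1:ℝ) ∈ Icc (-1:ℝ) 1 := ⟨by norm_num, by norm_num⟩
    have hm : (-1:ℝ) ∈ Icc (-1:ℝ) 1 := ⟨by norm_num, by norm_num⟩
    rcases le_total (W 1) (W (-1)) with ha | ha
    · rcases le_total (W x) (W (-1)) with hb' | hb'
      · exact ⟨-1, hm, hb', ha, le_rfl⟩
      · exact ⟨x, hx, le_rfl, ha.trans hb', hb'⟩
    · rcases le_total (W x) (W 1) with hb' | hb'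
      · exact ⟨1, h1, hb', le_rfl, ha⟩
      · exact ⟨x, hx, le_rfl, hb', ha.trans hb'⟩
  refine ⟨y, hy, ?_⟩
  -- the reindexed nodes
  have hcard : Fintype.card (Fin (n + 1)) = Fintype.card (Fin N × Bool) := by
    simp only [Fintype.card_fin, Fintype.card_prod, Fintype.card_bool]
    omega
  let e : Fin (n + 1) ≃ Fin N × Bool := Fintype.equivOfCardEq hcard
  have hz : ∀ i, ‖(zL L ∘ e) i‖ ≤ 1 := fun i => norm_zL hL (e i)
  have hprod : ∀ w : ℂ, ∏ i, (w - (zL L ∘ e) i) = (om (zL L)).eval w := by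
    intro w
    rw [← om_comp e (zL L), om, Polynomial.eval_prod]
    simp
  have hfun : (fun w : ℂ => (om (zL L)).eval w * h w) =
      fun w => (∏ i, (w - (zL L ∘ e) i)) * h w := by
    funext w; rw [hprod]
  rw [hfun]
  rw [hfun, hn] at hb
  have hx1 : ‖(x:ℂ)‖ ≤ 1 := by
    rw [Complex.norm_real, Real.norm_eq_abs]
    exact abs_le.2 ⟨hx.1, hx.2⟩
  have hkey := thmA (z := zL L ∘ e) (k := k' + 1) (d := d) hz (by omega) hd1 hx1 hh hb
    (B := W y) (norm_nonneg _) (by rw [om_comp]; exact hyx) (by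
      intro i j
      by_cases hij : i = j
      · subst hij; simp
      · rw [diff_cc _ _ _ hij, norm_mul, omij_comp, norm_sub_rev, mul_comm]
        apply mul_le_mul_of_nonneg_right _ (norm_nonneg _)
        have hT := TineqV hL hd hd1 hV0 hG hD hV (i := e i) (j := e j)
          (fun h => hij (e.injective h))
        have h1 : ‖(hasseDeriv (k' + 1) (om (zL L))).eval 1‖ ≤ W y := by
          have := hy1
          simp only [hW] at this ⊢
          simpa using this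
        have h2 : ‖(hasseDeriv (k' + 1) (om (zL L))).eval (-1)‖ ≤ W y := by
          have := hym
          simp only [hW] at this ⊢
          simpa using this
        refine hT.trans ?_
        have hd0 : (0:ℝ) ≤ d := by positivity
        have h3 : θ * ‖(hasseDeriv (k' + 1) (om (zL L))).eval 1‖ +
            (1 - θ) * ‖(hasseDeriv (k' + 1) (om (zL L))).eval (-1)‖ ≤ W y := by
          have h4 := mul_le_mul_of_nonneg_left h1 hθ0
          have h5 := mul_le_mul_of_nonneg_left h2 (sub_nonneg.2 hθ1)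
          linarith
        have h6 := mul_le_mul_of_nonneg_left h3 (show (0:ℝ) ≤ d / 2 by linarith)
        linarith)
  refine hkey.trans (le_of_eq ?_)
  rw [iter_hasse, norm_mul, Complex.norm_natCast, ← hn]
  simp only [hW]
  ring

/-- Cluster side: nodes near `-1` (resp. `1`) and `x ≤ 0` (resp. `x ≥ 0`). -/
theorem pointwise_side {N : ℕ} {L : Fin N → ℂ} (hL : ∀ a, ‖L a‖ ≤ 1) {k : ℕ}
    (hk1 : 1 ≤ k) (hkN : 2 * k + 2 ≤ 2 * N) {θ lam c : ℝ} (hθ0 : 0 ≤ θ) (hθ1 : θ ≤ 1)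
    (hlam : 0 ≤ lam)
    (hG : GoodV (2 * N) (2 * N - k) θ (Dl lam (2 * N - c)) (Vn (2 * N - 2) (2 * N - k - 1)))
    {x : ℝ} (hx : x ∈ Icc (-1:ℝ) 1)
    (hS : (x ≤ 0 ∧ ∑ a, (1 + (L a).re) ≤ c) ∨ (0 ≤ x ∧ ∑ a, (1 - (L a).re) ≤ c))
    {h : ℂ → ℂ} (hh : Differentiable ℂ h)
    (hb : ∀ w, ‖w‖ ≤ 1 → ‖iteratedDeriv (2 * N) (fun w => (om (zL L)).eval w * h w) w‖ ≤ 1) :
    ∃ y ∈ Icc (-1:ℝ) 1, ‖iteratedDeriv k (fun w => (om (zL L)).eval w * h w) (x:ℂ)‖ ≤
      (1 / ((2 * N).factorial : ℝ)) * ‖iteratedDeriv k (fun w => (om (zL L)).eval w) (y:ℂ)‖ := by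
  have hle : 2 * N - 2 - (k - 1) = 2 * N - k - 1 := by omega
  rcases hS with ⟨hx0, hS⟩ | ⟨hx0, hS⟩
  · rw [Finset.sum_add_distrib] at hS
    simp only [Finset.sum_const, Finset.card_univ, Fintype.card_fin, nsmul_eq_mul, mul_one] at hS
    refine pointwiseV hL (by omega) hk1 (by omega) hθ0 hθ1 (vn_nonneg _ _) hG
      ⟨lam * (2 * N - c), -lam, fun s _ => by unfold Dl; ring, ?_⟩ hh hb hx ?_
    · have : lam * (2 * N - c) + -lam * (N - ∑ a, (L a).re) =
          lam * ((N + ∑ a, (L a).re) - c) := by ring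
      rw [this]
      exact mul_nonpos_of_nonneg_of_nonpos hlam (by linarith)
    · intro j hj
      have := bb_neg (l := 2 * N - 2) (J := j) (m := k - 1) hj (by omega) (x := x) ⟨hx.1, hx0⟩
      rw [hle] at this ⊢
      exact this
  · rw [Finset.sum_sub_distrib] at hS
    simp only [Finset.sum_const, Finset.card_univ, Fintype.card_fin, nsmul_eq_mul, mul_one] at hS
    have hG' := hG.refl (by omega)
    refine pointwiseV hL (by omega) hk1 (by omega) (by linarith) (by linarith)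
      (fun j => vn_nonneg _ _ _) hG'
      ⟨lam * (2 * N - c) - lam * (2 * N), lam, fun s hs => ?_, ?_⟩ hh hb hx ?_
    · show Dl lam (2 * N - c) (2 * N - s) = _
      unfold Dl
      rw [Nat.cast_sub hs]
      push_cast
      ring
    · have : lam * (2 * N - c) - lam * (2 * N) + lam * (N - ∑ a, (L a).re) =
        lam * ((N - ∑ a, (L a).re) - c) := by ring
      rw [this]
      exact mul_nonpos_of_nonneg_of_nonpos hlam (by linarith)
    · intro j hj
      have h1 := bb_neg (l := 2 * N - 2) (J := 2 * N - 2 - j) (m := k - 1) (by omega) (by omega)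
        (x := -x) ⟨by linarith [hx.2], by linarith⟩
      have h2 := hasse_refl (k - 1) (2 * N - 2) (2 * N - 2 - j) (by omega) x
      have e : 2 * N - 2 - (2 * N - 2 - j) = j := by omega
      rw [e] at h2
      rw [hasse_bb_ofReal, Complex.norm_real, Real.norm_eq_abs, h2, hle] at h1
      rw [hasse_bb_ofReal, Complex.norm_real, Real.norm_eq_abs, hle]
      exact h1

end Pool.Agent.HHalfC
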