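import Pool.Agent.HHalfB.BGood
import Pool.Agent.HHalfC.CT

/-!
# The inequalities on the cluster side (`k ≥ 4`): tools and the left part
-/

set_option autoImplicit false

namespace Pool.Agent.HHalfC

open Pool.Agent.HHalf Pool.Agent.HHalfB

/-- What is used of the compensation. -/
structure HD (k d : ℕ) (D : ℕ → ℝ) : Prop where
  k4 : 4 ≤ k
  kd : k + 2 ≤ d
  h1 : ∀ s, s + 1 ≤ k → 11 / 8 ≤ D s
  h2 : 7 / 8 ≤ D k
  h3 : 3 / 8 ≤ D (k + 1)
  h4 : ∀ s, s + 1 ≤ d → 4 / 3 ≤ d * D s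
  h5 : 5 / 4 ≤ d * (1 / 3 + D d)
  h5' : 1 + ((d : ℝ) + 1) / 32 ≤ d * (1 / 3 + D d)
  h6 : ∀ s, d ≤ s → -1 / 6 - ((s : ℝ) - d) / 2 ≤ D s

theorem GV_lo {n d s : ℕ} {D : ℕ → ℝ} {t c c' : ℝ} (hc : c ≤ (s.choose d : ℝ))
    (hc' : c' ≤ ((n - s).choose d : ℝ)) (ht : t ≤ D s) :
    (d : ℝ) * (c / 3 + 2 * c' / 3 + t) ≤ Gf n d (1 / 3) D s := by
  unfold Gf
  refine mul_le_mul_of_nonneg_left ?_ (Nat.cast_nonneg _)
  linarith

theorem five_V {n d J : ℕ} {θ : ℝ} {D V : ℕ → ℝ} {V0 V1 V2 W G0 G1 G2 G3 G4 τ : ℝ}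
    (v0 : V (J + 0) = V0) (v1 : V (J + 1) = V1)
    (v2 : V (J + 2) = V2) (g0 : G0 ≤ Gf n d θ D (J + 0)) (g1 : G1 ≤ Gf n d θ D (J + 1))
    (g2 : G2 ≤ Gf n d θ D (J + 2)) (g3 : G3 ≤ Gf n d θ D (J + 3)) (g4 : G4 ≤ Gf n d θ D (J + 4))
    (hτ : 0 < τ) (hW : V1 / τ ≤ W) (i0 : V0 + τ * V1 ≤ G0) (i1 : V0 + τ * V1 ≤ 2 * G1)
    (i2 : (V0 + τ * V1) + (V2 + W) ≤ 2 * G2) (i3 : V2 + W ≤ 2 * G3) (i4 : V2 + W ≤ G4) :
    ∃ τ, Five (fun p => V (J + p)) (fun s => Gf n d θ D (J + s)) τ := by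
  refine ⟨τ, hτ, ?_, ?_, ?_, ?_, ?_⟩
  · simp only [v0, v1]; linarith
  · simp only [v0, v1]; linarith
  · simp only [v0, v1, v2]; linarith
  · simp only [v1, v2]; linarith
  · simp only [v1, v2]; linarith

theorem vl {d k J : ℕ} (hd : k + 2 ≤ d) (h : J + 1 ≤ k) :
    Vn (d + k - 2) (d - 1) J = ((d + k - 2 - J).choose (d - 1) : ℝ) :=
  vn_left (by omega) (by omega)

theorem vm {d k J : ℕ} (hk : 1 ≤ k) (h : k ≤ J) (h' : J + 1 ≤ d) :
    Vn (d + k - 2) (d - 1) J = 1 / 2 :=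
  vn_mid (by omega) (by omega)

theorem vr {d k J : ℕ} (hd : 1 ≤ d) (h : d ≤ J) :
    Vn (d + k - 2) (d - 1) J = (J.choose (d - 1) : ℝ) / d := by
  rw [vn_right (by omega)]
  congr 1
  rw [Nat.cast_sub hd]
  push_cast
  ring

section
variable {k d : ℕ} {D : ℕ → ℝ}

theorem HD.d6 (h : HD k d D) : (6:ℝ) ≤ (d : ℝ) := by
  have := h.k4
  have := h.kd
  exact_mod_cast (show 6 ≤ d by omega)

theorem nn (m : ℕ) (d : ℕ) : (0:ℝ) ≤ ((m.choose d : ℕ) : ℝ) := Nat.cast_nonneg _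

/-- `G(k-1)`. -/
theorem HD.gm1 (h : HD k d D) {s : ℕ} (hs : s + 1 = k) :
    (d : ℝ) * (2 * ((d : ℝ) + 1) / 3 + 11 / 8) ≤ Gf (d + k) d (1 / 3) D s := by
  have hc : (((d + k - s).choose d : ℕ) : ℝ) = (d : ℝ) + 1 := by
    rw [show d + k - s = d + 1 by omega, ch1]
  have := GV_lo (n := d + k) (nn s d) hc.ge (h.h1 s (by omega))
  refine le_trans (le_of_eq ?_) this
  ring

/-- `G(k-2)`. -/
theorem HD.gm2 (h : HD k d D) {s : ℕ} (hs : s + 2 = k) :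
    (d : ℝ) * (((d : ℝ) + 1) * (d + 2) / 3 + 11 / 8) ≤ Gf (d + k) d (1 / 3) D s := by
  have hc : (((d + k - s).choose d : ℕ) : ℝ) = ((d : ℝ) + 1) * (d + 2) / 2 := by
    rw [show d + k - s = d + 2 by omega, ch2]
  have := GV_lo (n := d + k) (nn s d) hc.ge (h.h1 s (by omega))
  refine le_trans (le_of_eq ?_) this
  ring

/-- `G(k-3)`. -/
theorem HD.gm3 (h : HD k d D) {s : ℕ} (hs : s + 3 = k) :
    (d : ℝ) * (((d : ℝ) + 1) * (d + 2) * (d + 3) / 9 + 11 / 8) ≤ Gf (d + k) d (1 / 3) D s := by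
  have hc : (((d + k - s).choose d : ℕ) : ℝ) = ((d : ℝ) + 1) * (d + 2) * (d + 3) / 6 := by
    rw [show d + k - s = d + 3 by omega, ch3]
  have := GV_lo (n := d + k) (nn s d) hc.ge (h.h1 s (by omega))
  refine le_trans (le_of_eq ?_) this
  ring

/-- `G(k-4)`. -/
theorem HD.gm4 (h : HD k d D) {s : ℕ} (hs : s + 4 = k) :
    (d : ℝ) * (((d : ℝ) + 1) * (d + 2) * (d + 3) * (d + 4) / 36 + 11 / 8) ≤
      Gf (d + k) d (1 / 3) D s := by
  have hc : (((d + k - s).choose d : ℕ) : ℝ) = ((d : ℝ) + 1) * (d + 2) * (d + 3) * (d + 4) / 24 := by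
    rw [show d + k - s = d + 4 by omega, ch4]
  have := GV_lo (n := d + k) (nn s d) hc.ge (h.h1 s (by omega))
  refine le_trans (le_of_eq ?_) this
  ring

/-- `G(k-5)`. -/
theorem HD.gm5 (h : HD k d D) {s : ℕ} (hs : s + 5 = k) :
    (d : ℝ) * (((d : ℝ) + 1) * (d + 2) * (d + 3) * (d + 4) * (d + 5) / 180 + 11 / 8) ≤
      Gf (d + k) d (1 / 3) D s := by
  have hc : (((d + k - s).choose d : ℕ) : ℝ) =
      ((d : ℝ) + 1) * (d + 2) * (d + 3) * (d + 4) * (d + 5) / 120 := by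
    rw [show d + k - s = d + 5 by omega, ch5]
  have := GV_lo (n := d + k) (nn s d) hc.ge (h.h1 s (by omega))
  refine le_trans (le_of_eq ?_) this
  ring

/-- `G(k)`. -/
theorem HD.g0 (h : HD k d D) {s : ℕ} (hs : s = k) :
    (d : ℝ) * (37 / 24) ≤ Gf (d + k) d (1 / 3) D s := by
  have hc : (((d + k - s).choose d : ℕ) : ℝ) = 1 := by
    rw [show d + k - s = d by omega, ch0]
  have := GV_lo (n := d + k) (nn s d) hc.ge (show 7 / 8 ≤ D s by rw [hs]; exact h.h2)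
  refine le_trans (le_of_eq ?_) this
  ring

/-- `G(k+1)`. -/
theorem HD.g1 (h : HD k d D) {s : ℕ} (hs : s = k + 1) :
    (d : ℝ) * (3 / 8) ≤ Gf (d + k) d (1 / 3) D s := by
  have := GV_lo (n := d + k) (nn s d) (nn (d + k - s) d) (show 3 / 8 ≤ D s by rw [hs]; exact h.h3)
  refine le_trans (le_of_eq ?_) this
  ring

/-- `G(s)`, `s ≤ d - 1`. -/
theorem HD.glt (h : HD k d D) {s : ℕ} (hs : s + 1 ≤ d) :
    4 / 3 ≤ Gf (d + k) d (1 / 3) D s := by
  have := GV_lo (n := d + k) (nn s d) (nn (d + k - s) d) (le_refl (D s))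
  refine le_trans ?_ this
  have h4 := h.h4 s hs
  linarith

/-- `G(d)`. -/
theorem HD.gd (h : HD k d D) {s : ℕ} (hs : s = d) :
    (d : ℝ) * (1 / 3 + D d) ≤ Gf (d + k) d (1 / 3) D s := by
  have hc : ((s.choose d : ℕ) : ℝ) = 1 := by rw [hs, ch0]
  have := GV_lo (n := d + k) hc.ge (nn (d + k - s) d) (le_refl (D s))
  refine le_trans (le_of_eq ?_) this
  rw [hs]
  ring

/-- `G(d+1)`. -/
theorem HD.gd1 (h : HD k d D) {s : ℕ} (hs : s = d + 1) :
    (d : ℝ) * (((d : ℝ) - 1) / 3) ≤ Gf (d + k) d (1 / 3) D s := by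
  have hc : ((s.choose d : ℕ) : ℝ) = (d : ℝ) + 1 := by rw [hs, ch1]
  have := GV_lo (n := d + k) hc.ge (nn (d + k - s) d) (h.h6 s (by omega))
  refine le_trans (le_of_eq ?_) this
  rw [hs]
  push_cast
  ring

/-- `G(d+2)`. -/
theorem HD.gd2 (h : HD k d D) {s : ℕ} (hs : s = d + 2) :
    (d : ℝ) * (((d : ℝ) + 1) * (d + 2) / 6 - 7 / 6) ≤ Gf (d + k) d (1 / 3) D s := by
  have hc : ((s.choose d : ℕ) : ℝ) = ((d : ℝ) + 1) * (d + 2) / 2 := by rw [hs, ch2]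
  have := GV_lo (n := d + k) hc.ge (nn (d + k - s) d) (h.h6 s (by omega))
  refine le_trans (le_of_eq ?_) this
  rw [hs]
  push_cast
  ring

/-- `G(d+3)`. -/
theorem HD.gd3 (h : HD k d D) {s : ℕ} (hs : s = d + 3) :
    (d : ℝ) * (((d : ℝ) + 1) * (d + 2) * (d + 3) / 18 - 5 / 3) ≤ Gf (d + k) d (1 / 3) D s := by
  have hc : ((s.choose d : ℕ) : ℝ) = ((d : ℝ) + 1) * (d + 2) * (d + 3) / 6 := by rw [hs, ch3]
  have := GV_lo (n := d + k) hc.ge (nn (d + k - s) d) (h.h6 s (by omega))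
  refine le_trans (le_of_eq ?_) this
  rw [hs]
  push_cast
  ring

/-- `G(d+4)`. -/
theorem HD.gd4 (h : HD k d D) {s : ℕ} (hs : s = d + 4) :
    (d : ℝ) * (((d : ℝ) + 1) * (d + 2) * (d + 3) * (d + 4) / 72 - 13 / 6) ≤
      Gf (d + k) d (1 / 3) D s := by
  have hc : ((s.choose d : ℕ) : ℝ) = ((d : ℝ) + 1) * (d + 2) * (d + 3) * (d + 4) / 24 := by
    rw [hs, ch4]
  have := GV_lo (n := d + k) hc.ge (nn (d + k - s) d) (h.h6 s (by omega))
  refine le_trans (le_of_eq ?_) this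
  rw [hs]
  push_cast
  ring

/-- `G(d+5)`. -/
theorem HD.gd5 (h : HD k d D) {s : ℕ} (hs : s = d + 5) :
    (d : ℝ) * (((d : ℝ) + 1) * (d + 2) * (d + 3) * (d + 4) * (d + 5) / 360 - 8 / 3) ≤
      Gf (d + k) d (1 / 3) D s := by
  have hc : ((s.choose d : ℕ) : ℝ) =
      ((d : ℝ) + 1) * (d + 2) * (d + 3) * (d + 4) * (d + 5) / 120 := by rw [hs, ch5]
  have := GV_lo (n := d + k) hc.ge (nn (d + k - s) d) (h.h6 s (by omega))
  refine le_trans (le_of_eq ?_) this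
  rw [hs]
  push_cast
  ring

/-- `G(s) ≥ 5/4` for `s ≤ d + 1`. -/
theorem HD.gmid (h : HD k d D) {s : ℕ} (hs : s ≤ d + 1) :
    5 / 4 ≤ Gf (d + k) d (1 / 3) D s := by
  have h6 := h.d6
  have hc : s + 1 ≤ d ∨ s = d ∨ s = d + 1 := by omega
  rcases hc with h1 | h1 | h1
  · exact le_trans (by norm_num) (h.glt h1)
  · exact h.h5.trans (h.gd h1)
  · refine le_trans ?_ (h.gd1 h1)
    nlinarith

/-- `J = k - 4`. -/
theorem HD.L4 (h : HD k d D) {J : ℕ} (hJ : J + 4 = k) :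
    ∃ τ, Five (fun p => Vn (d + k - 2) (d - 1) (J + p))
      (fun s => Gf (d + k) d (1 / 3) D (J + s)) τ := by
  have h6 := h.d6
  have hkd := h.kd
  have v0 : Vn (d + k - 2) (d - 1) (J + 0) = (d : ℝ) * (d + 1) * (d + 2) / 6 := by
    rw [vl hkd (by omega)]; exact e3 (by omega) (by omega)
  have v1 : Vn (d + k - 2) (d - 1) (J + 1) = (d : ℝ) * (d + 1) / 2 := by
    rw [vl hkd (by omega)]; exact e2 (by omega) (by omega)
  have v2 : Vn (d + k - 2) (d - 1) (J + 2) = d := by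
    rw [vl hkd (by omega)]; exact e1 (by omega) (by omega)
  refine five_V (τ := (d : ℝ) + 1) (W := (d : ℝ) / 2) v0 v1 v2 (h.gm4 (by omega))
    (h.gm3 (by omega)) (h.gm2 (by omega)) (h.gm1 (by omega)) (h.g0 (by omega)) (by linarith)
    (le_of_eq (by field_simp)) ?_ ?_ ?_ ?_ ?_
  all_goals
    obtain ⟨y, hy, hxy⟩ : ∃ y : ℝ, 0 ≤ y ∧ (d : ℝ) = y + 6 := ⟨d - 6, by linarith, by ring⟩
    rw [hxy, ← sub_nonneg]
    ring_nf
    positivity

/-- `J = k - 5`. -/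
theorem HD.L5 (h : HD k d D) {J : ℕ} (hJ : J + 5 = k) :
    ∃ τ, Five (fun p => Vn (d + k - 2) (d - 1) (J + p))
      (fun s => Gf (d + k) d (1 / 3) D (J + s)) τ := by
  have h6 := h.d6
  have hkd := h.kd
  have v0 : Vn (d + k - 2) (d - 1) (J + 0) = (d : ℝ) * (d + 1) * (d + 2) * (d + 3) / 24 := by
    rw [vl hkd (by omega)]; exact e4 (by omega) (by omega)
  have v1 : Vn (d + k - 2) (d - 1) (J + 1) = (d : ℝ) * (d + 1) * (d + 2) / 6 := by
    rw [vl hkd (by omega)]; exact e3 (by omega) (by omega)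
  have v2 : Vn (d + k - 2) (d - 1) (J + 2) = (d : ℝ) * (d + 1) / 2 := by
    rw [vl hkd (by omega)]; exact e2 (by omega) (by omega)
  refine five_V (τ := (d : ℝ) + 2) (W := (d : ℝ) * (d + 1) / 6) v0 v1 v2 (h.gm5 (by omega))
    (h.gm4 (by omega)) (h.gm3 (by omega)) (h.gm2 (by omega)) (h.gm1 (by omega)) (by linarith)
    (le_of_eq (by field_simp)) ?_ ?_ ?_ ?_ ?_
  all_goals
    obtain ⟨y, hy, hxy⟩ : ∃ y : ℝ, 0 ≤ y ∧ (d : ℝ) = y + 6 := ⟨d - 6, by linarith, by ring⟩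
    rw [hxy, ← sub_nonneg]
    ring_nf
    positivity

/-- `J = k - 3`. -/
theorem HD.L3 (h : HD k d D) {J : ℕ} (hJ : J + 3 = k) :
    ∃ τ, Five (fun p => Vn (d + k - 2) (d - 1) (J + p))
      (fun s => Gf (d + k) d (1 / 3) D (J + s)) τ := by
  have h6 := h.d6
  have hkd := h.kd
  have v0 : Vn (d + k - 2) (d - 1) (J + 0) = (d : ℝ) * (d + 1) / 2 := by
    rw [vl hkd (by omega)]; exact e2 (by omega) (by omega)
  have v1 : Vn (d + k - 2) (d - 1) (J + 1) = d := by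
    rw [vl hkd (by omega)]; exact e1 (by omega) (by omega)
  have v2 : Vn (d + k - 2) (d - 1) (J + 2) = 1 := by
    rw [vl hkd (by omega)]; exact e0 (by omega) (by omega)
  refine five_V (τ := 5) (W := (d : ℝ) / 5) v0 v1 v2 (h.gm3 (by omega))
    (h.gm2 (by omega)) (h.gm1 (by omega)) (h.g0 (by omega)) (h.g1 (by omega)) (by norm_num)
    le_rfl ?_ ?_ ?_ ?_ ?_
  all_goals
    obtain ⟨y, hy, hxy⟩ : ∃ y : ℝ, 0 ≤ y ∧ (d : ℝ) = y + 6 := ⟨d - 6, by linarith, by ring⟩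
    rw [hxy, ← sub_nonneg]
    ring_nf
    positivity

/-- `J = k - 2`. -/
theorem HD.L2 (h : HD k d D) {J : ℕ} (hJ : J + 2 = k) :
    ∃ τ, Five (fun p => Vn (d + k - 2) (d - 1) (J + p))
      (fun s => Gf (d + k) d (1 / 3) D (J + s)) τ := by
  have h6 := h.d6
  have hkd := h.kd
  have hk := h.k4
  have v0 : Vn (d + k - 2) (d - 1) (J + 0) = d := by
    rw [vl hkd (by omega)]; exact e1 (by omega) (by omega)
  have v1 : Vn (d + k - 2) (d - 1) (J + 1) = 1 := by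
    rw [vl hkd (by omega)]; exact e0 (by omega) (by omega)
  have v2 : Vn (d + k - 2) (d - 1) (J + 2) = 1 / 2 := vm (by omega) (by omega) (by omega)
  refine five_V (τ := 2) (W := 1 / 2) v0 v1 v2 (h.gm2 (by omega))
    (h.gm1 (by omega)) (h.g0 (by omega)) (h.g1 (by omega)) (h.gmid (by omega)) (by norm_num)
    le_rfl ?_ ?_ ?_ ?_ (by norm_num)
  all_goals
    obtain ⟨y, hy, hxy⟩ : ∃ y : ℝ, 0 ≤ y ∧ (d : ℝ) = y + 6 := ⟨d - 6, by linarith, by ring⟩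
    rw [hxy, ← sub_nonneg]
    ring_nf
    positivity

/-- `J = k - 1`. -/
theorem HD.L1 (h : HD k d D) {J : ℕ} (hJ : J + 1 = k) :
    ∃ τ, Five (fun p => Vn (d + k - 2) (d - 1) (J + p))
      (fun s => Gf (d + k) d (1 / 3) D (J + s)) τ := by
  have h6 := h.d6
  have hkd := h.kd
  have hk := h.k4
  have v0 : Vn (d + k - 2) (d - 1) (J + 0) = 1 := by
    rw [vl hkd (by omega)]; exact e0 (by omega) (by omega)
  have v1 : Vn (d + k - 2) (d - 1) (J + 1) = 1 / 2 := vm (by omega) (by omega) (by omega)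
  have v2 : Vn (d + k - 2) (d - 1) (J + 2) = 1 / 2 := vm (by omega) (by omega) (by omega)
  refine five_V (τ := 1) (W := 1 / 2) v0 v1 v2 (h.gm1 (by omega))
    (h.g0 (by omega)) (h.g1 (by omega)) (h.gmid (by omega)) (h.gmid (by omega)) (by norm_num)
    (by norm_num) ?_ ?_ ?_ ?_ ?_
  all_goals nlinarith

/-- `k ≤ J ≤ d - 3`. -/
theorem HD.Mm (h : HD k d D) {J : ℕ} (hJ : k ≤ J) (hJ' : J + 3 ≤ d) :
    ∃ τ, Five (fun p => Vn (d + k - 2) (d - 1) (J + p))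
      (fun s => Gf (d + k) d (1 / 3) D (J + s)) τ := by
  have hk := h.k4
  have v0 : Vn (d + k - 2) (d - 1) (J + 0) = 1 / 2 := vm (by omega) (by omega) (by omega)
  have v1 : Vn (d + k - 2) (d - 1) (J + 1) = 1 / 2 := vm (by omega) (by omega) (by omega)
  have v2 : Vn (d + k - 2) (d - 1) (J + 2) = 1 / 2 := vm (by omega) (by omega) (by omega)
  refine five_V (τ := 1) (W := 1 / 2) v0 v1 v2 (h.gmid (by omega))
    (h.gmid (by omega)) (h.gmid (by omega)) (h.gmid (by omega)) (h.gmid (by omega)) (by norm_num)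
    (by norm_num) ?_ ?_ ?_ ?_ ?_
  all_goals norm_num

/-- `J ≤ k - 6`. -/
theorem HD.L6 (h : HD k d D) {J : ℕ} (hJ : J + 6 ≤ k) :
    ∃ τ, Five (fun p => Vn (d + k - 2) (d - 1) (J + p))
      (fun s => Gf (d + k) d (1 / 3) D (J + s)) τ := by
  have h6 := h.d6
  have hkd := h.kd
  have hd1 : 1 ≤ d := by omega
  obtain ⟨m, hm⟩ : ∃ m, d + k - 2 - (J + 2) = m := ⟨_, rfl⟩
  have hmd : d + 2 ≤ m := by omega
  have v0 : Vn (d + k - 2) (d - 1) (J + 0) = ((m + 2).choose (d - 1) : ℝ) := by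
    rw [vl hkd (by omega)]; congr 2; omega
  have v1 : Vn (d + k - 2) (d - 1) (J + 1) = ((m + 1).choose (d - 1) : ℝ) := by
    rw [vl hkd (by omega)]; congr 2; omega
  have v2 : Vn (d + k - 2) (d - 1) (J + 2) = (m.choose (d - 1) : ℝ) := by
    rw [vl hkd (by omega)]; congr 2
  have hx : (2:ℝ) ≤ (m : ℝ) - d := by
    have : ((d + 2 : ℕ) : ℝ) ≤ m := by exact_mod_cast hmd
    push_cast at this; linarith
  have g : ∀ s ≤ 4, 2 / 3 * (((m : ℝ) - d + 5 - s) * ((m + 4 - s).choose (d - 1) : ℝ)) ≤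
      Gf (d + k) d (1 / 3) D (J + s) := by
    intro s hs
    have hD : 0 ≤ D (J + s) := le_trans (by norm_num) (h.h1 (J + s) (by omega))
    have h1 := GV_lo (n := d + k) (d := d) (s := J + s) (nn (J + s) d) (le_refl _) hD
    refine le_trans (le_of_eq ?_) h1
    rw [show d + k - (J + s) = m + 4 - s by omega]
    have h2 := up_all (d := d) (m := m + 4 - s) hd1 (by omega)
    rw [Nat.cast_sub (by omega : s ≤ m + 4)] at h2
    push_cast at h2
    have e : ((m : ℝ) - d + 5 - s) * ((m + 4 - s).choose (d - 1) : ℝ) =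
        d * ((m + 4 - s).choose d : ℝ) := by
      rw [h2]; ring
    rw [e]
    ring
  have c01 : (m.choose (d - 1) : ℝ) ≤ ((m + 1).choose (d - 1) : ℝ) := ch_mono _ (by omega)
  have c12 : ((m + 1).choose (d - 1) : ℝ) ≤ ((m + 2).choose (d - 1) : ℝ) := ch_mono _ (by omega)
  have c23 : ((m + 2).choose (d - 1) : ℝ) ≤ ((m + 3).choose (d - 1) : ℝ) := ch_mono _ (by omega)
  have c34 : ((m + 3).choose (d - 1) : ℝ) ≤ ((m + 4).choose (d - 1) : ℝ) := ch_mono _ (by omega)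
  have p0 : (0 : ℝ) < (m.choose (d - 1) : ℝ) := by exact_mod_cast Nat.choose_pos (by omega)
  have hsq := B_sq (d := d) (J := m) hd1 (by omega)
  have g0 := g 0 (by norm_num)
  have g1 := g 1 (by norm_num)
  have g2 := g 2 (by norm_num)
  have g3 := g 3 (by norm_num)
  have g4 := g 4 (by norm_num)
  rw [Nat.sub_zero] at g0
  rw [show m + 4 - 1 = m + 3 by omega] at g1
  rw [show m + 4 - 2 = m + 2 by omega] at g2
  rw [show m + 4 - 3 = m + 1 by omega] at g3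
  rw [show m + 4 - 4 = m by omega] at g4
  push_cast at g0 g1 g2 g3 g4
  set B2 := (m.choose (d - 1) : ℝ) with hB2
  set B1 := ((m + 1).choose (d - 1) : ℝ) with hB1
  set B0 := ((m + 2).choose (d - 1) : ℝ) with hB0
  have p1 : 0 < B1 := lt_of_lt_of_le p0 c01
  have p2 : 0 < B0 := lt_of_lt_of_le p1 c12
  have hq : B1 ^ 2 ≤ 5 / 4 * (B0 * B2) := by
    have h3 : ((m : ℝ) - d + 2) * B1 ^ 2 ≤ ((m : ℝ) - d + 2) * (5 / 4 * (B0 * B2)) := by
      refine le_trans (show ((m : ℝ) - d + 2) * B1 ^ 2 ≤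
        ((m : ℝ) - d + 3) * B2 * B0 from hsq) ?_
      have h4 : 0 ≤ B0 * B2 := by positivity
      have h5 : ((m : ℝ) - d + 3) * (B0 * B2) ≤ (((m : ℝ) - d + 2) * (5 / 4)) * (B0 * B2) :=
        mul_le_mul_of_nonneg_right (by linarith) h4
      linarith
    exact le_of_mul_le_mul_left h3 (by linarith)
  have hτ : B1 / B2 * B1 ≤ 5 / 4 * B0 := by
    rw [div_mul_eq_mul_div, div_le_iff₀ p0]
    linarith
  have hW : B1 / (B1 / B2) = B2 := by field_simp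
  refine five_V (τ := B1 / B2) (W := B2) v0 v1 v2 g0 g1 g2 g3 g4 (div_pos p1 p0)
    hW.le ?_ ?_ ?_ ?_ ?_
  · have h1 : 5 * B0 ≤ ((m : ℝ) - d + 5 - 0) * ((m + 4).choose (d - 1) : ℝ) := by
      refine mul_le_mul (by linarith) (by linarith) p2.le (by linarith)
    linarith
  · have h1 : 5 * B0 ≤ ((m : ℝ) - d + 5 - 1) * ((m + 3).choose (d - 1) : ℝ) := by
      refine mul_le_mul (by linarith) (by linarith) p2.le (by linarith)
    linarith
  · have h1 : 5 * B0 ≤ ((m : ℝ) - d + 5 - 2) * B0 := mul_le_mul_of_nonneg_right (by linarith) p2.le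
    linarith
  · have h1 : 4 * B1 ≤ ((m : ℝ) - d + 5 - 3) * B1 := mul_le_mul_of_nonneg_right (by linarith) p1.le
    linarith
  · have h1 : 3 * B2 ≤ ((m : ℝ) - d + 5 - 4) * B2 := mul_le_mul_of_nonneg_right (by linarith) p0.le
    linarith

end

end Pool.Agent.HHalfC
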