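import Pool.Agent.HHalfC.CR

/-!
# The inequalities on the opposite side (`k ≥ 4`): the threshold `2k - 1/2`
-/

set_option autoImplicit false

namespace Pool.Agent.HHalfC

open Pool.Agent.HHalf Pool.Agent.HHalfB

/-- The bounds on `[0,1]`. -/
noncomputable def Vo (l e J : ℕ) : ℝ := Vn l e (l - J)

section
variable {k d : ℕ}

theorem or' {J : ℕ} (hk : 1 ≤ k) (hd : k + 2 ≤ d) (h : d ≤ J + 1) (h' : J ≤ d + k - 2) :
    Vo (d + k - 2) (d - 1) J = (J.choose (d - 1) : ℝ) := by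
  rw [Vo, vn_left (by omega) (by omega)]
  congr 2
  omega

theorem om' {J : ℕ} (hk : 1 ≤ k) (h : k ≤ J + 1) (h' : J + 2 ≤ d) :
    Vo (d + k - 2) (d - 1) J = 1 / 2 := by
  rw [Vo, vn_mid (by omega) (by omega)]

theorem ol' {J : ℕ} (hd : 1 ≤ d) (h : J + 2 ≤ k) :
    Vo (d + k - 2) (d - 1) J = ((d + k - 2 - J).choose (d - 1) : ℝ) / d := by
  rw [Vo, vn_right (by omega)]
  congr 1
  rw [Nat.cast_sub hd]
  push_cast
  ring

theorem GO_lo {n s : ℕ} {t c c' : ℝ} (hc : c ≤ (s.choose d : ℝ))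
    (hc' : c' ≤ ((n - s).choose d : ℝ)) (ht : (s : ℝ) + t ≤ (d : ℝ) + 1 / 4) :
    (d : ℝ) * (9 / 10 * c + 1 / 10 * c' + d / 3 * t) ≤
      Gf n d (9 / 10) (Dl ((d : ℝ) / 3) ((d : ℝ) + 1 / 4)) s := by
  unfold Gf Dl
  refine mul_le_mul_of_nonneg_left ?_ (Nat.cast_nonneg _)
  have h1 : (d : ℝ) / 3 * t ≤ d / 3 * ((d : ℝ) + 1 / 4 - s) :=
    mul_le_mul_of_nonneg_left (by linarith) (by positivity)
  linarith

/-- `G(s)`, `s + j ≤ d`. -/
theorem go_lt {n s : ℕ} (j : ℕ) (hs : s + j ≤ d) :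
    (d : ℝ) * ((d : ℝ) / 3 * ((j : ℝ) + 1 / 4)) ≤
      Gf n d (9 / 10) (Dl ((d : ℝ) / 3) ((d : ℝ) + 1 / 4)) s := by
  have h1 : (s : ℝ) + j ≤ d := by exact_mod_cast hs
  have := GO_lo (n := n) (t := (j : ℝ) + 1 / 4) (nn s d) (nn (n - s) d) (by linarith)
  refine le_trans (le_of_eq ?_) this
  ring

theorem go_0 {n s : ℕ} (hs : s = d) :
    (d : ℝ) * (9 / 10 + (d : ℝ) / 12) ≤
      Gf n d (9 / 10) (Dl ((d : ℝ) / 3) ((d : ℝ) + 1 / 4)) s := by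
  have hc : ((s.choose d : ℕ) : ℝ) = 1 := by rw [hs, ch0]
  have := GO_lo (n := n) (t := 1 / 4) hc.ge (nn (n - s) d) (by rw [hs])
  refine le_trans (le_of_eq ?_) this
  ring

theorem go_1 {n s : ℕ} (hs : s = d + 1) :
    (d : ℝ) * (13 / 20 * (d : ℝ) + 9 / 10) ≤
      Gf n d (9 / 10) (Dl ((d : ℝ) / 3) ((d : ℝ) + 1 / 4)) s := by
  have hc : ((s.choose d : ℕ) : ℝ) = (d : ℝ) + 1 := by rw [hs, ch1]
  have := GO_lo (n := n) (t := -3 / 4) hc.ge (nn (n - s) d) (by rw [hs]; push_cast; linarith)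
  refine le_trans (le_of_eq ?_) this
  ring

theorem go_2 {n s : ℕ} (hs : s = d + 2) :
    (d : ℝ) * (9 / 20 * (((d : ℝ) + 1) * (d + 2)) - 7 / 12 * d) ≤
      Gf n d (9 / 10) (Dl ((d : ℝ) / 3) ((d : ℝ) + 1 / 4)) s := by
  have hc : ((s.choose d : ℕ) : ℝ) = ((d : ℝ) + 1) * (d + 2) / 2 := by rw [hs, ch2]
  have := GO_lo (n := n) (t := -7 / 4) hc.ge (nn (n - s) d) (by rw [hs]; push_cast; linarith)
  refine le_trans (le_of_eq ?_) this
  ring

theorem go_3 {n s : ℕ} (hs : s = d + 3) :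
    (d : ℝ) * (3 / 20 * (((d : ℝ) + 1) * (d + 2) * (d + 3)) - 11 / 12 * d) ≤
      Gf n d (9 / 10) (Dl ((d : ℝ) / 3) ((d : ℝ) + 1 / 4)) s := by
  have hc : ((s.choose d : ℕ) : ℝ) = ((d : ℝ) + 1) * (d + 2) * (d + 3) / 6 := by rw [hs, ch3]
  have := GO_lo (n := n) (t := -11 / 4) hc.ge (nn (n - s) d) (by rw [hs]; push_cast; linarith)
  refine le_trans (le_of_eq ?_) this
  ring

theorem go_4 {n s : ℕ} (hs : s = d + 4) :
    (d : ℝ) * (3 / 80 * (((d : ℝ) + 1) * (d + 2) * (d + 3) * (d + 4)) - 15 / 12 * d) ≤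
      Gf n d (9 / 10) (Dl ((d : ℝ) / 3) ((d : ℝ) + 1 / 4)) s := by
  have hc : ((s.choose d : ℕ) : ℝ) = ((d : ℝ) + 1) * (d + 2) * (d + 3) * (d + 4) / 24 := by
    rw [hs, ch4]
  have := GO_lo (n := n) (t := -15 / 4) hc.ge (nn (n - s) d) (by rw [hs]; push_cast; linarith)
  refine le_trans (le_of_eq ?_) this
  ring

theorem go_5 {n s : ℕ} (hs : s = d + 5) :
    (d : ℝ) * (3 / 400 * (((d : ℝ) + 1) * (d + 2) * (d + 3) * (d + 4) * (d + 5)) - 19 / 12 * d) ≤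
      Gf n d (9 / 10) (Dl ((d : ℝ) / 3) ((d : ℝ) + 1 / 4)) s := by
  have hc : ((s.choose d : ℕ) : ℝ) =
      ((d : ℝ) + 1) * (d + 2) * (d + 3) * (d + 4) * (d + 5) / 120 := by rw [hs, ch5]
  have := GO_lo (n := n) (t := -19 / 4) hc.ge (nn (n - s) d) (by rw [hs]; push_cast; linarith)
  refine le_trans (le_of_eq ?_) this
  ring

/-- `G(s) ≥ 6` for `s ≤ d + 1`. -/
theorem go_mid {n s : ℕ} (h6 : 6 ≤ d) (hs : s ≤ d + 1) :
    6 ≤ Gf n d (9 / 10) (Dl ((d : ℝ) / 3) ((d : ℝ) + 1 / 4)) s := by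
  have hx : (6:ℝ) ≤ (d : ℝ) := by exact_mod_cast h6
  have hc : s + 1 ≤ d ∨ s = d ∨ s = d + 1 := by omega
  rcases hc with h | h | h
  · refine le_trans ?_ (go_lt 1 h)
    push_cast; nlinarith
  · refine le_trans ?_ (go_0 h)
    nlinarith
  · refine le_trans ?_ (go_1 h)
    nlinarith

/-- `k - 1 ≤ J ≤ d - 4`. -/
theorem oM (hk : 4 ≤ k) (hkd : k + 2 ≤ d) {J : ℕ} (hJ : k ≤ J + 1) (hJ' : J + 4 ≤ d) :
    ∃ τ, Five (fun p => Vo (d + k - 2) (d - 1) (J + p))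
      (fun s => Gf (d + k) d (9 / 10) (Dl ((d : ℝ) / 3) ((d : ℝ) + 1 / 4)) (J + s)) τ := by
  refine five_V (V0 := 1 / 2) (V1 := 1 / 2) (V2 := 1 / 2) (τ := 1) (W := 1 / 2)
    (om' (by omega) (by omega) (by omega)) (om' (by omega) (by omega) (by omega))
    (om' (by omega) (by omega) (by omega)) (go_mid (by omega) (by omega))
    (go_mid (by omega) (by omega)) (go_mid (by omega) (by omega)) (go_mid (by omega) (by omega))
    (go_mid (by omega) (by omega)) one_pos (by norm_num) ?_ ?_ ?_ ?_ ?_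
  all_goals norm_num

/-- `J = d - 3`. -/
theorem oR3 (hk : 4 ≤ k) (hkd : k + 2 ≤ d) {J : ℕ} (hJ' : J + 3 = d) :
    ∃ τ, Five (fun p => Vo (d + k - 2) (d - 1) (J + p))
      (fun s => Gf (d + k) d (9 / 10) (Dl ((d : ℝ) / 3) ((d : ℝ) + 1 / 4)) (J + s)) τ := by
  have v2 : Vo (d + k - 2) (d - 1) (J + 2) = 1 := by
    rw [or' (by omega) (by omega) (by omega) (by omega)]; exact e0 (by omega) (by omega)
  refine five_V (V0 := 1 / 2) (V1 := 1 / 2) (V2 := 1) (τ := 1) (W := 1 / 2)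
    (om' (by omega) (by omega) (by omega)) (om' (by omega) (by omega) (by omega))
    v2 (go_mid (by omega) (by omega))
    (go_mid (by omega) (by omega)) (go_mid (by omega) (by omega)) (go_mid (by omega) (by omega))
    (go_mid (by omega) (by omega)) one_pos (by norm_num) ?_ ?_ ?_ ?_ ?_
  all_goals norm_num

/-- `J = d - 2`. -/
theorem oR2 (hk : 4 ≤ k) (hkd : k + 2 ≤ d) {J : ℕ} (hJ' : J + 2 = d) :
    ∃ τ, Five (fun p => Vo (d + k - 2) (d - 1) (J + p))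
      (fun s => Gf (d + k) d (9 / 10) (Dl ((d : ℝ) / 3) ((d : ℝ) + 1 / 4)) (J + s)) τ := by
  have hx : (6:ℝ) ≤ (d : ℝ) := by exact_mod_cast (show 6 ≤ d by omega)
  have v1 : Vo (d + k - 2) (d - 1) (J + 1) = 1 := by
    rw [or' (by omega) (by omega) (by omega) (by omega)]; exact e0 (by omega) (by omega)
  have v2 : Vo (d + k - 2) (d - 1) (J + 2) = d := by
    rw [or' (by omega) (by omega) (by omega) (by omega)]; exact e1 (by omega) (by omega)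
  refine five_V (V0 := 1 / 2) (V1 := 1) (V2 := d) (τ := 1) (W := 1)
    (om' (by omega) (by omega) (by omega)) v1 v2 (go_mid (by omega) (by omega))
    (go_mid (by omega) (by omega)) (go_0 (by omega)) (go_1 (by omega))
    (go_2 (by omega)) one_pos (by norm_num) ?_ ?_ ?_ ?_ ?_
  · norm_num
  · norm_num
  all_goals
    obtain ⟨y, hy, hxy⟩ : ∃ y : ℝ, 0 ≤ y ∧ (d : ℝ) = y + 6 := ⟨d - 6, by linarith, by ring⟩
    rw [hxy, ← sub_nonneg]
    ring_nf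
    positivity

/-- `J = d - 1`. -/
theorem oR1 (hk : 4 ≤ k) (hkd : k + 2 ≤ d) {J : ℕ} (hJ' : J + 1 = d) :
    ∃ τ, Five (fun p => Vo (d + k - 2) (d - 1) (J + p))
      (fun s => Gf (d + k) d (9 / 10) (Dl ((d : ℝ) / 3) ((d : ℝ) + 1 / 4)) (J + s)) τ := by
  have hx : (6:ℝ) ≤ (d : ℝ) := by exact_mod_cast (show 6 ≤ d by omega)
  have v0 : Vo (d + k - 2) (d - 1) (J + 0) = 1 := by
    rw [or' (by omega) (by omega) (by omega) (by omega)]; exact e0 (by omega) (by omega)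
  have v1 : Vo (d + k - 2) (d - 1) (J + 1) = d := by
    rw [or' (by omega) (by omega) (by omega) (by omega)]; exact e1 (by omega) (by omega)
  have v2 : Vo (d + k - 2) (d - 1) (J + 2) = (d : ℝ) * (d + 1) / 2 := by
    rw [or' (by omega) (by omega) (by omega) (by omega)]; exact e2 (by omega) (by omega)
  refine five_V (τ := 1) (W := d) v0 v1 v2 (go_lt 1 (by omega))
    (go_0 (by omega)) (go_1 (by omega)) (go_2 (by omega)) (go_3 (by omega)) one_pos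
    (by norm_num) ?_ ?_ ?_ ?_ ?_
  all_goals
    push_cast
    obtain ⟨y, hy, hxy⟩ : ∃ y : ℝ, 0 ≤ y ∧ (d : ℝ) = y + 6 := ⟨d - 6, by linarith, by ring⟩
    rw [hxy, ← sub_nonneg]
    ring_nf
    positivity

/-- `J = d`. -/
theorem oR0 (hk : 4 ≤ k) (hkd : k + 2 ≤ d) {J : ℕ} (hJ' : J = d) :
    ∃ τ, Five (fun p => Vo (d + k - 2) (d - 1) (J + p))
      (fun s => Gf (d + k) d (9 / 10) (Dl ((d : ℝ) / 3) ((d : ℝ) + 1 / 4)) (J + s)) τ := by
  have hx : (6:ℝ) ≤ (d : ℝ) := by exact_mod_cast (show 6 ≤ d by omega)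
  have v0 : Vo (d + k - 2) (d - 1) (J + 0) = d := by
    rw [or' (by omega) (by omega) (by omega) (by omega)]; exact e1 (by omega) (by omega)
  have v1 : Vo (d + k - 2) (d - 1) (J + 1) = (d : ℝ) * (d + 1) / 2 := by
    rw [or' (by omega) (by omega) (by omega) (by omega)]; exact e2 (by omega) (by omega)
  have v2 : Vo (d + k - 2) (d - 1) (J + 2) = (d : ℝ) * (d + 1) * (d + 2) / 6 := by
    rw [or' (by omega) (by omega) (by omega) (by omega)]; exact e3 (by omega) (by omega)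
  refine five_V (τ := 1 / 9) (W := 9 / 2 * ((d : ℝ) * (d + 1))) v0 v1 v2
    (go_0 (by omega)) (go_1 (by omega)) (go_2 (by omega)) (go_3 (by omega)) (go_4 (by omega))
    (by norm_num) (le_of_eq (by ring)) ?_ ?_ ?_ ?_ ?_
  all_goals
    obtain ⟨y, hy, hxy⟩ : ∃ y : ℝ, 0 ≤ y ∧ (d : ℝ) = y + 6 := ⟨d - 6, by linarith, by ring⟩
    rw [hxy, ← sub_nonneg]
    ring_nf
    positivity

/-- `J = d + 1`. -/
theorem oS1 (hk : 5 ≤ k) (hkd : k + 2 ≤ d) {J : ℕ} (hJ' : J = d + 1) :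
    ∃ τ, Five (fun p => Vo (d + k - 2) (d - 1) (J + p))
      (fun s => Gf (d + k) d (9 / 10) (Dl ((d : ℝ) / 3) ((d : ℝ) + 1 / 4)) (J + s)) τ := by
  have hx : (7:ℝ) ≤ (d : ℝ) := by exact_mod_cast (show 7 ≤ d by omega)
  have hd0 : (0:ℝ) < d := by linarith
  have v0 : Vo (d + k - 2) (d - 1) (J + 0) = (d : ℝ) * (d + 1) / 2 := by
    rw [or' (by omega) (by omega) (by omega) (by omega)]; exact e2 (by omega) (by omega)
  have v1 : Vo (d + k - 2) (d - 1) (J + 1) = (d : ℝ) * (d + 1) * (d + 2) / 6 := by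
    rw [or' (by omega) (by omega) (by omega) (by omega)]; exact e3 (by omega) (by omega)
  have v2 : Vo (d + k - 2) (d - 1) (J + 2) = (d : ℝ) * (d + 1) * (d + 2) * (d + 3) / 24 := by
    rw [or' (by omega) (by omega) (by omega) (by omega)]; exact e4 (by omega) (by omega)
  have hτ : (4 : ℝ) / (5 * d) * ((d : ℝ) * (d + 1) * (d + 2) / 6) =
      2 / 15 * (((d : ℝ) + 1) * (d + 2)) := by
    field_simp; ring
  refine five_V (τ := 4 / (5 * (d : ℝ))) (W := 5 / 24 * ((d : ℝ) ^ 2 * (d + 1) * (d + 2))) v0 v1 v2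
    (go_1 (by omega)) (go_2 (by omega)) (go_3 (by omega)) (go_4 (by omega)) (go_5 (by omega))
    (by positivity) (le_of_eq (by field_simp; ring)) ?_ ?_ ?_ ?_ ?_
  all_goals
    try rw [hτ]
    obtain ⟨y, hy, hxy⟩ : ∃ y : ℝ, 0 ≤ y ∧ (d : ℝ) = y + 7 := ⟨d - 7, by linarith, by ring⟩
    rw [hxy, ← sub_nonneg]
    ring_nf
    positivity

/-- `G(s)` for `s ≥ d + 2`. -/
theorem go_big {n s : ℕ} (h8 : 8 ≤ d) (hs : d + 2 ≤ s) :
    (9 / 10 * ((s : ℝ) - d + 1) - 2 / 11 * ((s : ℝ) - d - 1 / 4)) * (s.choose (d - 1) : ℝ) ≤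
      Gf n d (9 / 10) (Dl ((d : ℝ) / 3) ((d : ℝ) + 1 / 4)) s := by
  have hx : (8:ℝ) ≤ (d : ℝ) := by exact_mod_cast h8
  have h1 := GO_lo (n := n) (s := s) (t := (d : ℝ) + 1 / 4 - s) (le_refl ((s.choose d : ℕ) : ℝ))
    (nn (n - s) d) (by linarith)
  refine le_trans ?_ h1
  have hu := up_right (d := d) (m := s) (by omega) (by omega)
  have hB : 11 / 6 * (d : ℝ) ^ 2 ≤ (s.choose (d - 1) : ℝ) := by
    refine le_trans ?_ (ch_mono (d - 1) hs)
    rw [e3 (by omega) rfl]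
    obtain ⟨y, hy, hxy⟩ : ∃ y : ℝ, 0 ≤ y ∧ (d : ℝ) = y + 8 := ⟨d - 8, by linarith, by ring⟩
    rw [hxy, ← sub_nonneg]
    ring_nf
    positivity
  have hj : (2:ℝ) ≤ (s : ℝ) - d := by
    have : ((d + 2 : ℕ) : ℝ) ≤ s := by exact_mod_cast hs
    push_cast at this; linarith
  have h2 : 11 / 6 * (d : ℝ) ^ 2 * ((s : ℝ) - d - 1 / 4) ≤
      (s.choose (d - 1) : ℝ) * ((s : ℝ) - d - 1 / 4) :=
    mul_le_mul_of_nonneg_right hB (by linarith)
  have e : (d : ℝ) * (9 / 10 * (s.choose d : ℝ) + 1 / 10 * 0 + (d : ℝ) / 3 * ((d : ℝ) + 1 / 4 - s)) =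
      9 / 10 * (((s : ℝ) - d + 1) * (s.choose (d - 1) : ℝ)) -
        (d : ℝ) ^ 2 / 3 * ((s : ℝ) - d - 1 / 4) := by
    linear_combination (9 / 10) * hu
  rw [e]
  linarith

/-- `J ≥ d + 2`. -/
theorem oS2 (hk : 4 ≤ k) (hkd : k + 2 ≤ d) {J : ℕ} (hJ : d + 2 ≤ J) (hJk : J + 4 ≤ d + k) :
    ∃ τ, Five (fun p => Vo (d + k - 2) (d - 1) (J + p))
      (fun s => Gf (d + k) d (9 / 10) (Dl ((d : ℝ) / 3) ((d : ℝ) + 1 / 4)) (J + s)) τ := by
  have h8 : 8 ≤ d := by omega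
  have hx : (8:ℝ) ≤ (d : ℝ) := by exact_mod_cast h8
  have c01 : (J.choose (d - 1) : ℝ) ≤ ((J + 1).choose (d - 1) : ℝ) := ch_mono _ (by omega)
  have c12 : ((J + 1).choose (d - 1) : ℝ) ≤ ((J + 2).choose (d - 1) : ℝ) := ch_mono _ (by omega)
  have c23 : ((J + 2).choose (d - 1) : ℝ) ≤ ((J + 3).choose (d - 1) : ℝ) := ch_mono _ (by omega)
  have c34 : ((J + 3).choose (d - 1) : ℝ) ≤ ((J + 4).choose (d - 1) : ℝ) := ch_mono _ (by omega)
  have p0 : (0 : ℝ) < (J.choose (d - 1) : ℝ) := by exact_mod_cast Nat.choose_pos (by omega)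
  have hsq := B_sq (d := d) (J := J) (by omega) (by omega)
  have hj2 : (2:ℝ) ≤ (J : ℝ) - d := by
    have : ((d + 2 : ℕ) : ℝ) ≤ J := by exact_mod_cast hJ
    push_cast at this; linarith
  have g0 := go_big (n := d + k) h8 (s := J + 0) (by omega)
  have g1 := go_big (n := d + k) h8 (s := J + 1) (by omega)
  have g2 := go_big (n := d + k) h8 (s := J + 2) (by omega)
  have g3 := go_big (n := d + k) h8 (s := J + 3) (by omega)
  have g4 := go_big (n := d + k) h8 (s := J + 4) (by omega)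
  push_cast at g0 g1 g2 g3 g4
  rw [add_zero] at g0
  set B0 := (J.choose (d - 1) : ℝ) with hB0
  set B1 := ((J + 1).choose (d - 1) : ℝ) with hB1
  set B2 := ((J + 2).choose (d - 1) : ℝ) with hB2
  set B3 := ((J + 3).choose (d - 1) : ℝ) with hB3
  set B4 := ((J + 4).choose (d - 1) : ℝ) with hB4
  have p1 : 0 < B1 := lt_of_lt_of_le p0 c01
  have p2 : 0 < B2 := lt_of_lt_of_le p1 c12
  have p3 : 0 < B3 := lt_of_lt_of_le p2 c23
  have p4 : 0 < B4 := lt_of_lt_of_le p3 c34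
  have hq : B1 ^ 2 ≤ 5 / 4 * (B0 * B2) := by
    have h3 : ((J : ℝ) - d + 2) * B1 ^ 2 ≤ ((J : ℝ) - d + 2) * (5 / 4 * (B0 * B2)) := by
      refine le_trans (show ((J : ℝ) - d + 2) * B1 ^ 2 ≤
        ((J : ℝ) - d + 3) * B0 * B2 from hsq) ?_
      have h4 : 0 ≤ B0 * B2 := by positivity
      have h5 : ((J : ℝ) - d + 3) * (B0 * B2) ≤ (((J : ℝ) - d + 2) * (5 / 4)) * (B0 * B2) :=
        mul_le_mul_of_nonneg_right (by linarith) h4
      linarith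
    exact le_of_mul_le_mul_left h3 (by linarith)
  have hτ : B0 / B1 * B1 = B0 := div_mul_cancel₀ _ p1.ne'
  have hW : B1 / (B0 / B1) ≤ 5 / 4 * B2 := by
    rw [div_div_eq_mul_div, div_le_iff₀ p0]
    linarith
  -- lower bounds of the right sides
  have k0 : 2 * B0 ≤ (9 / 10 * ((J : ℝ) - d + 1) - 2 / 11 * ((J : ℝ) - d - 1 / 4)) * B0 :=
    mul_le_mul_of_nonneg_right (by linarith) p0.le
  have k1 : 2 * B1 ≤ (9 / 10 * ((J : ℝ) + 1 - d + 1) - 2 / 11 * ((J : ℝ) + 1 - d - 1 / 4)) * B1 :=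
    mul_le_mul_of_nonneg_right (by linarith) p1.le
  have k2 : 3 * B2 ≤ (9 / 10 * ((J : ℝ) + 2 - d + 1) - 2 / 11 * ((J : ℝ) + 2 - d - 1 / 4)) * B2 :=
    mul_le_mul_of_nonneg_right (by linarith) p2.le
  have k3 : 3 * B3 ≤ (9 / 10 * ((J : ℝ) + 3 - d + 1) - 2 / 11 * ((J : ℝ) + 3 - d - 1 / 4)) * B3 :=
    mul_le_mul_of_nonneg_right (by linarith) p3.le
  have k4 : 3 * B4 ≤ (9 / 10 * ((J : ℝ) + 4 - d + 1) - 2 / 11 * ((J : ℝ) + 4 - d - 1 / 4)) * B4 :=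
    mul_le_mul_of_nonneg_right (by linarith) p4.le
  refine five_V (τ := B0 / B1) (W := 5 / 4 * B2) (V0 := B0) (V1 := B1) (V2 := B2)
    (or' (by omega) (by omega) (by omega) (by omega))
    (or' (by omega) (by omega) (by omega) (by omega))
    (or' (by omega) (by omega) (by omega) (by omega))
    (k0.trans g0) (k1.trans g1) (k2.trans g2) (k3.trans g3) (k4.trans g4) (div_pos p0 p1) hW
    ?_ ?_ ?_ ?_ ?_
  · rw [hτ]; linarith
  · rw [hτ]; linarith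
  · rw [hτ]; linarith
  · linarith
  · linarith

end

end Pool.Agent.HHalfC
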