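import Pool.Agent.HHalfC.COpp

/-!
# The inequalities on the opposite side (`k ≥ 4`): the left part and the theorem
-/

set_option autoImplicit false

namespace Pool.Agent.HHalfC

open Pool.Agent.HHalf Pool.Agent.HHalfB

section
variable {k d : ℕ}

theorem e5 {d j : ℕ} (hd : 1 ≤ d) (h : j = d + 4) :
    (j.choose (d - 1) : ℝ) = (d : ℝ) * (d + 1) * (d + 2) * (d + 3) * (d + 4) / 120 := by
  obtain ⟨e, rfl⟩ : ∃ e, d = e + 1 := ⟨d - 1, by omega⟩
  rw [show j = e + 5 by omega, Nat.add_sub_cancel, ch5]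
  push_cast; ring

theorem r4 {d j : ℕ} (hd : 1 ≤ d) (h : j = d + 4) :
    (j.choose (d - 1) : ℝ) / d = ((d : ℝ) + 1) * (d + 2) * (d + 3) * (d + 4) / 120 := by
  have hd' : (d : ℝ) ≠ 0 := by
    have : (0:ℝ) < d := by exact_mod_cast hd
    exact this.ne'
  rw [e5 hd h]; field_simp

/-- `G(s)`, `s + j ≤ d`, with the binomial coefficient. -/
theorem go_l {n s : ℕ} (j : ℕ) {c' : ℝ} (hc' : c' ≤ ((n - s).choose d : ℝ)) (hs : s + j ≤ d) :
    (d : ℝ) * (1 / 10 * c' + (d : ℝ) / 3 * ((j : ℝ) + 1 / 4)) ≤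
      Gf n d (9 / 10) (Dl ((d : ℝ) / 3) ((d : ℝ) + 1 / 4)) s := by
  have h1 : (s : ℝ) + j ≤ d := by exact_mod_cast hs
  have := GO_lo (n := n) (t := (j : ℝ) + 1 / 4) (nn s d) hc' (by linarith)
  refine le_trans (le_of_eq ?_) this
  ring

/-- `J = k - 2`. -/
theorem oL2 (hk : 4 ≤ k) (hkd : k + 2 ≤ d) {J : ℕ} (hJ : J + 2 = k) :
    ∃ τ, Five (fun p => Vo (d + k - 2) (d - 1) (J + p))
      (fun s => Gf (d + k) d (9 / 10) (Dl ((d : ℝ) / 3) ((d : ℝ) + 1 / 4)) (J + s)) τ := by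
  have v0 : Vo (d + k - 2) (d - 1) (J + 0) = 1 := by
    rw [ol' (by omega) (by omega)]; exact r0 (by omega) (by omega)
  refine five_V (V0 := 1) (V1 := 1 / 2) (V2 := 1 / 2) (τ := 1) (W := 1 / 2)
    v0 (om' (by omega) (by omega) (by omega))
    (om' (by omega) (by omega) (by omega)) (go_mid (by omega) (by omega))
    (go_mid (by omega) (by omega)) (go_mid (by omega) (by omega)) (go_mid (by omega) (by omega))
    (go_mid (by omega) (by omega)) one_pos (by norm_num) ?_ ?_ ?_ ?_ ?_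
  all_goals norm_num

/-- `J = k - 3`. -/
theorem oL3 (hk : 4 ≤ k) (hkd : k + 2 ≤ d) {J : ℕ} (hJ : J + 3 = k) :
    ∃ τ, Five (fun p => Vo (d + k - 2) (d - 1) (J + p))
      (fun s => Gf (d + k) d (9 / 10) (Dl ((d : ℝ) / 3) ((d : ℝ) + 1 / 4)) (J + s)) τ := by
  have hx : (6:ℝ) ≤ (d : ℝ) := by exact_mod_cast (show 6 ≤ d by omega)
  have v0 : Vo (d + k - 2) (d - 1) (J + 0) = ((d : ℝ) + 1) / 2 := by
    rw [ol' (by omega) (by omega)]; exact r1 (by omega) (by omega)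
  have v1 : Vo (d + k - 2) (d - 1) (J + 1) = 1 := by
    rw [ol' (by omega) (by omega)]; exact r0 (by omega) (by omega)
  refine five_V (V2 := 1 / 2) (τ := 1) (W := 1)
    v0 v1 (om' (by omega) (by omega) (by omega)) (go_lt 3 (by omega))
    (go_lt 3 (by omega)) (go_lt 3 (by omega)) (go_mid (by omega) (by omega))
    (go_mid (by omega) (by omega)) one_pos (by norm_num) ?_ ?_ ?_ ?_ ?_
  · push_cast; nlinarith
  · push_cast; nlinarith
  · push_cast; nlinarith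
  · norm_num
  · norm_num

/-- `J = k - 4`. -/
theorem oL4 (hkd : k + 2 ≤ d) {J : ℕ} (hJ : J + 4 = k) :
    ∃ τ, Five (fun p => Vo (d + k - 2) (d - 1) (J + p))
      (fun s => Gf (d + k) d (9 / 10) (Dl ((d : ℝ) / 3) ((d : ℝ) + 1 / 4)) (J + s)) τ := by
  have hx : (6:ℝ) ≤ (d : ℝ) := by exact_mod_cast (show 6 ≤ d by omega)
  have v0 : Vo (d + k - 2) (d - 1) (J + 0) = ((d : ℝ) + 1) * (d + 2) / 6 := by
    rw [ol' (by omega) (by omega)]; exact r2 (by omega) (by omega)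
  have v1 : Vo (d + k - 2) (d - 1) (J + 1) = ((d : ℝ) + 1) / 2 := by
    rw [ol' (by omega) (by omega)]; exact r1 (by omega) (by omega)
  have v2 : Vo (d + k - 2) (d - 1) (J + 2) = 1 := by
    rw [ol' (by omega) (by omega)]; exact r0 (by omega) (by omega)
  refine five_V (τ := 1) (W := ((d : ℝ) + 1) / 2)
    v0 v1 v2 (go_lt 4 (by omega)) (go_lt 4 (by omega)) (go_lt 4 (by omega)) (go_lt 2 (by omega))
    (go_lt 2 (by omega)) one_pos (by rw [div_one]) ?_ ?_ ?_ ?_ ?_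
  all_goals
    push_cast
    obtain ⟨y, hy, hxy⟩ : ∃ y : ℝ, 0 ≤ y ∧ (d : ℝ) = y + 6 := ⟨d - 6, by linarith, by ring⟩
    rw [hxy, ← sub_nonneg]
    ring_nf
    positivity

/-- `J = k - 5`. -/
theorem oL5 (hkd : k + 2 ≤ d) {J : ℕ} (hJ : J + 5 = k) :
    ∃ τ, Five (fun p => Vo (d + k - 2) (d - 1) (J + p))
      (fun s => Gf (d + k) d (9 / 10) (Dl ((d : ℝ) / 3) ((d : ℝ) + 1 / 4)) (J + s)) τ := by
  have hx : (6:ℝ) ≤ (d : ℝ) := by exact_mod_cast (show 6 ≤ d by omega)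
  have v0 : Vo (d + k - 2) (d - 1) (J + 0) = ((d : ℝ) + 1) * (d + 2) * (d + 3) / 24 := by
    rw [ol' (by omega) (by omega)]; exact r3 (by omega) (by omega)
  have v1 : Vo (d + k - 2) (d - 1) (J + 1) = ((d : ℝ) + 1) * (d + 2) / 6 := by
    rw [ol' (by omega) (by omega)]; exact r2 (by omega) (by omega)
  have v2 : Vo (d + k - 2) (d - 1) (J + 2) = ((d : ℝ) + 1) / 2 := by
    rw [ol' (by omega) (by omega)]; exact r1 (by omega) (by omega)
  have c3 : ∀ m : ℕ, d + 3 ≤ m → ((d : ℝ) + 1) * (d + 2) * (d + 3) / 6 ≤ (m.choose d : ℝ) := by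
    intro m hm
    rw [← ch3]
    exact ch_mono d hm
  refine five_V (τ := 1) (W := ((d : ℝ) + 1) * (d + 2) / 6)
    v0 v1 v2 (go_l 5 (c3 _ (by omega)) (by omega)) (go_l 5 (c3 _ (by omega)) (by omega))
    (go_l 5 (c3 _ (by omega)) (by omega)) (go_lt 3 (by omega))
    (go_lt 3 (by omega)) one_pos (by rw [div_one]) ?_ ?_ ?_ ?_ ?_
  all_goals
    push_cast
    obtain ⟨y, hy, hxy⟩ : ∃ y : ℝ, 0 ≤ y ∧ (d : ℝ) = y + 6 := ⟨d - 6, by linarith, by ring⟩
    rw [hxy, ← sub_nonneg]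
    ring_nf
    positivity

/-- `J = k - 6`. -/
theorem oL6 (hkd : k + 2 ≤ d) {J : ℕ} (hJ : J + 6 = k) :
    ∃ τ, Five (fun p => Vo (d + k - 2) (d - 1) (J + p))
      (fun s => Gf (d + k) d (9 / 10) (Dl ((d : ℝ) / 3) ((d : ℝ) + 1 / 4)) (J + s)) τ := by
  have hx : (6:ℝ) ≤ (d : ℝ) := by exact_mod_cast (show 6 ≤ d by omega)
  have v0 : Vo (d + k - 2) (d - 1) (J + 0) =
      ((d : ℝ) + 1) * (d + 2) * (d + 3) * (d + 4) / 120 := by
    rw [ol' (by omega) (by omega)]; exact r4 (by omega) (by omega)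
  have v1 : Vo (d + k - 2) (d - 1) (J + 1) = ((d : ℝ) + 1) * (d + 2) * (d + 3) / 24 := by
    rw [ol' (by omega) (by omega)]; exact r3 (by omega) (by omega)
  have v2 : Vo (d + k - 2) (d - 1) (J + 2) = ((d : ℝ) + 1) * (d + 2) / 6 := by
    rw [ol' (by omega) (by omega)]; exact r2 (by omega) (by omega)
  have c2 : ∀ m : ℕ, d + 2 ≤ m → ((d : ℝ) + 1) * (d + 2) / 2 ≤ (m.choose d : ℝ) := by
    intro m hm
    rw [← ch2]
    exact ch_mono d hm
  have c4 : ∀ m : ℕ, d + 4 ≤ m →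
      ((d : ℝ) + 1) * (d + 2) * (d + 3) * (d + 4) / 24 ≤ (m.choose d : ℝ) := by
    intro m hm
    rw [← ch4]
    exact ch_mono d hm
  refine five_V (τ := 1) (W := ((d : ℝ) + 1) * (d + 2) * (d + 3) / 24)
    v0 v1 v2 (go_l 6 (c4 _ (by omega)) (by omega)) (go_l 6 (c4 _ (by omega)) (by omega))
    (go_l 6 (c4 _ (by omega)) (by omega)) (go_l 4 (c2 _ (by omega)) (by omega))
    (go_l 4 (c2 _ (by omega)) (by omega)) one_pos (by rw [div_one]) ?_ ?_ ?_ ?_ ?_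
  all_goals
    push_cast
    obtain ⟨y, hy, hxy⟩ : ∃ y : ℝ, 0 ≤ y ∧ (d : ℝ) = y + 6 := ⟨d - 6, by linarith, by ring⟩
    rw [hxy, ← sub_nonneg]
    ring_nf
    positivity

/-- `J ≤ k - 7`. -/
theorem oL7 (hkd : k + 2 ≤ d) {J : ℕ} (hJ : J + 7 ≤ k) :
    ∃ τ, Five (fun p => Vo (d + k - 2) (d - 1) (J + p))
      (fun s => Gf (d + k) d (9 / 10) (Dl ((d : ℝ) / 3) ((d : ℝ) + 1 / 4)) (J + s)) τ := by
  have hx : (9:ℝ) ≤ (d : ℝ) := by exact_mod_cast (show 9 ≤ d by omega)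
  have hd1 : 1 ≤ d := by omega
  have hd0 : (0:ℝ) < d := by linarith
  obtain ⟨m, hm⟩ : ∃ m, d + k - 2 - (J + 2) = m := ⟨_, rfl⟩
  have hmd : d + 3 ≤ m := by omega
  have v0 : Vo (d + k - 2) (d - 1) (J + 0) = ((m + 2).choose (d - 1) : ℝ) / d := by
    rw [ol' (by omega) (by omega)]; congr 3; omega
  have v1 : Vo (d + k - 2) (d - 1) (J + 1) = ((m + 1).choose (d - 1) : ℝ) / d := by
    rw [ol' (by omega) (by omega)]; congr 3; omega
  have v2 : Vo (d + k - 2) (d - 1) (J + 2) = (m.choose (d - 1) : ℝ) / d := by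
    rw [ol' (by omega) (by omega)]; congr 3
  have hr : (3:ℝ) ≤ (m : ℝ) - d := by
    have : ((d + 3 : ℕ) : ℝ) ≤ m := by exact_mod_cast hmd
    push_cast at this; linarith
  have g : ∀ s ≤ 4, 1 / 10 * (((m : ℝ) - d + 5 - s) * ((m + 4 - s).choose (d - 1) : ℝ)) ≤
      Gf (d + k) d (9 / 10) (Dl ((d : ℝ) / 3) ((d : ℝ) + 1 / 4)) (J + s) := by
    intro s hs
    have h1 := go_l (d := d) (n := d + k) (s := J + s) 0 (le_refl _) (by omega)
    refine le_trans ?_ h1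
    rw [show d + k - (J + s) = m + 4 - s by omega]
    have h2 := up_all (d := d) (m := m + 4 - s) hd1 (by omega)
    rw [Nat.cast_sub (by omega : s ≤ m + 4)] at h2
    push_cast at h2
    have e : ((m : ℝ) - d + 5 - s) * ((m + 4 - s).choose (d - 1) : ℝ) =
        d * ((m + 4 - s).choose d : ℝ) := by
      rw [h2]; ring
    rw [e]
    have h3 : 0 ≤ (d : ℝ) * ((d : ℝ) / 3 * (((0 : ℕ) : ℝ) + 1 / 4)) := by positivity
    linarith
  have c01 : (m.choose (d - 1) : ℝ) ≤ ((m + 1).choose (d - 1) : ℝ) := ch_mono _ (by omega)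
  have c12 : ((m + 1).choose (d - 1) : ℝ) ≤ ((m + 2).choose (d - 1) : ℝ) := ch_mono _ (by omega)
  have c23 : ((m + 2).choose (d - 1) : ℝ) ≤ ((m + 3).choose (d - 1) : ℝ) := ch_mono _ (by omega)
  have c34 : ((m + 3).choose (d - 1) : ℝ) ≤ ((m + 4).choose (d - 1) : ℝ) := ch_mono _ (by omega)
  have p0 : (0 : ℝ) < (m.choose (d - 1) : ℝ) := by exact_mod_cast Nat.choose_pos (by omega)
  have u0 := succ_up (d := d) (m := m) hd1 (by omega)
  have g0 := g 0 (by norm_num)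
  have g1 := g 1 (by norm_num)
  have g2 := g 2 (by norm_num)
  have g3 := g 3 (by norm_num)
  have g4 := g 4 (by norm_num)
  rw [Nat.sub_zero] at g0
  rw [show m + 4 - 1 = m + 3 by omega] at g1
  rw [show m + 4 - 2 = m + 2 by omega] at g2
  rw [show m + 4 - 3 = m + 1 by omega] at g3
  rw [show m + 4 - 4 = m by omega] at g4
  push_cast at g0 g1 g2 g3 g4
  set B2 := (m.choose (d - 1) : ℝ) with hB2
  set B1 := ((m + 1).choose (d - 1) : ℝ) with hB1
  set B0 := ((m + 2).choose (d - 1) : ℝ) with hB0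
  set B3 := ((m + 3).choose (d - 1) : ℝ) with hB3
  set B4 := ((m + 4).choose (d - 1) : ℝ) with hB4
  have p1 : 0 < B1 := lt_of_lt_of_le p0 c01
  have p2 : 0 < B0 := lt_of_lt_of_le p1 c12
  have p3 : 0 < B3 := lt_of_lt_of_le p2 c23
  have p4 : 0 < B4 := lt_of_lt_of_le p3 c34
  have hd' : ∀ {B : ℝ}, 0 ≤ B → B / d ≤ B / 9 := fun hB =>
    div_le_div_of_nonneg_left hB (by norm_num) hx
  have q0 := hd' p2.le
  have q1 := hd' p1.le
  have q2 := hd' p0.le
  -- the last inequality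
  have hq : B2 / d + B1 / d ≤ 1 / 10 * (((m : ℝ) - d + 5 - 4) * B2) := by
    rw [← add_div, div_le_iff₀ hd0]
    have h1 : ((m : ℝ) - d + 2) * (B2 + B1) ≤
        ((m : ℝ) - d + 2) * (1 / 10 * (((m : ℝ) - d + 5 - 4) * B2) * d) := by
      have e : ((m : ℝ) - d + 2) * (B2 + B1) = (((m : ℝ) - d + 2) + (m + 1)) * B2 := by
        linear_combination u0
      have e' : ((m : ℝ) - d + 2) * (1 / 10 * (((m : ℝ) - d + 5 - 4) * B2) * d) =
        (((m : ℝ) - d + 2) * (1 / 10 * ((m : ℝ) - d + 1) * d)) * B2 := by ring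
      rw [e, e']
      refine mul_le_mul_of_nonneg_right ?_ p0.le
      obtain ⟨r, hr0, hrm⟩ : ∃ r : ℝ, 0 ≤ r ∧ (m : ℝ) = r + 3 + d :=
        ⟨m - d - 3, by linarith, by ring⟩
      obtain ⟨y, hy, hxy⟩ : ∃ y : ℝ, 0 ≤ y ∧ (d : ℝ) = y + 9 := ⟨d - 9, by linarith, by ring⟩
      rw [hrm, hxy, ← sub_nonneg]
      ring_nf
      positivity
    exact le_of_mul_le_mul_left h1 (by linarith)
  have k0 : 8 * B4 ≤ ((m : ℝ) - d + 5 - 0) * B4 := mul_le_mul_of_nonneg_right (by linarith) p4.le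
  have k1 : 7 * B3 ≤ ((m : ℝ) - d + 5 - 1) * B3 := mul_le_mul_of_nonneg_right (by linarith) p3.le
  have k2 : 6 * B0 ≤ ((m : ℝ) - d + 5 - 2) * B0 := mul_le_mul_of_nonneg_right (by linarith) p2.le
  have k3 : 5 * B1 ≤ ((m : ℝ) - d + 5 - 3) * B1 := mul_le_mul_of_nonneg_right (by linarith) p1.le
  refine five_V (τ := 1) (W := B1 / d) v0 v1 v2 g0 g1 g2 g3 g4 one_pos (by rw [div_one])
    ?_ ?_ ?_ ?_ hq
  · linarith
  · linarith
  · linarith
  · linarith

/-- Different pairs. -/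
theorem opp2 (hk : 4 ≤ k) (hkd : k + 2 ≤ d) : ∀ J, J + 4 ≤ d + k →
    ∃ τ, Five (fun p => Vo (d + k - 2) (d - 1) (J + p))
      (fun s => Gf (d + k) d (9 / 10) (Dl ((d : ℝ) / 3) ((d : ℝ) + 1 / 4)) (J + s)) τ := by
  intro J hJ
  have hcases : J + 7 ≤ k ∨ J + 6 = k ∨ J + 5 = k ∨ J + 4 = k ∨ J + 3 = k ∨ J + 2 = k ∨
    (k ≤ J + 1 ∧ J + 4 ≤ d) ∨ J + 3 = d ∨ J + 2 = d ∨ J + 1 = d ∨ J = d ∨ J = d + 1 ∨
    d + 2 ≤ J := by omega
  rcases hcases with h1 | h1 | h1 | h1 | h1 | h1 | ⟨h1, h2⟩ | h1 | h1 | h1 | h1 | h1 | h1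
  · exact oL7 hkd h1
  · exact oL6 hkd h1
  · exact oL5 hkd h1
  · exact oL4 hkd h1
  · exact oL3 hk hkd h1
  · exact oL2 hk hkd h1
  · exact oM hk hkd h1 h2
  · exact oR3 hk hkd h1
  · exact oR2 hk hkd h1
  · exact oR1 hk hkd h1
  · exact oR0 hk hkd h1
  · exact oS1 (by omega) hkd h1
  · exact oS2 hk hkd h1 hJ

/-- Same pair. -/
theorem opp1 (hk : 4 ≤ k) (hkd : k + 2 ≤ d) : ∀ J ≤ d + k - 2, ∀ p ≤ 2,
    Vo (d + k - 2) (d - 1) J ≤
      Gf (d + k) d (9 / 10) (Dl ((d : ℝ) / 3) ((d : ℝ) + 1 / 4)) (J + p) := by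
  intro J hJ p hp
  have hx : (6:ℝ) ≤ (d : ℝ) := by exact_mod_cast (show 6 ≤ d by omega)
  have hcases : J + 3 ≤ k ∨ J + 2 = k ∨ (k ≤ J + 1 ∧ J + 2 ≤ d) ∨ J + 1 = d ∨ J = d ∨
    J = d + 1 ∨ J = d + 2 ∨ J = d + 3 ∨ d + 4 ≤ J := by omega
  rcases hcases with h1 | h1 | ⟨h1, h2⟩ | h1 | h1 | h1 | h1 | h1 | h1
  · rw [ol' (by omega) (by omega)]
    obtain ⟨m, hm⟩ : ∃ m, m = d + k - 2 - J := ⟨_, rfl⟩
    rw [← hm]
    have h2 := go_l (d := d) (n := d + k) (s := J + p) 3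
      (ch_mono d (show m ≤ d + k - (J + p) by omega)) (by omega)
    refine le_trans ?_ h2
    have hu := up_all (d := d) (m := m) (by omega) (by omega)
    have hmr : ((d : ℕ) : ℝ) + 1 ≤ m := by exact_mod_cast (show d + 1 ≤ m by omega)
    have h3 : 2 * (m.choose (d - 1) : ℝ) ≤ ((m : ℝ) - d + 1) * (m.choose (d - 1) : ℝ) :=
      mul_le_mul_of_nonneg_right (by linarith) (Nat.cast_nonneg _)
    have h4 := nn m (d - 1)
    have h5 : (m.choose (d - 1) : ℝ) / d ≤ (m.choose (d - 1) : ℝ) / 6 :=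
      div_le_div_of_nonneg_left h4 (by norm_num) hx
    have h6 : 0 ≤ (d : ℝ) * ((d : ℝ) / 3 * (((3 : ℕ) : ℝ) + 1 / 4)) := by positivity
    linarith
  · rw [ol' (by omega) (by omega), r0 (by omega) (by omega)]
    exact le_trans (by norm_num) (go_mid (by omega) (by omega))
  · rw [om' (by omega) (by omega) (by omega)]
    exact le_trans (by norm_num) (go_mid (by omega) (by omega))
  · rw [or' (by omega) (by omega) (by omega) (by omega), e0 (by omega) (by omega)]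
    exact le_trans (by norm_num) (go_mid (by omega) (by omega))
  · rw [or' (by omega) (by omega) (by omega) (by omega), e1 (by omega) (by omega)]
    have hp' : p = 0 ∨ p = 1 ∨ p = 2 := by omega
    rcases hp' with rfl | rfl | rfl
    · refine le_trans ?_ (go_0 (by omega)); nlinarith
    · refine le_trans ?_ (go_1 (by omega)); nlinarith
    · refine le_trans ?_ (go_2 (by omega))
      obtain ⟨y, hy, hxy⟩ : ∃ y : ℝ, 0 ≤ y ∧ (d : ℝ) = y + 6 := ⟨d - 6, by linarith, by ring⟩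
      rw [hxy, ← sub_nonneg]
      ring_nf
      positivity
  · rw [or' (by omega) (by omega) (by omega) (by omega), e2 (by omega) (by omega)]
    have hp' : p = 0 ∨ p = 1 ∨ p = 2 := by omega
    rcases hp' with rfl | rfl | rfl
    · refine le_trans ?_ (go_1 (by omega)); nlinarith
    · refine le_trans ?_ (go_2 (by omega))
      obtain ⟨y, hy, hxy⟩ : ∃ y : ℝ, 0 ≤ y ∧ (d : ℝ) = y + 6 := ⟨d - 6, by linarith, by ring⟩
      rw [hxy, ← sub_nonneg]
      ring_nf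
      positivity
    · refine le_trans ?_ (go_3 (by omega))
      obtain ⟨y, hy, hxy⟩ : ∃ y : ℝ, 0 ≤ y ∧ (d : ℝ) = y + 6 := ⟨d - 6, by linarith, by ring⟩
      rw [hxy, ← sub_nonneg]
      ring_nf
      positivity
  · rw [or' (by omega) (by omega) (by omega) (by omega), e3 (by omega) (by omega)]
    have hp' : p = 0 ∨ p = 1 ∨ p = 2 := by omega
    obtain ⟨y, hy, hxy⟩ : ∃ y : ℝ, 0 ≤ y ∧ (d : ℝ) = y + 6 := ⟨d - 6, by linarith, by ring⟩
    rcases hp' with rfl | rfl | rfl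
    · refine le_trans ?_ (go_2 (by omega))
      rw [hxy, ← sub_nonneg]
      ring_nf
      positivity
    · refine le_trans ?_ (go_3 (by omega))
      rw [hxy, ← sub_nonneg]
      ring_nf
      positivity
    · refine le_trans ?_ (go_4 (by omega))
      rw [hxy, ← sub_nonneg]
      ring_nf
      positivity
  · rw [or' (by omega) (by omega) (by omega) (by omega), e4 (by omega) (by omega)]
    have hp' : p = 0 ∨ p = 1 ∨ p = 2 := by omega
    obtain ⟨y, hy, hxy⟩ : ∃ y : ℝ, 0 ≤ y ∧ (d : ℝ) = y + 6 := ⟨d - 6, by linarith, by ring⟩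
    rcases hp' with rfl | rfl | rfl
    · refine le_trans ?_ (go_3 (by omega))
      rw [hxy, ← sub_nonneg]
      ring_nf
      positivity
    · refine le_trans ?_ (go_4 (by omega))
      rw [hxy, ← sub_nonneg]
      ring_nf
      positivity
    · refine le_trans ?_ (go_5 (by omega))
      rw [hxy, ← sub_nonneg]
      ring_nf
      positivity
  · rw [or' (by omega) (by omega) (by omega) (by omega)]
    have h8 : 8 ≤ d := by omega
    refine le_trans ?_ (go_big h8 (s := J + p) (by omega))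
    have h2 := ch_mono (d - 1) (show J ≤ J + p by omega)
    have h3 := nn J (d - 1)
    have hj : (4:ℝ) ≤ ((J + p : ℕ) : ℝ) - d := by
      have : ((d + 4 : ℕ) : ℝ) ≤ ((J + p : ℕ) : ℝ) := by exact_mod_cast (show d + 4 ≤ J + p by omega)
      push_cast at this ⊢; linarith
    have h4 : 1 * ((J + p).choose (d - 1) : ℝ) ≤
        (9 / 10 * (((J + p : ℕ) : ℝ) - d + 1) - 2 / 11 * (((J + p : ℕ) : ℝ) - d - 1 / 4)) *
          ((J + p).choose (d - 1) : ℝ) :=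
      mul_le_mul_of_nonneg_right (by linarith) (h3.trans h2)
    linarith

theorem good_opp (hk : 4 ≤ k) (hkd : k + 2 ≤ d) :
    GoodV (d + k) d (9 / 10) (Dl ((d : ℝ) / 3) ((d : ℝ) + 1 / 4)) (Vo (d + k - 2) (d - 1)) :=
  ⟨opp1 hk hkd, opp2 hk hkd⟩

end

end Pool.Agent.HHalfC
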