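import Pool.Agent.HHalfC.CG

/-!
# The inequalities on the cluster side for `(6,2)`, `(8,3)`, `(10,4)`
-/

set_option autoImplicit false

namespace Pool.Agent.HHalfC

open Pool.Agent.HHalf Pool.Agent.HHalfB

theorem good_6_2 : GoodV 6 4 1 (Dl 1 (4 - 11 / 16)) (Vn 4 3) := by
  constructor
  · intro J hJ p hp
    have hJ' : J ≤ 4 := hJ
    interval_cases J <;> interval_cases p <;>
      norm_num [Vn, Gf, Dl, Nat.choose]
  · intro J hJ
    have hJ' : J ≤ 2 := by omega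
    interval_cases J
    · refine ⟨2, ?_⟩
      unfold Five
      norm_num [Vn, Gf, Dl, Nat.choose]
    · refine ⟨1, ?_⟩
      unfold Five
      norm_num [Vn, Gf, Dl, Nat.choose]
    · refine ⟨1, ?_⟩
      unfold Five
      norm_num [Vn, Gf, Dl, Nat.choose]

theorem good_8_3 : GoodV 8 5 1 (Dl (13 / 10) (5 - 11 / 20)) (Vn 6 4) := by
  constructor
  · intro J hJ p hp
    have hJ' : J ≤ 6 := hJ
    interval_cases J <;> interval_cases p <;>
      norm_num [Vn, Gf, Dl, Nat.choose]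
  · intro J hJ
    have hJ' : J ≤ 4 := by omega
    interval_cases J
    · refine ⟨8 / 3, ?_⟩
      unfold Five
      norm_num [Vn, Gf, Dl, Nat.choose]
    · refine ⟨2, ?_⟩
      unfold Five
      norm_num [Vn, Gf, Dl, Nat.choose]
    all_goals
      refine ⟨1, ?_⟩
      unfold Five
      norm_num [Vn, Gf, Dl, Nat.choose]

theorem good_10_4 : GoodV 10 6 (2 / 3) (Dl 1 (6 - 9 / 20)) (Vn 8 5) := by
  constructor
  · intro J hJ p hp
    have hJ' : J ≤ 8 := hJ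
    interval_cases J <;> interval_cases p <;>
      norm_num [Vn, Gf, Dl, Nat.choose]
  · intro J hJ
    have hJ' : J ≤ 6 := by omega
    interval_cases J
    · refine ⟨4, ?_⟩
      unfold Five
      norm_num [Vn, Gf, Dl, Nat.choose]
    · refine ⟨3, ?_⟩
      unfold Five
      norm_num [Vn, Gf, Dl, Nat.choose]
    · refine ⟨2, ?_⟩
      unfold Five
      norm_num [Vn, Gf, Dl, Nat.choose]
    · refine ⟨1, ?_⟩
      unfold Five
      norm_num [Vn, Gf, Dl, Nat.choose]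
    · refine ⟨1, ?_⟩
      unfold Five
      norm_num [Vn, Gf, Dl, Nat.choose]
    · refine ⟨1, ?_⟩
      unfold Five
      norm_num [Vn, Gf, Dl, Nat.choose]
    · refine ⟨1 / 12, ?_⟩
      unfold Five
      norm_num [Vn, Gf, Dl, Nat.choose]

section
variable {n d : ℕ} {γ lam : ℝ}

theorem GD_lo {s : ℕ} {c t : ℝ} (hc : c ≤ (s.choose d : ℝ)) (ht : t ≤ lam * ((d : ℝ) - γ - s)) :
    (d : ℝ) * (c + t) ≤ Gf n d 1 (Dl lam ((d : ℝ) - γ)) s := by
  unfold Gf Dl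
  refine mul_le_mul_of_nonneg_left ?_ (Nat.cast_nonneg _)
  linarith

/-- `G(s)`, `s + j ≤ d`. -/
theorem GD_lt (hlam : 0 ≤ lam) {s : ℕ} (j : ℕ) (hs : s + j ≤ d) :
    (d : ℝ) * (lam * ((j : ℝ) - γ)) ≤ Gf n d 1 (Dl lam ((d : ℝ) - γ)) s := by
  have h1 : (s : ℝ) + j ≤ d := by exact_mod_cast hs
  have := GD_lo (n := n) (lam := lam) (γ := γ) (nn s d) (show lam * ((j : ℝ) - γ) ≤
    lam * ((d : ℝ) - γ - s) from mul_le_mul_of_nonneg_left (by linarith) hlam)
  refine le_trans (le_of_eq ?_) this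
  ring

theorem GD_0 {s : ℕ} (hs : s = d) :
    (d : ℝ) * (1 - lam * γ) ≤ Gf n d 1 (Dl lam ((d : ℝ) - γ)) s := by
  have hc : ((s.choose d : ℕ) : ℝ) = 1 := by rw [hs, ch0]
  have := GD_lo (n := n) (lam := lam) (γ := γ) hc.ge (le_refl _)
  refine le_trans (le_of_eq ?_) this
  rw [hs]; ring

theorem GD_1 {s : ℕ} (hs : s = d + 1) :
    (d : ℝ) * ((d : ℝ) + 1 - lam * (γ + 1)) ≤ Gf n d 1 (Dl lam ((d : ℝ) - γ)) s := by
  have hc : ((s.choose d : ℕ) : ℝ) = (d : ℝ) + 1 := by rw [hs, ch1]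
  have := GD_lo (n := n) (lam := lam) (γ := γ) hc.ge (le_refl _)
  refine le_trans (le_of_eq ?_) this
  rw [hs]; push_cast; ring

theorem GD_2 {s : ℕ} (hs : s = d + 2) :
    (d : ℝ) * (((d : ℝ) + 1) * (d + 2) / 2 - lam * (γ + 2)) ≤
      Gf n d 1 (Dl lam ((d : ℝ) - γ)) s := by
  have hc : ((s.choose d : ℕ) : ℝ) = ((d : ℝ) + 1) * (d + 2) / 2 := by rw [hs, ch2]
  have := GD_lo (n := n) (lam := lam) (γ := γ) hc.ge (le_refl _)
  refine le_trans (le_of_eq ?_) this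
  rw [hs]; push_cast; ring

theorem GD_3 {s : ℕ} (hs : s = d + 3) :
    (d : ℝ) * (((d : ℝ) + 1) * (d + 2) * (d + 3) / 6 - lam * (γ + 3)) ≤
      Gf n d 1 (Dl lam ((d : ℝ) - γ)) s := by
  have hc : ((s.choose d : ℕ) : ℝ) = ((d : ℝ) + 1) * (d + 2) * (d + 3) / 6 := by rw [hs, ch3]
  have := GD_lo (n := n) (lam := lam) (γ := γ) hc.ge (le_refl _)
  refine le_trans (le_of_eq ?_) this
  rw [hs]; push_cast; ring

end

end Pool.Agent.HHalfC
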